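import Pool.Agent.Lib.MP_7f333f_an.W.Defs
import Pool.Agent.Lib.MP_7f333f_an.Neg.Signs

set_option autoImplicit false

/-!
Module A1: Khintchine's inequality for square functions with weights.
-/

namespace Pool.Agent.Comb7f333f.WPart

open Filter Topology

private theorem a1_ravg_mul (J : ℕ) (b : Fin J → ℝ) (c s : ℝ) :
    ravg J b (fun t => |t| * c) s = ravg J b (fun t => |t|) s * c := by
  induction J generalizing s with
  | zero => rfl
  | succ J ih =>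
    rw [ravg_succ, ravg_succ, ih, ih]
    ring

private theorem a1_fin (J : ℕ) (S : Finset ℕ) (w : ℕ → ℝ) (hw : ∀ s ∈ S, 0 ≤ w s)
    (v : Fin J → ℕ → ℝ) : ∃ θ : Fin J → ℝ, (∀ i, θ i = 1 ∨ θ i = -1) ∧
      ∑ s ∈ S, Real.sqrt ((∑ i, v i s ^ 2) / 3) * w s ≤
        ∑ s ∈ S, |∑ i, θ i * v i s| * w s := by
  obtain ⟨θ, hθ, hle⟩ := exists_sign_ge J v (fun u : ℕ → ℝ => ∑ s ∈ S, |u s| * w s) 0
  refine ⟨θ, hθ, ?_⟩
  rw [ravg_sum S (fun s (u : ℕ → ℝ) => |u s| * w s) J v 0] at hle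
  have h1 : ∀ s ∈ S, Real.sqrt ((∑ i, v i s ^ 2) / 3) * w s ≤
      ravg J v (fun u : ℕ → ℝ => |u s| * w s) 0 := by
    intro s hs
    have h2 := ravg_comp (LinearMap.proj s : (ℕ → ℝ) →ₗ[ℝ] ℝ) (fun t => |t| * w s) J v 0
    simp only [LinearMap.proj_apply, Pi.zero_apply] at h2
    rw [h2, a1_ravg_mul]
    exact mul_le_mul_of_nonneg_right (khintchine J fun i => v i s) (hw s hs)
  refine (Finset.sum_le_sum h1).trans (hle.trans (le_of_eq ?_))
  refine Finset.sum_congr rfl fun s _ => ?_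
  simp [Finset.sum_apply, smul_eq_mul]

theorem khintchine_weighted {ι : Type*} (I : Finset ι) (S : Finset ℕ) (w : ℕ → ℝ)
    (hw : ∀ s ∈ S, 0 ≤ w s) (v : ι → ℕ → ℝ) (B : ℝ)
    (h : ∀ θ : ι → ℝ, IsSign θ → ∑ s ∈ S, |∑ i ∈ I, θ i * v i s| * w s ≤ B) :
    ∑ s ∈ S, Real.sqrt (∑ i ∈ I, v i s ^ 2) * w s ≤ Real.sqrt 3 * B := by
  classical
  set e := I.equivFin with he
  obtain ⟨θ, hθ, hle⟩ := a1_fin I.card S w hw (fun j => v (e.symm j))
  have hsum : ∀ f : ι → ℝ, ∑ i ∈ I, f i = ∑ j : Fin I.card, f (e.symm j) := by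
    intro f
    rw [← Finset.sum_coe_sort I f]
    exact (Equiv.sum_comp e.symm fun i : I => f i).symm
  have hB := h (fun i => if hi : i ∈ I then θ (e ⟨i, hi⟩) else 1) (by
    intro i
    by_cases hi : i ∈ I
    · simp only [hi, dite_true]
      exact hθ _
    · simp only [hi, dite_false]
      exact Or.inl trivial)
  have h1 : ∑ s ∈ S, Real.sqrt ((∑ j, v (e.symm j) s ^ 2) / 3) * w s ≤ B := by
    refine hle.trans (le_trans (le_of_eq ?_) hB)
    refine Finset.sum_congr rfl fun s _ => ?_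
    rw [hsum]
    congr 2
    refine Finset.sum_congr rfl fun j _ => ?_
    have : ((e.symm j : I) : ι) ∈ I := (e.symm j).2
    simp
  have h2 : ∀ s, Real.sqrt (∑ i ∈ I, v i s ^ 2) =
      Real.sqrt 3 * Real.sqrt ((∑ j, v (e.symm j) s ^ 2) / 3) := by
    intro s
    rw [← Real.sqrt_mul (by norm_num), hsum]
    congr 1
    ring
  calc ∑ s ∈ S, Real.sqrt (∑ i ∈ I, v i s ^ 2) * w s
      = Real.sqrt 3 * ∑ s ∈ S, Real.sqrt ((∑ j, v (e.symm j) s ^ 2) / 3) * w s := by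
        rw [Finset.mul_sum]
        refine Finset.sum_congr rfl fun s _ => ?_
        rw [h2]
        ring
    _ ≤ Real.sqrt 3 * B := mul_le_mul_of_nonneg_left h1 (Real.sqrt_nonneg _)

theorem SB_sqrt {ι : Type*} (I : Finset ι) (v : ι → ℕ → ℝ) (B : ℝ)
    (h : ∀ θ : ι → ℝ, IsSign θ → SB (fun s => ∑ i ∈ I, θ i * v i s) B) :
    SB (fun s => Real.sqrt (∑ i ∈ I, v i s ^ 2)) (Real.sqrt 3 * B) := by
  intro F hF
  have h1 := khintchine_weighted I F (fun _ => 1) (fun _ _ => zero_le_one) v B (by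
    intro θ hθ
    simpa using h θ hθ F hF)
  refine le_trans (le_of_eq ?_) h1
  refine Finset.sum_congr rfl fun s _ => ?_
  rw [abs_of_nonneg (Real.sqrt_nonneg _), mul_one]

end Pool.Agent.Comb7f333f.WPart
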