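import Pool.Agent.Lib.MP_7f333f_an.W.Defs

set_option autoImplicit false

/-!
Module A2: dyadic splitting of sums over sets of far positions.
-/

namespace Pool.Agent.Comb7f333f.WPart

theorem SB_dyadic (a : ℕ → ℝ) (B : ℝ) (h : SB a B) (k p : ℕ) (hp : 1 ≤ p) (E : Finset ℕ)
    (hE : ∀ s ∈ E, p ≤ s + 1) (hcard : E.card ≤ 2 ^ k * p) :
    ∑ s ∈ E, |a s| ≤ (k + 1) * B := by
  induction k generalizing p E with
  | zero =>
    rw [pow_zero, one_mul] at hcard
    have h1 := h E fun s hs => hcard.trans (hE s hs)
    simpa using h1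
  | succ k ih =>
    rw [← Finset.sum_filter_add_sum_filter_not E (fun s => s + 1 < 2 * p)]
    have h1 : ∑ s ∈ E.filter (fun s => s + 1 < 2 * p), |a s| ≤ B := by
      refine h _ fun s hs => ?_
      have hsub : E.filter (fun s => s + 1 < 2 * p) ⊆ Finset.Ico (p - 1) (2 * p - 1) := by
        intro t ht
        rw [Finset.mem_filter] at ht
        have := hE t ht.1
        rw [Finset.mem_Ico]
        omega
      have h2 := Finset.card_le_card hsub
      rw [Nat.card_Ico] at h2
      have := hE s (Finset.mem_filter.mp hs).1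
      omega
    have h2 : ∑ s ∈ E.filter (fun s => ¬ s + 1 < 2 * p), |a s| ≤ (k + 1) * B := by
      refine ih (2 * p) (by omega) _ (fun s hs => ?_) ?_
      · have := (Finset.mem_filter.mp hs).2
        omega
      · refine (Finset.card_filter_le _ _).trans (hcard.trans (le_of_eq ?_))
        rw [pow_succ]
        ring
    push_cast
    linarith

end Pool.Agent.Comb7f333f.WPart
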