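import Pool.Agent.Lib.MP_7f333f_an.W.A1
import Pool.Agent.Lib.MP_7f333f_an.W.A2

set_option autoImplicit false

/-!
Module A3: few vectors of a family with bounded signed sums are captured at one position.
-/

namespace Pool.Agent.Comb7f333f.WPart

open Filter Topology

theorem a3_growth (c D : ℝ) (hc : 0 < c) :
    ∃ k0 : ℕ, ∀ k ≥ k0, 3 * D ^ 2 * ((k : ℝ) + 2) ^ 2 < c ^ 2 * 2 ^ k := by
  have h1 : Tendsto (fun n : ℕ => ((n : ℝ)) ^ 2 / (2 : ℝ) ^ n) atTop (𝓝 0) :=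
    tendsto_pow_const_div_const_pow_of_one_lt 2 (by norm_num)
  have h2 : Tendsto (fun n : ℕ => (((n + 2 : ℕ) : ℝ)) ^ 2 / (2 : ℝ) ^ (n + 2)) atTop (𝓝 0) :=
    h1.comp (tendsto_add_atTop_nat 2)
  have hε : 0 < c ^ 2 / (12 * D ^ 2 + 1) := by positivity
  obtain ⟨k0, hk0⟩ := Filter.eventually_atTop.mp (h2.eventually (gt_mem_nhds hε))
  refine ⟨k0, fun k hk => ?_⟩
  have h3 := hk0 k hk
  rw [div_lt_div_iff₀ (by positivity) (by positivity)] at h3
  push_cast at h3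
  have h4 : (2 : ℝ) ^ (k + 2) = 4 * 2 ^ k := by ring
  rw [h4] at h3
  have h5 : 0 ≤ D ^ 2 := sq_nonneg D
  nlinarith [sq_nonneg ((k : ℝ) + 2)]

open scoped Classical in
theorem few_captured (c D : ℝ) (hc : 0 < c) (hD : 0 < D) : ∃ M0 : ℕ, ∀ (M : ℕ)
    (v : Fin M → ℕ → ℝ), (∀ θ : Fin M → ℝ, IsSign θ → SB (fun s => ∑ a, θ a * v a s) D) →
    ∀ p : ℕ, 1 ≤ p →
      (Finset.univ.filter fun a => ∃ F, PP p F ∧ c ≤ ∑ s ∈ F, |v a s|).card ≤ M0 := by
  obtain ⟨k0, hk0⟩ := a3_growth c D hc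
  refine ⟨2 ^ k0, fun M v hv p hp => ?_⟩
  by_contra hcon
  push Not at hcon
  set A : Finset (Fin M) := Finset.univ.filter fun a => ∃ F, PP p F ∧ c ≤ ∑ s ∈ F, |v a s|
    with hA
  have hch : ∀ a ∈ A, ∃ F, PP p F ∧ c ≤ ∑ s ∈ F, |v a s| := fun a ha =>
    (Finset.mem_filter.mp ha).2
  choose! F hF using hch
  set E : Finset ℕ := A.biUnion F with hE
  set k : ℕ := Nat.log 2 A.card with hk
  have hA0 : A.card ≠ 0 := by
    have : 0 < 2 ^ k0 := by positivity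
    omega
  have hkk : k0 ≤ k := by
    rw [hk]
    exact (Nat.le_log_iff_pow_le (by norm_num) hA0).mpr hcon.le
  have hlow : 2 ^ k ≤ A.card := Nat.pow_log_le_self 2 hA0
  have hhigh : A.card ≤ 2 ^ (k + 1) := (Nat.lt_pow_succ_log_self (by norm_num) A.card).le
  have hEc : E.card ≤ 2 ^ (k + 1) * p := by
    have h1 : E.card ≤ A.card * p := Finset.card_biUnion_le_card_mul _ _ _ fun a ha =>
      (hF a ha).1.2
    exact h1.trans (Nat.mul_le_mul_right p hhigh)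
  have hEp : ∀ s ∈ E, p ≤ s + 1 := by
    intro s hs
    obtain ⟨a, ha, hs⟩ := Finset.mem_biUnion.mp hs
    exact (hF a ha).1.1 s hs
  have hS := SB_sqrt Finset.univ v D hv
  have hsum := SB_dyadic _ _ hS (k + 1) p hp E hEp hEc
  have habs : ∀ s, |Real.sqrt (∑ a, v a s ^ 2)| = Real.sqrt (∑ a, v a s ^ 2) :=
    fun s => abs_of_nonneg (Real.sqrt_nonneg _)
  simp only [habs] at hsum
  -- lower bound
  have hlower : (A.card : ℝ) * c ≤ Real.sqrt A.card * ∑ s ∈ E, Real.sqrt (∑ a, v a s ^ 2) := by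
    have h1 : (A.card : ℝ) * c ≤ ∑ a ∈ A, ∑ s ∈ F a, |v a s| := by
      have := Finset.card_nsmul_le_sum A (fun a => ∑ s ∈ F a, |v a s|) c
        (fun a ha => (hF a ha).2)
      simpa [nsmul_eq_mul] using this
    have h2 : ∑ a ∈ A, ∑ s ∈ F a, |v a s| = ∑ s ∈ E, ∑ a ∈ A.filter (fun a => s ∈ F a), |v a s| := by
      have h3 : ∀ a ∈ A, ∑ s ∈ F a, |v a s| = ∑ s ∈ E, if s ∈ F a then |v a s| else 0 := by
        intro a ha
        rw [← Finset.sum_filter]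
        refine Finset.sum_congr ?_ fun _ _ => rfl
        ext s
        simp only [Finset.mem_filter, hE, Finset.mem_biUnion]
        exact ⟨fun h => ⟨⟨a, ha, h⟩, h⟩, fun h => h.2⟩
      rw [Finset.sum_congr rfl h3, Finset.sum_comm]
      exact Finset.sum_congr rfl fun s _ => (Finset.sum_filter _ _).symm
    rw [h2] at h1
    refine h1.trans ?_
    rw [Finset.mul_sum]
    refine Finset.sum_le_sum fun s _ => ?_
    rw [← Real.sqrt_mul (Nat.cast_nonneg _)]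
    refine Real.le_sqrt_of_sq_le ?_
    have h4 := sq_sum_le_card_mul_sum_sq (s := A.filter fun a => s ∈ F a)
      (f := fun a => |v a s|)
    refine h4.trans ?_
    have h5 : ∑ a ∈ A.filter (fun a => s ∈ F a), |v a s| ^ 2 ≤ ∑ a, v a s ^ 2 := by
      simp only [sq_abs]
      exact Finset.sum_le_sum_of_subset_of_nonneg (Finset.subset_univ _) fun _ _ _ => sq_nonneg _
    have h6 : ((A.filter fun a => s ∈ F a).card : ℝ) ≤ A.card := by
      exact_mod_cast Finset.card_filter_le _ _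
    exact mul_le_mul h6 h5 (Finset.sum_nonneg fun _ _ => sq_nonneg _) (Nat.cast_nonneg _)
  have hK : (0 : ℝ) < A.card := by exact_mod_cast Nat.pos_of_ne_zero hA0
  have h7 : (A.card : ℝ) * c ≤ Real.sqrt A.card * (((k + 1 : ℕ) + 1) * (Real.sqrt 3 * D)) :=
    hlower.trans (mul_le_mul_of_nonneg_left hsum (Real.sqrt_nonneg _))
  have h8 : ((A.card : ℝ) * c) ^ 2 ≤
      (Real.sqrt A.card * (((k + 1 : ℕ) + 1) * (Real.sqrt 3 * D))) ^ 2 :=
    pow_le_pow_left₀ (by positivity) h7 2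
  have h9 : (Real.sqrt A.card * (((k + 1 : ℕ) + 1) * (Real.sqrt 3 * D))) ^ 2 =
      A.card * (3 * D ^ 2 * ((k : ℝ) + 2) ^ 2) := by
    push_cast
    rw [mul_pow, Real.sq_sqrt hK.le, mul_pow, mul_pow, Real.sq_sqrt (by norm_num)]
    ring
  rw [h9] at h8
  have h10 : (A.card : ℝ) * c ^ 2 ≤ 3 * D ^ 2 * ((k : ℝ) + 2) ^ 2 := by
    have : (A.card : ℝ) * (A.card * c ^ 2) ≤ A.card * (3 * D ^ 2 * ((k : ℝ) + 2) ^ 2) := by
      calc (A.card : ℝ) * (A.card * c ^ 2) = ((A.card : ℝ) * c) ^ 2 := by ring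
        _ ≤ _ := h8
    exact le_of_mul_le_mul_left this hK
  have h11 := hk0 k hkk
  have h12 : c ^ 2 * 2 ^ k ≤ A.card * c ^ 2 := by
    have : ((2 : ℝ) ^ k) ≤ A.card := by exact_mod_cast hlow
    nlinarith [sq_nonneg c]
  linarith

end Pool.Agent.Comb7f333f.WPart
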