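import Pool.Agent.Lib.MP_7f333f_an.W.Defs

set_option autoImplicit false

/-!
Module A4: two test points.
-/

namespace Pool.Agent.Comb7f333f.WPart

open Filter Topology

/-- Two test points: a vector which is typically captured at `q` is captured at `a` or at `b`. -/
theorem two_points (x : ℕ → ℝ) (C c : ℝ) (N : ℕ) (hC : 0 < C) (hc : 0 < c) (hN : 1 ≤ N)
    (hx : SB x C) (a q b : ℕ) (ha : 1 ≤ a) (haq : a ≤ q) (hqb : q ≤ b)
    (hab : C * b ≤ c ^ 2 / (16 * C) * N * a) (h : TC C c N x q) :
    ∃ F, (PP a F ∨ PP b F) ∧ c / 2 ≤ ∑ s ∈ F, |x s| := by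
  classical
  obtain ⟨F, ⟨hF1, hF2⟩, hF3, hF4⟩ := h
  have hsplit := Finset.sum_filter_add_sum_filter_not F (fun s => b ≤ s + 1) (fun s => |x s|)
  by_cases hbig : c / 2 ≤ ∑ s ∈ F.filter (fun s => b ≤ s + 1), |x s|
  · refine ⟨F.filter (fun s => b ≤ s + 1), Or.inr ⟨?_, ?_⟩, hbig⟩
    · intro k hk
      exact (Finset.mem_filter.1 hk).2
    · exact (Finset.card_filter_le _ _).trans (hF2.trans hqb)
  · push Not at hbig
    set F1 := F.filter (fun s => ¬ b ≤ s + 1) with hF1def
    have hsum1 : c / 2 ≤ ∑ s ∈ F1, |x s| := by linarith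
    refine ⟨F1, Or.inl ⟨?_, ?_⟩, hsum1⟩
    · intro k hk
      exact haq.trans (hF1 k (Finset.mem_filter.1 hk).1)
    · -- the number of elements
      set L : ℝ := c ^ 2 / (16 * C) * N with hL
      have hNpos : (0 : ℝ) < N := by exact_mod_cast hN
      have hLpos : 0 < L := by positivity
      have hbpos : (0 : ℝ) < b := by
        have : 1 ≤ b := ha.trans (haq.trans hqb)
        exact_mod_cast this
      -- `F1` is a Schreier set
      have hsch : F1 ∈ schreier := fun k hk =>
        ((Finset.card_filter_le _ _).trans hF2).trans (hF1 k (Finset.mem_filter.1 hk).1)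
      have hC1 : ∑ s ∈ F1, |x s| ≤ C := hx F1 hsch
      have hlow : ∀ s ∈ F1, L / b ≤ |x s| := by
        intro s hs
        have hs' := Finset.mem_filter.1 hs
        have h1 := hF3 s hs'.1
        have h2 : ((s : ℝ) + 1) ≤ b := by
          have : s + 1 ≤ b := by
            have := hs'.2
            omega
          exact_mod_cast this
        rw [div_le_iff₀ hbpos]
        calc L ≤ ((s : ℝ) + 1) * |x s| := h1
          _ ≤ b * |x s| := by
            exact mul_le_mul_of_nonneg_right h2 (abs_nonneg _)
          _ = |x s| * b := by ring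
      have hcard : (F1.card : ℝ) * (L / b) ≤ C := by
        calc (F1.card : ℝ) * (L / b) = ∑ s ∈ F1, L / b := by simp
          _ ≤ ∑ s ∈ F1, |x s| := Finset.sum_le_sum hlow
          _ ≤ C := hC1
      have h3 : (F1.card : ℝ) * L ≤ C * b := by
        have := mul_le_mul_of_nonneg_right hcard hbpos.le
        calc (F1.card : ℝ) * L = (F1.card : ℝ) * (L / b) * b := by
              field_simp
          _ ≤ C * b := this
      have h4 : (F1.card : ℝ) * L ≤ a * L := by
        calc (F1.card : ℝ) * L ≤ C * b := h3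
          _ ≤ L * a := hab
          _ = a * L := by ring
      have h5 : (F1.card : ℝ) ≤ a := le_of_mul_le_mul_right h4 hLpos
      exact_mod_cast h5

end Pool.Agent.Comb7f333f.WPart
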