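import Pool.Agent.Lib.MP_7f333f_an.W.Defs

set_option autoImplicit false

/-!
Selection of `f` functions which keep the average part of a sum of square functions.
-/

namespace Pool.Agent.Comb7f333f.WPart

/-- Among the numbers `b i`, `i ∈ I`, some `f` of them have at least the average sum. -/
private theorem a6_avg (b : ℕ → ℝ) (f : ℕ) (hf : 1 ≤ f) : ∀ (n : ℕ) (I : Finset ℕ),
    I.card = f + n → ∃ J : Finset ℕ, J ⊆ I ∧ J.card = f ∧
      (f : ℝ) * ∑ i ∈ I, b i ≤ I.card * ∑ i ∈ J, b i := by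
  intro n
  induction n with
  | zero =>
    intro I hI
    exact ⟨I, Finset.Subset.refl I, by simpa using hI, by rw [hI]; simp⟩
  | succ n ih =>
    intro I hI
    have hne : I.Nonempty := by
      rw [← Finset.card_pos]
      omega
    obtain ⟨i, hi, hmin⟩ := Finset.exists_min_image I b hne
    have hcard : (I.erase i).card = f + n := by
      rw [Finset.card_erase_of_mem hi]
      omega
    obtain ⟨J, hJ, hJf, hJs⟩ := ih (I.erase i) hcard
    refine ⟨J, hJ.trans (Finset.erase_subset i I), hJf, ?_⟩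
    have hsum : ∑ j ∈ I.erase i, b j + b i = ∑ j ∈ I, b j := Finset.sum_erase_add I b hi
    have hmin' : (I.card : ℝ) * b i ≤ ∑ j ∈ I, b j := by
      have := Finset.card_nsmul_le_sum I b (b i) hmin
      simpa [nsmul_eq_mul] using this
    rw [hcard] at hJs
    rw [hI] at hmin' ⊢
    push_cast at hJs hmin' ⊢
    have hf1 : (1 : ℝ) ≤ f := by exact_mod_cast hf
    have hn0 : (0 : ℝ) ≤ n := Nat.cast_nonneg n
    have hpos : (0 : ℝ) < f + n := by linarith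
    have h1 : ((f : ℝ) + n) * ∑ j ∈ I, b j ≤ ((f : ℝ) + (n + 1)) * ∑ j ∈ I.erase i, b j := by
      nlinarith
    have h2 : ((f : ℝ) + n) * ((f : ℝ) * ∑ j ∈ I, b j) ≤
        ((f : ℝ) + n) * (((f : ℝ) + (n + 1)) * ∑ j ∈ J, b j) := by
      calc ((f : ℝ) + n) * ((f : ℝ) * ∑ j ∈ I, b j)
          = (f : ℝ) * (((f : ℝ) + n) * ∑ j ∈ I, b j) := by ring
        _ ≤ (f : ℝ) * (((f : ℝ) + (n + 1)) * ∑ j ∈ I.erase i, b j) := by
            exact mul_le_mul_of_nonneg_left h1 (by linarith)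
        _ = ((f : ℝ) + (n + 1)) * ((f : ℝ) * ∑ j ∈ I.erase i, b j) := by ring
        _ ≤ ((f : ℝ) + (n + 1)) * (((f : ℝ) + n) * ∑ j ∈ J, b j) := by
            exact mul_le_mul_of_nonneg_left hJs (by linarith)
        _ = ((f : ℝ) + n) * (((f : ℝ) + (n + 1)) * ∑ j ∈ J, b j) := by ring
    exact le_of_mul_le_mul_left h2 hpos

theorem selection_sqrt (I S : Finset ℕ) (a : ℕ → ℕ → ℝ) (ha : ∀ i s, 0 ≤ a i s) (f : ℕ)
    (hf : 1 ≤ f) (hf' : f ≤ I.card) : ∃ J : Finset ℕ, J ⊆ I ∧ J.card = f ∧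
      (f : ℝ) / I.card * ∑ s ∈ S, Real.sqrt (∑ i ∈ I, a i s) ≤
        ∑ s ∈ S, Real.sqrt (∑ i ∈ J, a i s) := by
  obtain ⟨J, hJ, hJf, hJs⟩ := a6_avg
    (fun i => ∑ s ∈ S, a i s / Real.sqrt (∑ i' ∈ I, a i' s)) f hf (I.card - f) I (by omega)
  refine ⟨J, hJ, hJf, ?_⟩
  have hI : (0 : ℝ) < I.card := by
    have : 0 < I.card := by omega
    exact_mod_cast this
  have e1 : ∑ i ∈ I, ∑ s ∈ S, a i s / Real.sqrt (∑ i' ∈ I, a i' s) =
      ∑ s ∈ S, Real.sqrt (∑ i ∈ I, a i s) := by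
    rw [Finset.sum_comm]
    refine Finset.sum_congr rfl fun s _ => ?_
    rw [← Finset.sum_div, Real.div_sqrt]
  have e2 : ∑ i ∈ J, ∑ s ∈ S, a i s / Real.sqrt (∑ i' ∈ I, a i' s) ≤
      ∑ s ∈ S, Real.sqrt (∑ i ∈ J, a i s) := by
    rw [Finset.sum_comm]
    refine Finset.sum_le_sum fun s _ => ?_
    rw [← Finset.sum_div]
    have h0 : 0 ≤ ∑ i ∈ J, a i s := Finset.sum_nonneg fun i _ => ha i s
    have hle : ∑ i ∈ J, a i s ≤ ∑ i ∈ I, a i s :=
      Finset.sum_le_sum_of_subset_of_nonneg hJ fun i _ _ => ha i s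
    rcases h0.eq_or_lt with h | h
    · rw [← h]
      simp
    · rw [div_le_iff₀ (Real.sqrt_pos.mpr (h.trans_le hle))]
      calc ∑ i ∈ J, a i s = Real.sqrt (∑ i ∈ J, a i s) * Real.sqrt (∑ i ∈ J, a i s) :=
            (Real.mul_self_sqrt h0).symm
        _ ≤ Real.sqrt (∑ i ∈ J, a i s) * Real.sqrt (∑ i ∈ I, a i s) :=
            mul_le_mul_of_nonneg_left (Real.sqrt_le_sqrt hle) (Real.sqrt_nonneg _)
  rw [e1] at hJs
  rw [div_mul_eq_mul_div, div_le_iff₀ hI]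
  calc (f : ℝ) * ∑ s ∈ S, Real.sqrt (∑ i ∈ I, a i s)
      ≤ I.card * ∑ i ∈ J, ∑ s ∈ S, a i s / Real.sqrt (∑ i' ∈ I, a i' s) := hJs
    _ ≤ I.card * ∑ s ∈ S, Real.sqrt (∑ i ∈ J, a i s) := mul_le_mul_of_nonneg_left e2 hI.le
    _ = (∑ s ∈ S, Real.sqrt (∑ i ∈ J, a i s)) * I.card := mul_comm _ _

end Pool.Agent.Comb7f333f.WPart
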