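import Pool.Agent.Lib.MP_7f333f_an.W.Defs
import Pool.Agent.Lib.MP_7f333f_an.W.A6

set_option autoImplicit false

/-!
Module A5: typical positions, the block lemma.
-/

namespace Pool.Agent.Comb7f333f.WPart

private theorem a5_sqrt_add (a b : ℝ) (ha : 0 ≤ a) (hb : 0 ≤ b) :
    Real.sqrt (a + b) ≤ Real.sqrt a + Real.sqrt b := by
  rw [Real.sqrt_le_left (by positivity)]
  have h1 := Real.mul_self_sqrt ha
  have h2 := Real.mul_self_sqrt hb
  have h3 : 0 ≤ Real.sqrt a * Real.sqrt b := by positivity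
  nlinarith

open scoped Classical in
private theorem a5_split (I F : Finset ℕ) (x : ℕ → ℕ → ℝ) (Q Q0 Qa Qb : ℕ → ℕ → Prop)
    (h : ∀ s ∈ F, ∀ i ∈ I, Q s i → Q0 s i ∨ Qa s i ∨ Qb s i) :
    ∑ s ∈ F, Real.sqrt (∑ i ∈ I.filter (fun i => Q s i), x i s ^ 2) ≤
      ∑ s ∈ F, Real.sqrt (∑ i ∈ I.filter (fun i => Q0 s i), x i s ^ 2) +
      ∑ s ∈ F, Real.sqrt (∑ i ∈ I.filter (fun i => Qa s i), x i s ^ 2) +
      ∑ s ∈ F, Real.sqrt (∑ i ∈ I.filter (fun i => Qb s i), x i s ^ 2) := by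
  rw [← Finset.sum_add_distrib, ← Finset.sum_add_distrib]
  refine Finset.sum_le_sum fun s hs => ?_
  have e : ∀ P : ℕ → Prop, 0 ≤ ∑ i ∈ I.filter P, x i s ^ 2 := fun P =>
    Finset.sum_nonneg fun i _ => sq_nonneg _
  refine (Real.sqrt_le_sqrt ?_).trans
    ((a5_sqrt_add (∑ i ∈ I.filter (fun i => Q0 s i), x i s ^ 2 +
      ∑ i ∈ I.filter (fun i => Qa s i), x i s ^ 2)
      (∑ i ∈ I.filter (fun i => Qb s i), x i s ^ 2) (add_nonneg (e _) (e _)) (e _)).trans
      (add_le_add_left (a5_sqrt_add _ _ (e _) (e _)) _))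
  simp only [Finset.sum_filter]
  rw [← Finset.sum_add_distrib, ← Finset.sum_add_distrib]
  refine Finset.sum_le_sum fun i hi => ?_
  have h0 := sq_nonneg (x i s)
  by_cases hq : Q s i
  · rcases h s hs i hi hq with h1 | h1 | h1 <;> simp only [hq, h1, if_true] <;>
      split_ifs <;> linarith
  · simp only [hq, if_false]
    split_ifs <;> linarith

open scoped Classical in
private theorem a5_zero (I F : Finset ℕ) (x : ℕ → ℕ → ℝ) (C v : ℝ) (q : ℕ) (hC : 0 ≤ C)
    (hv : 0 ≤ v) (hx : ∀ i ∈ I, ∑ s ∈ F, |x i s| ≤ C) (hF : F.card ≤ q)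
    (Q : ℕ → ℕ → Prop) (hQ : ∀ s ∈ F, ∀ i ∈ I, Q s i → |x i s| ≤ v) :
    ∑ s ∈ F, Real.sqrt (∑ i ∈ I.filter (fun i => Q s i), x i s ^ 2) ≤
      Real.sqrt (q * (v * (I.card * C))) := by
  apply Real.le_sqrt_of_sq_le
  refine sq_sum_le_card_mul_sum_sq.trans ?_
  have h1 : ∑ s ∈ F, Real.sqrt (∑ i ∈ I.filter (fun i => Q s i), x i s ^ 2) ^ 2 ≤
      v * (I.card * C) := by
    calc ∑ s ∈ F, Real.sqrt (∑ i ∈ I.filter (fun i => Q s i), x i s ^ 2) ^ 2
        = ∑ s ∈ F, ∑ i ∈ I.filter (fun i => Q s i), x i s ^ 2 := by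
          refine Finset.sum_congr rfl fun s _ => Real.sq_sqrt ?_
          exact Finset.sum_nonneg fun i _ => sq_nonneg _
      _ ≤ ∑ s ∈ F, ∑ i ∈ I, v * |x i s| := by
          refine Finset.sum_le_sum fun s hs => ?_
          rw [Finset.sum_filter]
          refine Finset.sum_le_sum fun i hi => ?_
          split_ifs with hq
          · rw [← sq_abs, sq]
            exact mul_le_mul_of_nonneg_right (hQ s hs i hi hq) (abs_nonneg _)
          · positivity
      _ = ∑ i ∈ I, v * ∑ s ∈ F, |x i s| := by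
          rw [Finset.sum_comm]
          refine Finset.sum_congr rfl fun i _ => ?_
          rw [Finset.mul_sum]
      _ ≤ ∑ i ∈ I, v * C := Finset.sum_le_sum fun i hi =>
          mul_le_mul_of_nonneg_left (hx i hi) hv
      _ = v * (I.card * C) := by
          rw [Finset.sum_const, nsmul_eq_mul]; ring
  have h2 : (F.card : ℝ) ≤ q := by exact_mod_cast hF
  have h3 : 0 ≤ v * (I.card * C) := by positivity
  calc (F.card : ℝ) * ∑ s ∈ F, Real.sqrt (∑ i ∈ I.filter (fun i => Q s i), x i s ^ 2) ^ 2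
      ≤ F.card * (v * (I.card * C)) := mul_le_mul_of_nonneg_left h1 (Nat.cast_nonneg _)
    _ ≤ q * (v * (I.card * C)) := mul_le_mul_of_nonneg_right h2 h3

open scoped Classical in
private theorem a5_fc (I F : Finset ℕ) (x : ℕ → ℕ → ℝ) (C c v : ℝ) (r : ℕ)
    (hv : 0 < v) (hx : ∀ i ∈ I, ∑ s ∈ F, |x i s| ≤ C) (Q : ℕ → ℕ → Prop) (f p : ℕ)
    (hf : 1 ≤ f) (hf' : f ≤ I.card) (hQ : ∀ s ∈ F, ∀ i ∈ I, Q s i → p ≤ s + 1 ∧ v ≤ |x i s|)
    (hp : r * C * f ≤ p * v)
    (hm : c / 4 * I.card ≤ ∑ s ∈ F, Real.sqrt (∑ i ∈ I.filter (fun i => Q s i), x i s ^ 2)) :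
    FC r (c / 4) I x p f := by
  obtain ⟨J, hJ, hJc, hsel⟩ := selection_sqrt I F (fun i s => if Q s i then x i s ^ 2 else 0)
    (fun i s => by split_ifs <;> positivity) f hf hf'
  have hI : (0 : ℝ) < I.card := by exact_mod_cast lt_of_lt_of_le hf hf'
  simp only [← Finset.sum_filter] at hsel
  set T := F.filter (fun s => ∃ i ∈ J, Q s i) with hT
  refine ⟨J, hJ, hJc, T, ?_, ?_, ?_⟩
  · intro s hs
    rw [hT, Finset.mem_filter] at hs
    obtain ⟨hs, i, hi, hq⟩ := hs
    exact (hQ s hs i (hJ hi) hq).1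
  · have h1 : (T.card : ℝ) * v ≤ f * C := by
      calc (T.card : ℝ) * v = ∑ s ∈ T, v := by rw [Finset.sum_const, nsmul_eq_mul]
        _ ≤ ∑ s ∈ T, ∑ i ∈ J, |x i s| := by
            refine Finset.sum_le_sum fun s hs => ?_
            rw [hT, Finset.mem_filter] at hs
            obtain ⟨hs, i, hi, hq⟩ := hs
            exact (hQ s hs i (hJ hi) hq).2.trans
              (Finset.single_le_sum (f := fun i => |x i s|) (fun i _ => abs_nonneg _) hi)
        _ = ∑ i ∈ J, ∑ s ∈ T, |x i s| := Finset.sum_comm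
        _ ≤ ∑ i ∈ J, ∑ s ∈ F, |x i s| := by
            refine Finset.sum_le_sum fun i _ => ?_
            exact Finset.sum_le_sum_of_subset_of_nonneg (Finset.filter_subset _ _)
              fun s _ _ => abs_nonneg _
        _ ≤ ∑ i ∈ J, C := Finset.sum_le_sum fun i hi => hx i (hJ hi)
        _ = f * C := by rw [Finset.sum_const, nsmul_eq_mul, hJc]
    have h2 : ((r * T.card : ℕ) : ℝ) * v ≤ p * v := by
      push_cast
      calc (r : ℝ) * T.card * v = r * (T.card * v) := by ring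
        _ ≤ r * (f * C) := mul_le_mul_of_nonneg_left h1 (Nat.cast_nonneg _)
        _ = r * C * f := by ring
        _ ≤ p * v := hp
    have h3 := le_of_mul_le_mul_right h2 hv
    exact_mod_cast h3
  · calc c / 4 * f = f / I.card * (c / 4 * I.card) := by field_simp
      _ ≤ f / I.card * ∑ s ∈ F, Real.sqrt (∑ i ∈ I.filter (fun i => Q s i), x i s ^ 2) :=
          mul_le_mul_of_nonneg_left hm (by positivity)
      _ ≤ ∑ s ∈ F, Real.sqrt (∑ i ∈ J.filter (fun i => Q s i), x i s ^ 2) := hsel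
      _ = ∑ s ∈ T, Real.sqrt (∑ i ∈ J.filter (fun i => Q s i), x i s ^ 2) := by
          rw [hT, Finset.sum_filter]
          refine Finset.sum_congr rfl fun s _ => ?_
          split_ifs with h
          · rfl
          · have : J.filter (fun i => Q s i) = ∅ := by
              rw [Finset.filter_eq_empty_iff]
              intro i hi hq
              exact h ⟨i, hi, hq⟩
            rw [this, Finset.sum_empty, Real.sqrt_zero]
      _ ≤ ∑ s ∈ T, Real.sqrt (∑ i ∈ J, x i s ^ 2) := by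
          refine Finset.sum_le_sum fun s _ => Real.sqrt_le_sqrt ?_
          exact Finset.sum_le_sum_of_subset_of_nonneg (Finset.filter_subset _ _)
            fun i _ _ => sq_nonneg _

open scoped Classical in
theorem typ_block (I : Finset ℕ) (x : ℕ → ℕ → ℝ) (C c : ℝ) (hC : 1 ≤ C) (hc : 0 < c)
    (hc1 : c ≤ 1) (r : ℕ) (hr : 1 ≤ r) (hx : ∀ i ∈ I, SB (x i) C) (F : Finset ℕ)
    (hF : F ∈ schreier) :
    ∑ s ∈ F, Real.sqrt (∑ i ∈ I.filter (fun i => ¬ Typ r C c I x i s), x i s ^ 2) ≤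
      c * I.card := by
  rcases F.eq_empty_or_nonempty with rfl | hFne
  · simp only [Finset.sum_empty]; positivity
  rcases I.eq_empty_or_nonempty with rfl | hIne
  · simp
  have hN : (0 : ℝ) < I.card := by exact_mod_cast hIne.card_pos
  have hxF : ∀ i ∈ I, ∑ s ∈ F, |x i s| ≤ C := fun i hi => hx i hi F hF
  obtain ⟨q, hq⟩ : ∃ q, q = F.min' hFne + 1 := ⟨_, rfl⟩
  have hq1 : 1 ≤ q := by omega
  have hqs : ∀ s ∈ F, q ≤ s + 1 := fun s hs => by
    have := F.min'_le s hs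
    omega
  have hFq : F.card ≤ q := by
    rw [hq]
    exact hF _ (F.min'_mem hFne)
  have hq0 : (0 : ℝ) < q := by exact_mod_cast hq1
  have hCp : 0 < C := by linarith
  have hr0 : (1 : ℝ) ≤ r := by exact_mod_cast hr
  obtain ⟨ε, hε⟩ : ∃ ε, ε = c ^ 2 / (16 * C) := ⟨_, rfl⟩
  have hε0 : 0 < ε := by rw [hε]; positivity
  have hε1 : ε ≤ 1 := by
    rw [hε, div_le_one (by positivity)]
    nlinarith
  have hfN : ∀ f : ℕ, (r : ℝ) * C * f ≤ ε * I.card → f ≤ I.card := by
    intro f hf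
    have h1 : (f : ℝ) ≤ I.card := by
      have h2 : (f : ℝ) ≤ r * C * f := by
        have : 1 ≤ (r : ℝ) * C := by nlinarith
        have h3 : (0 : ℝ) ≤ f := Nat.cast_nonneg _
        nlinarith
      nlinarith
    exact_mod_cast h1
  set m : (ℕ → ℕ → Prop) → ℝ := fun Q =>
    ∑ s ∈ F, Real.sqrt (∑ i ∈ I.filter (fun i => Q s i), x i s ^ 2) with hm
  let Q0 : ℕ → ℕ → Prop := fun s i => |x i s| ≤ ε * I.card / q
  let Qa : ℕ → ℕ → Prop := fun s i => ε * I.card / q < |x i s| ∧ ∃ f p : ℕ, 1 ≤ f ∧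
    r * C * f ≤ ε * I.card ∧ p ≤ s + 1 ∧ r * C * f ≤ p * |x i s| ∧ ¬ FC r (c / 4) I x p f ∧ q ≤ p
  let Qb : ℕ → ℕ → Prop := fun s i => ε * I.card / q < |x i s| ∧ ∃ f p : ℕ, 1 ≤ f ∧
    r * C * f ≤ ε * I.card ∧ p ≤ s + 1 ∧ r * C * f ≤ p * |x i s| ∧ ¬ FC r (c / 4) I x p f ∧ p < q
  have hsplit : m (fun s i => ¬ Typ r C c I x i s) ≤ m Q0 + m Qa + m Qb := by
    refine a5_split I F x _ Q0 Qa Qb fun s hs i hi hQ => ?_
    by_cases h0 : |x i s| ≤ ε * I.card / q
    · exact Or.inl h0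
    · push Not at h0
      right
      have h1 : ε * I.card ≤ ((s : ℝ) + 1) * |x i s| := by
        have h2 : (q : ℝ) ≤ s + 1 := by exact_mod_cast hqs s hs
        rw [div_lt_iff₀ hq0] at h0
        nlinarith [abs_nonneg (x i s)]
      rw [Typ, ← hε] at hQ
      push Not at hQ
      obtain ⟨f, p, hf, hf1, hp, hp1, hfc⟩ := hQ h1
      rcases le_or_gt q p with h3 | h3
      · exact Or.inl ⟨h0, f, p, hf, hf1, hp, hp1, hfc, h3⟩
      · exact Or.inr ⟨h0, f, p, hf, hf1, hp, hp1, hfc, h3⟩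
  have hm0 : m Q0 ≤ c / 4 * I.card := by
    have h1 := a5_zero I F x C (ε * I.card / q) q hCp.le (by positivity) hxF hFq Q0
      (fun s hs i hi h => h)
    refine h1.trans ?_
    have h2 : (q : ℝ) * (ε * I.card / q * (I.card * C)) = (c / 4 * I.card) ^ 2 := by
      rw [hε]; field_simp; norm_num
    rw [h2, Real.sqrt_sq (by positivity)]
  have hex : ∀ (Q : ℕ → ℕ → Prop) (g : ℕ × ℕ → ℝ), c / 4 * I.card < m Q →
      ∃ z : ℕ × ℕ, z.1 ∈ F ∧ z.2 ∈ I ∧ Q z.1 z.2 ∧
        ∀ s ∈ F, ∀ i ∈ I, Q s i → g z ≤ g (s, i) := by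
    intro Q g hQ
    by_cases hne : ((F ×ˢ I).filter (fun z => Q z.1 z.2)).Nonempty
    · obtain ⟨z, hz, hmin⟩ := Finset.exists_min_image _ g hne
      rw [Finset.mem_filter, Finset.mem_product] at hz
      refine ⟨z, hz.1.1, hz.1.2, hz.2, fun s hs i hi h => hmin (s, i) ?_⟩
      rw [Finset.mem_filter, Finset.mem_product]
      exact ⟨⟨hs, hi⟩, h⟩
    · exfalso
      rw [Finset.not_nonempty_iff_eq_empty, Finset.filter_eq_empty_iff] at hne
      have h1 : m Q = 0 := by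
        rw [hm]
        refine Finset.sum_eq_zero fun s hs => ?_
        have : I.filter (fun i => Q s i) = ∅ := by
          rw [Finset.filter_eq_empty_iff]
          intro i hi hq
          exact hne (Finset.mk_mem_product hs hi) hq
        rw [this, Finset.sum_empty, Real.sqrt_zero]
      rw [h1] at hQ
      have : 0 < c / 4 * I.card := by positivity
      linarith
  have hma : m Qa ≤ c / 4 * I.card := by
    by_contra hlt
    push Not at hlt
    obtain ⟨z, hz1, hz2, ⟨h0, f, p, hf, hf1, hp, hp1, hfc, hqp⟩, hmin⟩ :=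
      hex Qa (fun z => (z.1 : ℝ)) hlt
    refine hfc (a5_fc I F x C c (ε * I.card / q) r (by positivity) hxF Qa f p hf (hfN f hf1)
      (fun s hs i hi h => ⟨?_, h.1.le⟩) ?_ hlt.le)
    · have h2 := hmin s hs i hi h
      simp only at h2
      have h3 : z.1 ≤ s := by exact_mod_cast h2
      omega
    · have h3 : (q : ℝ) ≤ p := by exact_mod_cast hqp
      have h4 : (q : ℝ) * (ε * I.card / q) = ε * I.card := by field_simp
      have h5 : (q : ℝ) * (ε * I.card / q) ≤ p * (ε * I.card / q) :=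
        mul_le_mul_of_nonneg_right h3 (by positivity)
      linarith
  have hmb : m Qb ≤ c / 4 * I.card := by
    by_contra hlt
    push Not at hlt
    obtain ⟨z, hz1, hz2, ⟨h0, f, p, hf, hf1, hp, hp1, hfc, hqp⟩, hmin⟩ :=
      hex Qb (fun z => |x z.2 z.1|) hlt
    have hpos : 0 < |x z.2 z.1| := lt_of_le_of_lt (by positivity) h0
    refine hfc (a5_fc I F x C c (|x z.2 z.1|) r hpos hxF Qb f p hf (hfN f hf1)
      (fun s hs i hi h => ⟨?_, hmin s hs i hi h⟩) hp1 hlt.le)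
    have h2 := hqs s hs
    omega
  have hfin : m (fun s i => ¬ Typ r C c I x i s) ≤ c * I.card := by
    have : 0 < c / 4 * I.card := by positivity
    linarith
  convert hfin

end Pool.Agent.Comb7f333f.WPart
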