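import Pool.Agent.Lib.MP_7f333f_an.W.Defs

set_option autoImplicit false

/-!
Duality between the square functions of two families.
-/

namespace Pool.Agent.Comb7f333f.WPart

theorem duality {ι : Type*} (I : Finset ι) (φ y : ι → ℕ → ℝ) (Z : ℕ) (B₁ B' : ℝ)
    (hφ : ∀ (z : ℕ → ℝ) (B : ℝ), (∀ s, 0 ≤ z s) → SB z B →
      ∑ s ∈ Finset.range Z, Real.sqrt (∑ i ∈ I, φ i s ^ 2) * z s ≤ B₁ * B)
    (hy : ∀ F : Finset ℕ, F ⊆ Finset.range Z → F ∈ schreier →
      ∑ s ∈ F, Real.sqrt (∑ i ∈ I, y i s ^ 2) ≤ B') :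
    ∑ i ∈ I, ∑ s ∈ Finset.range Z, |φ i s| * |y i s| ≤ B₁ * B' := by
  classical
  set z : ℕ → ℝ := fun s => if s < Z then Real.sqrt (∑ i ∈ I, y i s ^ 2) else 0 with hz
  have hz0 : ∀ s, 0 ≤ z s := by
    intro s
    simp only [hz]
    split_ifs
    · exact Real.sqrt_nonneg _
    · exact le_refl _
  have hSB : SB z B' := by
    intro F hF
    have h1 : ∑ k ∈ F, |z k| = ∑ k ∈ F.filter (fun s => s < Z), Real.sqrt (∑ i ∈ I, y i k ^ 2) := by
      rw [Finset.sum_filter]
      refine Finset.sum_congr rfl fun k _ => ?_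
      rw [abs_of_nonneg (hz0 k)]
    rw [h1]
    refine hy _ ?_ ?_
    · intro s hs
      rw [Finset.mem_range]
      exact (Finset.mem_filter.1 hs).2
    · intro k hk
      exact (Finset.card_le_card (Finset.filter_subset _ _)).trans
        (hF k (Finset.filter_subset _ _ hk))
  have h2 := hφ z B' hz0 hSB
  refine le_trans ?_ h2
  rw [Finset.sum_comm]
  refine Finset.sum_le_sum fun s hs => ?_
  have h3 : z s = Real.sqrt (∑ i ∈ I, y i s ^ 2) := by
    simp only [hz]
    rw [if_pos (Finset.mem_range.1 hs)]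
  rw [h3]
  have h4 := Real.sum_mul_le_sqrt_mul_sqrt I (fun i => |φ i s|) (fun i => |y i s|)
  simpa only [sq_abs] using h4

end Pool.Agent.Comb7f333f.WPart
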