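import Pool.Agent.Lib.MP_7f333f_an.W.Api
import Pool.Agent.Lib.MP_7f333f_an.W.B0
import Pool.Agent.Lib.MP_7f333f_an.Neg.Signs

set_option autoImplicit false
set_option linter.unusedSectionVars false

/-!
Module B1 of part (W): the rows of a bounded operator on the Schreier space are small on the flat
vectors.
-/

namespace Pool.Agent.Comb7f333f.WPart

open Filter Topology

section Space

variable {X : Type*} [NormedAddCommGroup X] [NormedSpace ℝ X] {e : ℕ → X}

variable (hX : IsCombSpace schreier e)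

include hX

/-- The rows beyond `m0` are small on the first `Z` basis vectors. -/
theorem b1_head (T : X →L[ℝ] X) (Z : ℕ) (δ : ℝ) (hδ : 0 < δ) :
    ∃ m0 : ℕ, ∀ m ≥ m0, ∑ s ∈ Finset.range Z, |co e (T (e s)) m| ≤ δ := by
  have h1 : Tendsto (fun m => ∑ s ∈ Finset.range Z, |co e (T (e s)) m|) atTop (𝓝 0) := by
    have h2 : Tendsto (fun m => ∑ s ∈ Finset.range Z, |co e (T (e s)) m|) atTop
        (𝓝 (∑ s ∈ Finset.range Z, |(0 : ℝ)|)) :=
      tendsto_finsetSum _ fun s _ => (tendsto_co hX (T (e s))).abs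
    simpa using h2
  exact eventually_atTop.mp ((h1.eventually (gt_mem_nhds hδ)).mono fun _ h => le_of_lt h)

/-- One step: a block of a bad flat vector. -/
theorem b1_step (C : ℝ) (hC : 1 ≤ C) (T : X →L[ℝ] X) (hT : ∀ x, ‖T x‖ ≤ C * ‖x‖) (ε : ℝ)
    (hε : 0 < ε)
    (hcon : ∀ θ : ℝ, 0 < θ → ∀ m0 : ℕ, ∃ m ≥ m0, ∃ y : X, ‖y‖ ≤ 1 ∧
      (∀ s, |co e y s| ≤ θ) ∧ ε < |co e (T y) m|) (t Z m1 : ℕ) :
    ∃ (m Z' : ℕ) (y : X), m1 ≤ m ∧ Z ≤ Z' ∧ ‖y‖ ≤ 1 ∧
      (∀ s, co e y s ≠ 0 → Z ≤ s ∧ s < Z') ∧ (∀ s, (Z : ℝ) * |co e y s| ≤ 1 / 2 ^ t) ∧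
      ε / 2 ≤ |co e (T y) m| := by
  obtain ⟨m0, hm0⟩ := b1_head hX T Z (ε / 4) (by positivity)
  have hθ : (0 : ℝ) < 1 / 2 ^ t / ((Z : ℝ) + 1) := by positivity
  obtain ⟨m, hm, y, hy1, hy2, hy3⟩ := hcon _ hθ (max m0 m1)
  obtain ⟨Z0, hZ0⟩ := exists_tr hX y (ε / (4 * C)) (by positivity)
  set Z' := max Z Z0 with hZ'
  have hsplit : Finset.range Z' = Finset.range Z ∪ Finset.Ico Z Z' := by
    ext k
    simp only [Finset.mem_range, Finset.mem_union, Finset.mem_Ico]
    have : Z ≤ Z' := le_max_left _ _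
    omega
  have hdisj : Disjoint (Finset.range Z) (Finset.Ico Z Z') := by
    rw [Finset.disjoint_left]
    intro k hk hk'
    rw [Finset.mem_range] at hk
    rw [Finset.mem_Ico] at hk'
    omega
  refine ⟨m, Z', vec e (Finset.Ico Z Z') (co e y), le_trans (le_max_right _ _) hm,
    le_max_left _ _, (norm_tr_le hX y _).trans hy1, fun s hs => ?_, fun s => ?_, ?_⟩
  · rw [co_vec hX] at hs
    by_cases h : s ∈ Finset.Ico Z Z'
    · exact Finset.mem_Ico.mp h
    · rw [if_neg h] at hs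
      exact absurd rfl hs
  · rw [co_vec hX]
    have h1 : |if s ∈ Finset.Ico Z Z' then co e y s else 0| ≤ 1 / 2 ^ t / ((Z : ℝ) + 1) := by
      split_ifs
      · exact hy2 s
      · rw [abs_zero]
        exact hθ.le
    calc (Z : ℝ) * |if s ∈ Finset.Ico Z Z' then co e y s else 0|
        ≤ ((Z : ℝ) + 1) * (1 / 2 ^ t / ((Z : ℝ) + 1)) :=
          mul_le_mul (by linarith) h1 (abs_nonneg _) (by positivity)
      _ = 1 / 2 ^ t := by field_simp
  · have h1 : y = (y - vec e (Finset.range Z') (co e y)) + vec e (Finset.range Z) (co e y) +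
        vec e (Finset.Ico Z Z') (co e y) := by
      have : vec e (Finset.range Z') (co e y) = vec e (Finset.range Z) (co e y) +
          vec e (Finset.Ico Z Z') (co e y) := by
        rw [vec, hsplit, Finset.sum_union hdisj]
        rfl
      rw [this]
      abel
    have h2 : co e (T y) m = co e (T (y - vec e (Finset.range Z') (co e y))) m +
        co e (T (vec e (Finset.range Z) (co e y))) m +
        co e (T (vec e (Finset.Ico Z Z') (co e y))) m := by
      rw [← co_add, ← co_add, ← map_add, ← map_add, ← h1]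
    have h3 : |co e (T (y - vec e (Finset.range Z') (co e y))) m| ≤ ε / 4 := by
      refine (abs_co_le hX _ m).trans ((hT _).trans ?_)
      have := hZ0 (Finset.range Z') fun k hk => Finset.mem_range.mpr
        (lt_of_lt_of_le hk (le_max_right _ _))
      calc C * ‖y - vec e (Finset.range Z') (co e y)‖ ≤ C * (ε / (4 * C)) :=
            mul_le_mul_of_nonneg_left this (by linarith)
        _ = ε / 4 := by field_simp
    have h4 : |co e (T (vec e (Finset.range Z) (co e y))) m| ≤ ε / 4 := by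
      rw [map_vec]
      refine (Finset.abs_sum_le_sum_abs _ _).trans (le_trans ?_
        (hm0 m (le_trans (le_max_left _ _) hm)))
      refine Finset.sum_le_sum fun k _ => ?_
      rw [abs_mul]
      have : |co e y k| ≤ 1 := (abs_co_le hX y k).trans hy1
      calc |co e y k| * |co e (T (e k)) m| ≤ 1 * |co e (T (e k)) m| :=
            mul_le_mul_of_nonneg_right this (abs_nonneg _)
        _ = _ := one_mul _
    have h5 := abs_add_le (co e (T (y - vec e (Finset.range Z') (co e y))) m +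
        co e (T (vec e (Finset.range Z) (co e y))) m)
      (co e (T (vec e (Finset.Ico Z Z') (co e y))) m)
    have h6 := abs_add_le (co e (T (y - vec e (Finset.range Z') (co e y))) m)
      (co e (T (vec e (Finset.range Z) (co e y))) m)
    rw [← h2] at h5
    linarith

theorem flat_rows (C : ℝ) (hC : 1 ≤ C) (T : X →L[ℝ] X) (hT : ∀ x, ‖T x‖ ≤ C * ‖x‖) (ε : ℝ)
    (hε : 0 < ε) : ∃ θ : ℝ, 0 < θ ∧ ∃ m0 : ℕ, ∀ m ≥ m0, ∀ y : X, ‖y‖ ≤ 1 →
      (∀ s, |co e y s| ≤ θ) → |co e (T y) m| ≤ ε := by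
  by_contra hneg
  have hcon : ∀ θ : ℝ, 0 < θ → ∀ m0 : ℕ, ∃ m ≥ m0, ∃ y : X, ‖y‖ ≤ 1 ∧
      (∀ s, |co e y s| ≤ θ) ∧ ε < |co e (T y) m| := by
    intro θ hθ m0
    by_contra h
    refine hneg ⟨θ, hθ, m0, fun m hm y hy1 hy2 => ?_⟩
    by_contra h'
    exact h ⟨m, hm, y, hy1, hy2, lt_of_not_ge h'⟩
  choose fm fZ fy hst using b1_step hX C hC T hT ε hε hcon
  obtain ⟨L, hL⟩ := exists_nat_gt (6 * C / ε)
  let st : ℕ → ℕ × ℕ := fun t => Nat.rec (0, L)
    (fun t p => (fZ t p.1 p.2, fm t p.1 p.2 + 1)) t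
  have hst0 : st 0 = (0, L) := rfl
  have hsts : ∀ t, st (t + 1) = (fZ t (st t).1 (st t).2, fm t (st t).1 (st t).2 + 1) :=
    fun t => rfl
  set Z : ℕ → ℕ := fun t => (st t).1 with hZdef
  set m : ℕ → ℕ := fun t => fm t (st t).1 (st t).2 with hmdef
  set y : ℕ → X := fun t => fy t (st t).1 (st t).2 with hydef
  have hZs : ∀ t, Z (t + 1) = fZ t (st t).1 (st t).2 := fun t => rfl
  have hms : ∀ t, (st (t + 1)).2 = m t + 1 := fun t => rfl
  have hm1 : ∀ t, (st t).2 ≤ m t := fun t => (hst t (st t).1 (st t).2).1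
  have hmono : StrictMono m := strictMono_nat_of_lt_succ fun t => by
    have := hm1 (t + 1)
    rw [hms] at this
    omega
  have hZmono : Monotone Z := monotone_nat_of_le_succ fun t => by
    rw [hZs]
    exact (hst t (st t).1 (st t).2).2.1
  have hmL : ∀ t, L ≤ m t := fun t => by
    have h0 : L ≤ m 0 := hm1 0
    exact h0.trans (hmono.monotone (Nat.zero_le t))
  have hy1 : ∀ t, ‖y t‖ ≤ 1 := fun t => (hst t (st t).1 (st t).2).2.2.1
  have hysupp : ∀ t s, co e (y t) s ≠ 0 → Z t ≤ s ∧ s < Z (t + 1) := fun t =>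
    (hst t (st t).1 (st t).2).2.2.2.1
  have hyflat : ∀ t s, (Z t : ℝ) * |co e (y t) s| ≤ 1 / 2 ^ t := fun t =>
    (hst t (st t).1 (st t).2).2.2.2.2.1
  have hybig : ∀ t, ε / 2 ≤ |co e (T (y t)) (m t)| := fun t =>
    (hst t (st t).1 (st t).2).2.2.2.2.2
  -- the average over the signs
  obtain ⟨θ, hθ, hθ'⟩ := exists_sign_ge L (fun i : Fin L => y i)
    (fun v => ∑ t ∈ Finset.range L, |co e (T v) (m t)|) 0
  have hlow : (L : ℝ) * (ε / 2) ≤ ravg L (fun i : Fin L => y i)
      (fun v => ∑ t ∈ Finset.range L, |co e (T v) (m t)|) 0 := by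
    rw [ravg_sum (Finset.range L) (fun t v => |co e (T v) (m t)|)]
    rw [show (L : ℝ) * (ε / 2) = ∑ _t ∈ Finset.range L, ε / 2 by simp]
    refine Finset.sum_le_sum fun t ht => ?_
    have h1 := ravg_comp (((ef e (m t)).comp T : X →L[ℝ] ℝ) : X →ₗ[ℝ] ℝ) (fun a : ℝ => |a|) L
      (fun i : Fin L => y i) 0
    have h2 : (fun v => |co e (T v) (m t)|) =
        fun v => |(((ef e (m t)).comp T : X →L[ℝ] ℝ) : X →ₗ[ℝ] ℝ) v| := rfl
    rw [h2, h1]
    refine le_trans ?_ (abs_coeff_le_ravg_abs L _ _ ⟨t, Finset.mem_range.mp ht⟩)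
    exact hybig t
  have hSB : SB (co e (0 + ∑ i, θ i • y i)) 3 := by
    rw [zero_add]
    have h1 := SB_blocks L (fun t s => if h : t < L then θ ⟨t, h⟩ * co e (y t) s else 0) Z hZmono
      (fun t ht F hF => ?_) (fun t ht s hs => ?_) (fun t ht s => ?_)
    · refine SB_mono h1 fun k => le_of_eq ?_
      congr 1
      rw [co_sum, Finset.sum_range]
      refine Finset.sum_congr rfl fun i _ => ?_
      rw [co_smul, dif_pos i.2]
    · simp only [dif_pos ht]
      refine le_trans (Finset.sum_le_sum fun k _ => ?_) ((SB_co hX (y t) F hF).trans (hy1 t))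
      rw [abs_mul]
      rcases hθ ⟨t, ht⟩ with h | h <;> rw [h] <;> simp
    · simp only [dif_pos ht] at hs
      exact hysupp t s (right_ne_zero_of_mul hs)
    · simp only [dif_pos ht]
      rw [abs_mul]
      rcases hθ ⟨t, ht⟩ with h | h <;> rw [h] <;> simpa using hyflat t s
  have hnorm := norm_le_of_SB hX hSB
  have hsch : (Finset.range L).image m ∈ schreier := by
    intro k hk
    obtain ⟨t, ht, rfl⟩ := Finset.mem_image.mp hk
    refine Finset.card_image_le.trans ?_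
    rw [Finset.card_range]
    have := hmL t
    omega
  have hup := SB_co hX (T (0 + ∑ i, θ i • y i)) _ hsch
  rw [Finset.sum_image (fun a _ b _ h => hmono.injective h)] at hup
  have hup2 : ‖T (0 + ∑ i, θ i • y i)‖ ≤ C * 3 :=
    (hT _).trans (mul_le_mul_of_nonneg_left hnorm (by linarith))
  have h7 : (L : ℝ) * (ε / 2) ≤ C * 3 := hlow.trans (hθ'.trans (hup.trans hup2))
  have h8 : 6 * C < L * ε := by
    rwa [div_lt_iff₀ hε] at hL
  linarith

end Space

end Pool.Agent.Comb7f333f.WPart
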