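import Pool.Agent.Lib.MP_7f333f_an.W.B1

set_option autoImplicit false
set_option linter.unusedSectionVars false

/-!
Module B2 of part (W): the rows of a bounded operator on the Schreier space are almost finitely
supported.
-/

namespace Pool.Agent.Comb7f333f.WPart

open Filter Topology

section Space

variable {X : Type*} [NormedAddCommGroup X] [NormedSpace ℝ X] {e : ℕ → X}

variable (hX : IsCombSpace schreier e)

include hX

theorem b2_finite_row (T : X →L[ℝ] X) (δ : ℝ) (hδ : 0 < δ) (m : ℕ) :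
    {i : ℕ | δ ≤ |co e (T (e i)) m|}.Finite := by
  have h1 := ((tendsto_row hX T m).abs.eventually
    (gt_mem_nhds (show |(0 : ℝ)| < δ by simpa using hδ)))
  obtain ⟨K, hK⟩ := eventually_atTop.mp h1
  refine (Set.finite_lt_nat K).subset fun i hi => ?_
  by_contra h
  exact absurd (hK i (not_lt.mp h)) (not_lt.mpr hi)

theorem b2_finite_large (x : X) (h : ℝ) (hh : 0 < h) : {i : ℕ | h ≤ |co e x i|}.Finite := by
  have h1 := ((tendsto_co hX x).abs.eventually
    (gt_mem_nhds (show |(0 : ℝ)| < h by simpa using hh)))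
  obtain ⟨K, hK⟩ := eventually_atTop.mp h1
  refine (Set.finite_lt_nat K).subset fun i hi => ?_
  by_contra h
  exact absurd (hK i (not_lt.mp h)) (not_lt.mpr hi)

/-- Few large entries in a row. -/
theorem b2_card (T : X →L[ℝ] X) (δ θ : ℝ) (hδ : 0 < δ) (hθ : 0 < θ) (m : ℕ)
    (hm : ∀ y : X, ‖y‖ ≤ 1 → (∀ s, |co e y s| ≤ θ) → |co e (T y) m| ≤ δ / 2)
    (A : Finset ℕ) (hA : ∀ i ∈ A, δ ≤ |co e (T (e i)) m|) : A.card ≤ ⌈1 / θ⌉₊ := by
  by_contra hlt
  have hlt' : ⌈1 / θ⌉₊ < A.card := not_le.mp hlt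
  have hn : 0 < A.card := by omega
  have hn' : (0 : ℝ) < A.card := by exact_mod_cast hn
  have h1 : 1 / θ < A.card := lt_of_le_of_lt (Nat.le_ceil _) (by exact_mod_cast hlt')
  have h2 : 1 / (A.card : ℝ) ≤ θ := by
    rw [div_lt_iff₀ hθ] at h1
    rw [div_le_iff₀ hn']
    linarith
  set a : ℕ → ℝ := fun i => SignType.sign (co e (T (e i)) m) / A.card with ha
  have habs : ∀ i, |a i| ≤ 1 / A.card := by
    intro i
    rw [ha]
    simp only
    rw [abs_div, Nat.abs_cast]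
    refine div_le_div_of_nonneg_right ?_ hn'.le
    rcases lt_trichotomy (co e (T (e i)) m) 0 with h | h | h
    · rw [sign_neg h]; simp
    · rw [h, sign_zero]; simp
    · rw [sign_pos h]; simp
  have hnorm : ‖vec e A a‖ ≤ 1 := by
    refine norm_le_of_SB hX fun F _ => ?_
    calc ∑ k ∈ F, |co e (vec e A a) k| = ∑ k ∈ F, if k ∈ A then |a k| else 0 := by
          refine Finset.sum_congr rfl fun k _ => ?_
          rw [co_vec hX]
          split_ifs <;> simp
      _ = ∑ k ∈ F ∩ A, |a k| := by rw [Finset.sum_ite_mem]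
      _ ≤ ∑ k ∈ A, |a k| :=
          Finset.sum_le_sum_of_subset_of_nonneg Finset.inter_subset_right
            fun _ _ _ => abs_nonneg _
      _ ≤ ∑ _k ∈ A, 1 / (A.card : ℝ) := Finset.sum_le_sum fun k _ => habs k
      _ = 1 := by rw [Finset.sum_const, nsmul_eq_mul]; field_simp
  have hflat : ∀ s, |co e (vec e A a) s| ≤ θ := by
    intro s
    rw [co_vec hX]
    split_ifs
    · exact (habs s).trans h2
    · rw [abs_zero]; exact hθ.le
  have h3 := hm _ hnorm hflat
  have h4 : δ ≤ co e (T (vec e A a)) m := by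
    rw [map_vec]
    calc δ = ∑ _k ∈ A, δ / A.card := by
          rw [Finset.sum_const, nsmul_eq_mul]; field_simp
      _ ≤ ∑ k ∈ A, a k * co e (T (e k)) m := by
          refine Finset.sum_le_sum fun k hk => ?_
          have h5 : a k * co e (T (e k)) m = |co e (T (e k)) m| / A.card := by
            rw [ha]
            simp only
            rw [div_mul_eq_mul_div, sign_mul_self]
          rw [h5]
          exact div_le_div_of_nonneg_right (hA k hk) hn'.le
  have h5 := le_abs_self (co e (T (vec e A a)) m)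
  linarith

theorem b2_row_unit (T : X →L[ℝ] X) (ε θ δ : ℝ) (hε : 0 < ε) (hθ : 0 < θ)
    (hδ : δ = ε / (2 * ((2 * (⌊1 / θ⌋₊ + 1) : ℕ) : ℝ))) (m : ℕ)
    (hm : ∀ y : X, ‖y‖ ≤ 1 → (∀ s, |co e y s| ≤ θ) → |co e (T y) m| ≤ ε / 2)
    (E : Finset ℕ) (hE : ∀ i, i ∈ E ↔ δ ≤ |co e (T (e i)) m|) (u : X) (hu : ‖u‖ ≤ 1) :
    |co e (T u) m - ∑ i ∈ E, co e (T (e i)) m * co e u i| ≤ ε := by
  have hn1 : (0 : ℝ) < ((2 * (⌊1 / θ⌋₊ + 1) : ℕ) : ℝ) := by
    have : 0 < 2 * (⌊1 / θ⌋₊ + 1) := by omega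
    exact_mod_cast this
  have hδ0 : 0 ≤ δ := by rw [hδ]; positivity
  set v : X := u - vec e E (co e u) with hv
  have hvn : ‖v‖ ≤ 1 := (norm_sub_tr_le hX u E).trans hu
  have h1 : co e (T u) m - ∑ i ∈ E, co e (T (e i)) m * co e u i = co e (T v) m := by
    rw [hv, map_sub, co_sub, map_vec]
    congr 1
    exact Finset.sum_congr rfl fun i _ => mul_comm _ _
  rw [h1]
  have hfin := b2_finite_large hX v θ hθ
  set H : Finset ℕ := hfin.toFinset with hH
  have hHmem : ∀ i, i ∈ H ↔ θ ≤ |co e v i| := by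
    intro i
    rw [hH, Set.Finite.mem_toFinset]
    rfl
  have hHcard : H.card ≤ 2 * (⌊1 / θ⌋₊ + 1) := by
    refine card_large_le (a := co e v) (fun F hF => (SB_co hX v F hF).trans hvn) hθ H
      fun i hi => (hHmem i).mp hi
  have h2 : T v = T (v - vec e H (co e v)) + T (vec e H (co e v)) := by
    rw [← map_add, sub_add_cancel]
  have h3 : |co e (T (v - vec e H (co e v))) m| ≤ ε / 2 := by
    refine hm _ ((norm_sub_tr_le hX v H).trans hvn) fun s => ?_
    rw [co_sub, co_vec hX]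
    by_cases hs : s ∈ H
    · rw [if_pos hs, sub_self, abs_zero]
      exact hθ.le
    · rw [if_neg hs, sub_zero]
      rw [hHmem, not_le] at hs
      exact hs.le
  have h4 : |co e (T (vec e H (co e v))) m| ≤ ε / 2 := by
    rw [map_vec]
    calc |∑ k ∈ H, co e v k * co e (T (e k)) m| ≤ ∑ k ∈ H, |co e v k * co e (T (e k)) m| :=
          Finset.abs_sum_le_sum_abs _ _
      _ ≤ ∑ _k ∈ H, δ := by
          refine Finset.sum_le_sum fun k hk => ?_
          rw [abs_mul]
          have h5 : |co e v k| ≤ 1 := (abs_co_le hX v k).trans hvn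
          have h6 : k ∉ E := by
            intro hkE
            have h7 := (hHmem k).mp hk
            rw [hv, co_sub, co_vec hX, if_pos hkE, sub_self, abs_zero] at h7
            linarith
          rw [hE, not_le] at h6
          calc |co e v k| * |co e (T (e k)) m| ≤ 1 * δ :=
                mul_le_mul h5 h6.le (abs_nonneg _) zero_le_one
            _ = δ := one_mul δ
      _ = H.card * δ := by rw [Finset.sum_const, nsmul_eq_mul]
      _ ≤ ((2 * (⌊1 / θ⌋₊ + 1) : ℕ) : ℝ) * δ :=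
          mul_le_mul_of_nonneg_right (by exact_mod_cast hHcard) hδ0
      _ = ε / 2 := by
          rw [hδ]
          field_simp
  rw [h2, co_add]
  refine (abs_add_le _ _).trans ?_
  linarith

theorem rows (C : ℝ) (hC : 1 ≤ C) (T : X →L[ℝ] X) (hT : ∀ x, ‖T x‖ ≤ C * ‖x‖) (ε : ℝ)
    (hε : 0 < ε) : ∃ (δ : ℝ) (R m0 : ℕ) (E : ℕ → Finset ℕ), 0 < δ ∧
      (∀ m ≥ m0, (∀ i, i ∈ E m ↔ δ ≤ |co e (T (e i)) m|) ∧ (E m).card ≤ R ∧
        ∀ u : X, |co e (T u) m - ∑ i ∈ E m, co e (T (e i)) m * co e u i| ≤ ε * ‖u‖) ∧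
      ∀ K : ℕ, ∃ m1 : ℕ, ∀ m ≥ m1, ∀ i ∈ E m, K ≤ i := by
  obtain ⟨θ1, hθ1, m1, hm1⟩ := flat_rows hX C hC T hT (ε / 2) (by positivity)
  have hn1 : (0 : ℝ) < ((2 * (⌊1 / θ1⌋₊ + 1) : ℕ) : ℝ) := by
    have : 0 < 2 * (⌊1 / θ1⌋₊ + 1) := by omega
    exact_mod_cast this
  set δ : ℝ := ε / (2 * ((2 * (⌊1 / θ1⌋₊ + 1) : ℕ) : ℝ)) with hδ
  have hδ0 : 0 < δ := by rw [hδ]; positivity
  obtain ⟨θ2, hθ2, m2, hm2⟩ := flat_rows hX C hC T hT (δ / 2) (by positivity)
  have hEmem : ∀ m i, i ∈ (b2_finite_row hX T δ hδ0 m).toFinset ↔ δ ≤ |co e (T (e i)) m| := by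
    intro m i
    rw [Set.Finite.mem_toFinset]
    rfl
  refine ⟨δ, ⌈1 / θ2⌉₊, max m1 m2, fun m => (b2_finite_row hX T δ hδ0 m).toFinset, hδ0,
    fun m hm => ⟨hEmem m, ?_, fun u => ?_⟩, fun K => ?_⟩
  · exact b2_card hX T δ θ2 hδ0 hθ2 m (hm2 m (le_trans (le_max_right _ _) hm)) _
      fun i hi => (hEmem m i).mp hi
  · rcases eq_or_ne u 0 with rfl | hu
    · simp [co]
    · have hu' : 0 < ‖u‖ := norm_pos_iff.mpr hu
      have h1 := b2_row_unit hX T ε θ1 δ hε hθ1 hδ m (hm1 m (le_trans (le_max_left _ _) hm)) _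
        (hEmem m) (‖u‖⁻¹ • u) (by rw [norm_smul, norm_inv, norm_norm, inv_mul_cancel₀ hu'.ne'])
      rw [map_smul, co_smul] at h1
      have h2 : ∑ i ∈ (b2_finite_row hX T δ hδ0 m).toFinset,
          co e (T (e i)) m * co e (‖u‖⁻¹ • u) i =
          ‖u‖⁻¹ * ∑ i ∈ (b2_finite_row hX T δ hδ0 m).toFinset,
            co e (T (e i)) m * co e u i := by
        rw [Finset.mul_sum]
        refine Finset.sum_congr rfl fun i _ => ?_
        rw [co_smul]
        ring
      rw [h2, ← mul_sub, abs_mul, abs_of_pos (inv_pos.mpr hu'), inv_mul_le_iff₀ hu'] at h1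
      linarith
  · obtain ⟨m3, hm3⟩ := b1_head hX T K (δ / 2) (by positivity)
    refine ⟨m3, fun m hm i hi => ?_⟩
    by_contra hlt
    have h1 := (hEmem m i).mp hi
    have h2 := hm3 m hm
    have h3 : |co e (T (e i)) m| ≤ ∑ s ∈ Finset.range K, |co e (T (e s)) m| :=
      Finset.single_le_sum (f := fun s => |co e (T (e s)) m|) (fun _ _ => abs_nonneg _)
        (Finset.mem_range.mpr (not_le.mp hlt))
    linarith

end Space

end Pool.Agent.Comb7f333f.WPart
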