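import Pool.Agent.Lib.MP_7f333f_an.W.B2

set_option autoImplicit false
set_option linter.unusedSectionVars false

/-!
Pairs with large entries on the diagonal of a product `T S = 1`.
-/

namespace Pool.Agent.Comb7f333f.WPart

open Filter Topology

section Space

variable {X : Type*} [NormedAddCommGroup X] [NormedSpace ℝ X] {e : ℕ → X}

variable (hX : IsCombSpace schreier e)

include hX

/-- B3a: pairs with large entries -/
theorem diag_pairs (C : ℝ) (hC : 1 ≤ C) (T S : X →L[ℝ] X) (hT : ∀ x, ‖T x‖ ≤ C * ‖x‖)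
    (hS : ∀ x, ‖S x‖ ≤ C * ‖x‖) (hTS : ∀ x, T (S x) = x) :
    ∃ (δ : ℝ) (m1 : ℕ) (P : ℕ → Finset ℕ), 0 < δ ∧ ∀ m ≥ m1,
      1 / (4 * C) ≤ ∑ i ∈ P m, |co e (S (e m)) i| ∧
      ∀ i ∈ P m, 1 / (4 * C) ≤ |co e (T (e i)) m| ∧ δ ≤ |co e (S (e m)) i| := by
  classical
  have hC0 : 0 < C := by linarith
  obtain ⟨δ, R, m0, E, hδ, h1, h2⟩ := rows hX C hC T hT (1 / (4 * C)) (by positivity)
  obtain ⟨m2, hm2⟩ := h2 R
  set δ2 : ℝ := 1 / (4 * (R + 1) * C) with hδ2
  have hR : (0 : ℝ) ≤ R := Nat.cast_nonneg R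
  have hδ2pos : 0 < δ2 := by positivity
  refine ⟨δ2, max m0 m2, fun m => (E m).filter fun i =>
    1 / (4 * C) ≤ |co e (T (e i)) m| ∧ δ2 ≤ |co e (S (e m)) i|, hδ2pos, fun m hm => ⟨?_, ?_⟩⟩
  · obtain ⟨h3, h4, h5⟩ := h1 m ((le_max_left _ _).trans hm)
    have h6 := hm2 m ((le_max_right _ _).trans hm)
    have hSn : ‖S (e m)‖ ≤ C := (hS (e m)).trans
      ((mul_le_mul_of_nonneg_left (norm_e_le hX m) hC0.le).trans_eq (mul_one C))
    have hTn : ∀ i, |co e (T (e i)) m| ≤ C := fun i =>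
      (abs_co_le hX _ m).trans ((hT (e i)).trans
        ((mul_le_mul_of_nonneg_left (norm_e_le hX i) hC0.le).trans_eq (mul_one C)))
    have hES : E m ∈ schreier := by
      intro i hi
      have := h6 i hi
      omega
    have hsumS : ∑ i ∈ E m, |co e (S (e m)) i| ≤ C := (SB_co hX _ _ hES).trans hSn
    have h7 := h5 (S (e m))
    rw [hTS, co_basis hX, if_pos rfl] at h7
    have h8 : 1 / (4 * C) * ‖S (e m)‖ ≤ 1 / 4 := by
      calc 1 / (4 * C) * ‖S (e m)‖ ≤ 1 / (4 * C) * C :=
            mul_le_mul_of_nonneg_left hSn (by positivity)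
        _ = 1 / 4 := by field_simp
    have h9 : 3 / 4 ≤ ∑ i ∈ E m, |co e (T (e i)) m| * |co e (S (e m)) i| := by
      have h10 : ∑ i ∈ E m, co e (T (e i)) m * co e (S (e m)) i ≤
          ∑ i ∈ E m, |co e (T (e i)) m| * |co e (S (e m)) i| := by
        refine Finset.sum_le_sum fun i _ => ?_
        rw [← abs_mul]
        exact le_abs_self _
      have h11 := (abs_le.mp (h7.trans h8)).2
      linarith
    rw [← Finset.sum_filter_add_sum_filter_not (E m) (fun i =>
      1 / (4 * C) ≤ |co e (T (e i)) m| ∧ δ2 ≤ |co e (S (e m)) i|)] at h9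
    have h10 : ∑ i ∈ (E m).filter (fun i => ¬ (1 / (4 * C) ≤ |co e (T (e i)) m| ∧
        δ2 ≤ |co e (S (e m)) i|)), |co e (T (e i)) m| * |co e (S (e m)) i| ≤ 1 / 2 := by
      have h11 : ∀ i ∈ (E m).filter (fun i => ¬ (1 / (4 * C) ≤ |co e (T (e i)) m| ∧
          δ2 ≤ |co e (S (e m)) i|)), |co e (T (e i)) m| * |co e (S (e m)) i| ≤
          1 / (4 * C) * |co e (S (e m)) i| + C * δ2 := by
        intro i hi
        rw [Finset.mem_filter] at hi
        have h12 := abs_nonneg (co e (S (e m)) i)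
        have h13 := abs_nonneg (co e (T (e i)) m)
        by_cases h14 : 1 / (4 * C) ≤ |co e (T (e i)) m|
        · have h15 : |co e (S (e m)) i| ≤ δ2 := by
            by_contra h16
            push Not at h16
            exact hi.2 ⟨h14, h16.le⟩
          have h16 : |co e (T (e i)) m| * |co e (S (e m)) i| ≤ C * δ2 :=
            mul_le_mul (hTn i) h15 h12 hC0.le
          have h17 : 0 ≤ 1 / (4 * C) * |co e (S (e m)) i| := by positivity
          linarith
        · push Not at h14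
          have h15 : |co e (T (e i)) m| * |co e (S (e m)) i| ≤
              1 / (4 * C) * |co e (S (e m)) i| := mul_le_mul_of_nonneg_right h14.le h12
          have h16 : 0 ≤ C * δ2 := by positivity
          linarith
      refine (Finset.sum_le_sum h11).trans ?_
      have h12 : ∑ i ∈ (E m).filter (fun i => ¬ (1 / (4 * C) ≤ |co e (T (e i)) m| ∧
          δ2 ≤ |co e (S (e m)) i|)), (1 / (4 * C) * |co e (S (e m)) i| + C * δ2) ≤
          ∑ i ∈ E m, (1 / (4 * C) * |co e (S (e m)) i| + C * δ2) :=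
        Finset.sum_le_sum_of_subset_of_nonneg (Finset.filter_subset _ _) fun i _ _ => by
          positivity
      refine h12.trans ?_
      rw [Finset.sum_add_distrib, ← Finset.mul_sum, Finset.sum_const, nsmul_eq_mul]
      have h13 : 1 / (4 * C) * ∑ i ∈ E m, |co e (S (e m)) i| ≤ 1 / 4 := by
        calc 1 / (4 * C) * ∑ i ∈ E m, |co e (S (e m)) i| ≤ 1 / (4 * C) * C :=
              mul_le_mul_of_nonneg_left hsumS (by positivity)
          _ = 1 / 4 := by field_simp
      have h14 : ((E m).card : ℝ) * (C * δ2) ≤ 1 / 4 := by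
        have h15 : ((E m).card : ℝ) ≤ R + 1 := by
          have : ((E m).card : ℝ) ≤ R := by exact_mod_cast h4
          linarith
        calc ((E m).card : ℝ) * (C * δ2) ≤ (R + 1) * (C * δ2) :=
              mul_le_mul_of_nonneg_right h15 (by positivity)
          _ = 1 / 4 := by rw [hδ2]; field_simp
      linarith
    have h11 : 1 / 4 ≤ ∑ i ∈ (E m).filter (fun i => 1 / (4 * C) ≤ |co e (T (e i)) m| ∧
        δ2 ≤ |co e (S (e m)) i|), |co e (T (e i)) m| * |co e (S (e m)) i| := by linarith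
    have h12 : ∑ i ∈ (E m).filter (fun i => 1 / (4 * C) ≤ |co e (T (e i)) m| ∧
        δ2 ≤ |co e (S (e m)) i|), |co e (T (e i)) m| * |co e (S (e m)) i| ≤
        C * ∑ i ∈ (E m).filter (fun i => 1 / (4 * C) ≤ |co e (T (e i)) m| ∧
        δ2 ≤ |co e (S (e m)) i|), |co e (S (e m)) i| := by
      rw [Finset.mul_sum]
      exact Finset.sum_le_sum fun i _ => mul_le_mul_of_nonneg_right (hTn i) (abs_nonneg _)
    rw [div_le_iff₀ (by positivity)]
    have h13 := h11.trans h12
    linarith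
  · intro i hi
    rw [Finset.mem_filter] at hi
    exact hi.2

end Space

end Pool.Agent.Comb7f333f.WPart
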