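import Pool.Agent.Lib.MP_7f333f_an.W.Api

set_option autoImplicit false

/-!
Module B3b of part (W): the weights lemma.
-/

namespace Pool.Agent.Comb7f333f.WPart

/-- The weights in a dyadic window have a small sum. -/
theorem b3b_window (C : ℝ) (W : ℕ → ℝ) (hSB : SB W C) (p : ℕ) (hp : 1 ≤ p)
    (E : Finset ℕ) (h1 : ∀ i ∈ E, C / p < W i) (h2 : ∀ i ∈ E, p ≤ i + 1) :
    ∑ i ∈ E, |W i| ≤ C := by
  have hp' : (0 : ℝ) < p := by exact_mod_cast hp
  have hcard : E.card < p := by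
    by_contra hle
    obtain ⟨F, hF, hFc⟩ := Finset.exists_subset_card_eq (not_lt.mp hle)
    have hs : F ∈ schreier := by
      intro i hi
      rw [hFc]
      exact h2 i (hF hi)
    have h3 := hSB F hs
    have h4 : ∑ _i ∈ F, C / p < ∑ i ∈ F, |W i| :=
      Finset.sum_lt_sum_of_nonempty (Finset.card_pos.mp (by omega)) fun i hi =>
        lt_of_lt_of_le (h1 i (hF hi)) (le_abs_self _)
    rw [Finset.sum_const, nsmul_eq_mul, hFc, mul_div_cancel₀ _ hp'.ne'] at h4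
    linarith
  exact hSB E fun i hi => by
    have := h2 i hi
    omega

/-- A positive weight lies in `k` dyadic windows. -/
theorem b3b_count (C : ℝ) (hC : 1 ≤ C) (k : ℕ) (w N' : ℝ) (hw : 0 < w) (hwC : w ≤ C)
    (hN' : 1 ≤ N') (hwN : 1 / N' ≤ w) (T : ℕ)
    (hT : Real.logb 2 (C * N') + k < T) :
    k ≤ ((Finset.range T).filter fun t => C / (2 ^ t : ℕ) < w ∧
      w * (2 ^ t : ℕ) ≤ 2 ^ k * C).card := by
  have hC0 : 0 < C := by linarith
  set n : ℕ := ⌊C / w⌋₊ with hn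
  have h1 : 1 ≤ C / w := by rwa [le_div_iff₀ hw, one_mul]
  have hn1 : 1 ≤ n := by
    rw [hn]
    exact Nat.le_floor (by exact_mod_cast h1)
  set t0 : ℕ := Nat.log 2 n with ht0
  have h2 : 2 ^ t0 ≤ n := Nat.pow_log_le_self 2 (by omega)
  have h3 : n < 2 ^ (t0 + 1) := Nat.lt_pow_succ_log_self (by norm_num) n
  have h4 : ((2 ^ t0 : ℕ) : ℝ) ≤ C / w :=
    le_trans (by exact_mod_cast h2) (Nat.floor_le (by positivity))
  have h5 : C / w < ((2 ^ (t0 + 1) : ℕ) : ℝ) :=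
    lt_of_lt_of_le (Nat.lt_floor_add_one _) (by exact_mod_cast h3)
  have h6 : Finset.image (fun j => t0 + 1 + j) (Finset.range k) ⊆
      (Finset.range T).filter fun t => C / (2 ^ t : ℕ) < w ∧ w * (2 ^ t : ℕ) ≤ 2 ^ k * C := by
    intro t ht
    obtain ⟨j, hj, rfl⟩ := Finset.mem_image.mp ht
    rw [Finset.mem_range] at hj
    have h7 : ((2 ^ (t0 + 1 + j) : ℕ) : ℝ) ≤ 2 ^ k * (C / w) := by
      obtain ⟨l, hl⟩ : ∃ l, k = 1 + j + l := ⟨k - (1 + j), by omega⟩
      have h8 : (2 : ℝ) ^ k = 2 ^ (1 + j) * 2 ^ l := by rw [hl, pow_add]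
      have h9 : (1 : ℝ) ≤ 2 ^ l := one_le_pow₀ (by norm_num)
      have h10 : ((2 ^ (t0 + 1 + j) : ℕ) : ℝ) = 2 ^ (1 + j) * ((2 ^ t0 : ℕ) : ℝ) := by
        push_cast
        rw [add_assoc, pow_add]
        ring
      rw [h10, h8]
      have h11 : (0 : ℝ) < 2 ^ (1 + j) := by positivity
      have h12 : 0 ≤ C / w := by positivity
      calc (2 : ℝ) ^ (1 + j) * ((2 ^ t0 : ℕ) : ℝ) ≤ 2 ^ (1 + j) * (C / w) :=
            mul_le_mul_of_nonneg_left h4 h11.le
        _ = 2 ^ (1 + j) * 1 * (C / w) := by ring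
        _ ≤ 2 ^ (1 + j) * 2 ^ l * (C / w) := by gcongr
    rw [Finset.mem_filter, Finset.mem_range]
    refine ⟨?_, ?_, ?_⟩
    · have h8 : ((2 ^ (t0 + 1 + j) : ℕ) : ℝ) ≤ 2 ^ k * (C * N') := by
        refine h7.trans (mul_le_mul_of_nonneg_left ?_ (by positivity))
        rw [div_le_iff₀ hw]
        have h9 : 1 ≤ N' * w := by
          rw [div_le_iff₀ (by linarith)] at hwN
          linarith
        calc C = C * 1 := (mul_one C).symm
          _ ≤ C * (N' * w) := mul_le_mul_of_nonneg_left h9 hC0.le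
          _ = C * N' * w := by ring
      have h9 : Real.logb 2 ((2 ^ (t0 + 1 + j) : ℕ) : ℝ) ≤ Real.logb 2 (2 ^ k * (C * N')) :=
        Real.logb_le_logb_of_le (by norm_num) (by positivity) h8
      have h10 : (0 : ℝ) < C * N' := mul_pos hC0 (by linarith)
      rw [Real.logb_mul (by positivity) h10.ne', Real.logb_pow, Real.logb_self_eq_one (by norm_num),
        mul_one] at h9
      push_cast at h9
      rw [Real.logb_pow, Real.logb_self_eq_one (by norm_num), mul_one] at h9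
      have h11 : ((t0 + 1 + j : ℕ) : ℝ) < T := by linarith
      exact_mod_cast h11
    · have h8 : ((2 ^ (t0 + 1) : ℕ) : ℝ) ≤ ((2 ^ (t0 + 1 + j) : ℕ) : ℝ) := by
        exact_mod_cast Nat.pow_le_pow_right (by norm_num) (by omega)
      have h9 : C / w < ((2 ^ (t0 + 1 + j) : ℕ) : ℝ) := lt_of_lt_of_le h5 h8
      have h10 : (0 : ℝ) < ((2 ^ (t0 + 1 + j) : ℕ) : ℝ) := by positivity
      rw [div_lt_iff₀ hw] at h9
      rw [div_lt_iff₀ h10]
      linarith
    · have h8 := mul_le_mul_of_nonneg_left h7 hw.le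
      calc w * ((2 ^ (t0 + 1 + j) : ℕ) : ℝ) ≤ w * (2 ^ k * (C / w)) := h8
        _ = 2 ^ k * C := by field_simp
  have h7 := Finset.card_le_card h6
  rwa [Finset.card_image_of_injective _ (fun a b h => by simpa using h),
    Finset.card_range] at h7

theorem weights (C : ℝ) (hC : 1 ≤ C) (k : ℕ) (W : ℕ → ℝ) (hW0 : ∀ i, 0 ≤ W i) (hSB : SB W C)
    (N' : ℝ) (hN' : 1 ≤ N') (S : Finset ℕ)
    (hS : ∀ i ∈ S, W i = 0 ∨ (2 ^ k * C ≤ ((i : ℝ) + 1) * W i ∧ 1 / N' ≤ W i)) :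
    k * ∑ i ∈ S, W i ≤ C * (Real.logb 2 (C * N') + k + 1) := by
  classical
  have hC0 : 0 < C := by linarith
  have hlog : 0 ≤ Real.logb 2 (C * N') :=
    Real.logb_nonneg (by norm_num) (by nlinarith)
  set T : ℕ := ⌊Real.logb 2 (C * N') + k⌋₊ + 1 with hT
  have hT1 : Real.logb 2 (C * N') + k < T := by
    rw [hT]
    push_cast
    exact Nat.lt_floor_add_one _
  have hT2 : (T : ℝ) ≤ Real.logb 2 (C * N') + k + 1 := by
    rw [hT]
    push_cast
    have := Nat.floor_le (show 0 ≤ Real.logb 2 (C * N') + k by positivity)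
    linarith
  have h1 : ∀ i ∈ S, (k : ℝ) * W i ≤ ∑ t ∈ Finset.range T,
      if C / (2 ^ t : ℕ) < W i ∧ W i * (2 ^ t : ℕ) ≤ 2 ^ k * C then W i else 0 := by
    intro i hi
    rw [← Finset.sum_filter, Finset.sum_const, nsmul_eq_mul]
    rcases (hW0 i).eq_or_lt with h0 | hpos
    · rw [← h0]
      simp
    · rcases hS i hi with h | ⟨_, hwN⟩
      · exact absurd h hpos.ne'
      · have hwC : W i ≤ C := (le_abs_self _).trans (SB_le hSB i)
        have := b3b_count C hC k (W i) N' hpos hwC hN' hwN T hT1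
        exact mul_le_mul_of_nonneg_right (by exact_mod_cast this) hpos.le
  have h2 : ∀ t ∈ Finset.range T, (∑ i ∈ S,
      if C / (2 ^ t : ℕ) < W i ∧ W i * (2 ^ t : ℕ) ≤ 2 ^ k * C then W i else 0) ≤ C := by
    intro t _
    rw [← Finset.sum_filter]
    refine le_trans (Finset.sum_le_sum fun i _ => le_abs_self (W i)) ?_
    have hp : 1 ≤ 2 ^ t := Nat.one_le_two_pow
    refine b3b_window C W hSB (2 ^ t) hp _ (fun i hi => (Finset.mem_filter.mp hi).2.1)
      fun i hi => ?_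
    obtain ⟨hiS, hi1, hi2⟩ := Finset.mem_filter.mp hi
    have hpos : 0 < W i := lt_of_le_of_lt (by positivity) hi1
    rcases hS i hiS with h | ⟨h, _⟩
    · exact absurd h hpos.ne'
    · have h3 : W i * ((2 ^ t : ℕ) : ℝ) ≤ W i * ((i : ℝ) + 1) := by linarith
      have h4 : ((2 ^ t : ℕ) : ℝ) ≤ (i : ℝ) + 1 := le_of_mul_le_mul_left h3 hpos
      exact_mod_cast h4
  calc (k : ℝ) * ∑ i ∈ S, W i = ∑ i ∈ S, (k : ℝ) * W i := Finset.mul_sum _ _ _
    _ ≤ ∑ i ∈ S, ∑ t ∈ Finset.range T,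
        (if C / (2 ^ t : ℕ) < W i ∧ W i * (2 ^ t : ℕ) ≤ 2 ^ k * C then W i else 0) :=
      Finset.sum_le_sum h1
    _ = ∑ t ∈ Finset.range T, ∑ i ∈ S,
        (if C / (2 ^ t : ℕ) < W i ∧ W i * (2 ^ t : ℕ) ≤ 2 ^ k * C then W i else 0) :=
      Finset.sum_comm
    _ ≤ ∑ _t ∈ Finset.range T, C := Finset.sum_le_sum h2
    _ = T * C := by rw [Finset.sum_const, nsmul_eq_mul, Finset.card_range]
    _ ≤ C * (Real.logb 2 (C * N') + k + 1) := by
      rw [mul_comm]
      exact mul_le_mul_of_nonneg_left hT2 hC0.le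

end Pool.Agent.Comb7f333f.WPart
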