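import Pool.Agent.Lib.MP_7f333f_an.W.B3b

set_option autoImplicit false

/-!
The density lemma for matrices.
-/

namespace Pool.Agent.Comb7f333f.WPart

open Filter Topology

theorem b3c_harmonic (m1 N : ℕ) (h : m1 ≤ N) :
    Real.log ((N : ℝ) + 1) - Real.log ((m1 : ℝ) + 1) ≤
      ∑ m ∈ Finset.Ico m1 N, 1 / ((m : ℝ) + 1) := by
  induction N, h using Nat.le_induction with
  | base => simp
  | succ n hn ih =>
    rw [Finset.sum_Ico_succ_top hn]
    have h1 : (0 : ℝ) < (n : ℝ) + 1 := by positivity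
    have h2 : Real.log ((n : ℝ) + 1 + 1) - Real.log ((n : ℝ) + 1) ≤ 1 / ((n : ℝ) + 1) := by
      rw [← Real.log_div (by positivity) (by positivity)]
      have h3 := Real.log_le_sub_one_of_pos (x := ((n : ℝ) + 1 + 1) / ((n : ℝ) + 1)) (by positivity)
      have h4 : ((n : ℝ) + 1 + 1) / ((n : ℝ) + 1) - 1 = 1 / ((n : ℝ) + 1) := by
        field_simp
        ring
      rw [h4] at h3
      exact h3
    push_cast
    linarith

/-- The mass of the good pairs. -/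
theorem b3c_good (C' δ : ℝ) (hC' : 0 < C') (hδ : 0 < δ) (mu K N m1 : ℕ) (hK : C' / δ ≤ K)
    (b : ℕ → ℕ → ℝ) (P : ℕ → Finset ℕ) 
    (hδb : ∀ m ≥ m1, ∀ i ∈ P m, δ ≤ b i m)
    (hcard : ∀ (i : ℕ) (E : Finset ℕ), (∀ m ∈ E, m1 ≤ m ∧ i ∈ P m) → E.card ≤ mu)
    (W : Finset ℕ) (hW : ∀ m, m1 ≤ m → m < N → ∀ i ∈ P m, i < K * N → i ∈ W) :
    ∑ m ∈ Finset.Ico m1 N, ∑ i ∈ (P m).filter
      (fun i : ℕ => ((i : ℝ) + 1) * (b i m / ((m : ℝ) + 1)) ≤ C'), b i m / ((m : ℝ) + 1) ≤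
      mu * C' * ∑ i ∈ W, 1 / ((i : ℝ) + 1) := by
  classical
  have hcomm : ∑ m ∈ Finset.Ico m1 N, ∑ i ∈ (P m).filter
      (fun i : ℕ => ((i : ℝ) + 1) * (b i m / ((m : ℝ) + 1)) ≤ C'), b i m / ((m : ℝ) + 1) =
      ∑ i ∈ W, ∑ m ∈ (Finset.Ico m1 N).filter
        (fun m : ℕ => i ∈ P m ∧ ((i : ℝ) + 1) * (b i m / ((m : ℝ) + 1)) ≤ C'),
        b i m / ((m : ℝ) + 1) := by
    apply Finset.sum_comm'
    intro m i
    simp only [Finset.mem_filter, Finset.mem_Ico]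
    constructor
    · rintro ⟨⟨h1, h2⟩, h3, h4⟩
      refine ⟨⟨⟨h1, h2⟩, h3, h4⟩, hW m h1 h2 i h3 ?_⟩
      have h5 : δ ≤ b i m := hδb m h1 i h3
      have hm : (0 : ℝ) < (m : ℝ) + 1 := by positivity
      have hmN : (m : ℝ) + 1 ≤ N := by exact_mod_cast h2
      have h6 : ((i : ℝ) + 1) * b i m ≤ C' * ((m : ℝ) + 1) := by
        have := mul_le_mul_of_nonneg_right h4 hm.le
        have h7 : ((i : ℝ) + 1) * (b i m / ((m : ℝ) + 1)) * ((m : ℝ) + 1) =
            ((i : ℝ) + 1) * b i m := by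
          field_simp
        rw [h7] at this
        exact this
      have h8 : ((i : ℝ) + 1) * δ ≤ C' * N := by
        have h9 : ((i : ℝ) + 1) * δ ≤ ((i : ℝ) + 1) * b i m :=
          mul_le_mul_of_nonneg_left h5 (by positivity)
        have h10 : C' * ((m : ℝ) + 1) ≤ C' * N := mul_le_mul_of_nonneg_left hmN hC'.le
        linarith
      have h11 : (i : ℝ) + 1 ≤ K * N := by
        have h12 : C' ≤ K * δ := by
          rwa [div_le_iff₀ hδ] at hK
        have h13 : C' * N ≤ K * δ * N := mul_le_mul_of_nonneg_right h12 (Nat.cast_nonneg N)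
        have h14 : ((i : ℝ) + 1) * δ ≤ (K * N) * δ := by nlinarith
        exact le_of_mul_le_mul_right h14 hδ
      have h15 : i + 1 ≤ K * N := by exact_mod_cast h11
      omega
    · rintro ⟨⟨⟨h1, h2⟩, h3, h4⟩, _⟩
      exact ⟨⟨h1, h2⟩, h3, h4⟩
  rw [hcomm, Finset.mul_sum]
  apply Finset.sum_le_sum
  intro i _
  have hi : (0 : ℝ) < (i : ℝ) + 1 := by positivity
  calc ∑ m ∈ (Finset.Ico m1 N).filter
        (fun m : ℕ => i ∈ P m ∧ ((i : ℝ) + 1) * (b i m / ((m : ℝ) + 1)) ≤ C'),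
        b i m / ((m : ℝ) + 1) ≤ ∑ m ∈ (Finset.Ico m1 N).filter
        (fun m : ℕ => i ∈ P m ∧ ((i : ℝ) + 1) * (b i m / ((m : ℝ) + 1)) ≤ C'),
        C' / ((i : ℝ) + 1) := by
        apply Finset.sum_le_sum
        intro m hm
        rw [Finset.mem_filter] at hm
        rw [le_div_iff₀ hi, mul_comm]
        exact hm.2.2
    _ = (((Finset.Ico m1 N).filter
        (fun m : ℕ => i ∈ P m ∧ ((i : ℝ) + 1) * (b i m / ((m : ℝ) + 1)) ≤ C')).card : ℝ) *
        (C' / ((i : ℝ) + 1)) := by rw [Finset.sum_const, nsmul_eq_mul]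
    _ ≤ (mu : ℝ) * (C' / ((i : ℝ) + 1)) := by
        apply mul_le_mul_of_nonneg_right _ (by positivity)
        have := hcard i ((Finset.Ico m1 N).filter
          (fun m : ℕ => i ∈ P m ∧ ((i : ℝ) + 1) * (b i m / ((m : ℝ) + 1)) ≤ C')) (by
            intro m hm
            rw [Finset.mem_filter, Finset.mem_Ico] at hm
            exact ⟨hm.1.1, hm.2.1⟩)
        exact_mod_cast this
    _ = mu * C' * (1 / ((i : ℝ) + 1)) := by ring

/-- The mass of the bad pairs. -/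
theorem b3c_bad (C δ : ℝ) (hC : 1 ≤ C) (hδ : 0 < δ) (k : ℕ) (mu N m1 : ℕ) (hN : δ ≤ N)
    (b : ℕ → ℕ → ℝ) (P : ℕ → Finset ℕ) (hb0 : ∀ i m, 0 ≤ b i m)
    (hδb : ∀ m ≥ m1, ∀ i ∈ P m, δ ≤ b i m)
    (hcard : ∀ (i : ℕ) (E : Finset ℕ), (∀ m ∈ E, m1 ≤ m ∧ i ∈ P m) → E.card ≤ mu)
    (hSB : ∀ μ : ℕ → ℕ, SB (fun i => b i (μ i) / ((μ i : ℝ) + 1)) C) :
    k * ∑ m ∈ Finset.Ico m1 N, ∑ i ∈ (P m).filter
      (fun i : ℕ => ¬ ((i : ℝ) + 1) * (b i m / ((m : ℝ) + 1)) ≤ 2 ^ k * C), b i m / ((m : ℝ) + 1) ≤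
      mu * (C * (Real.logb 2 (C * (N / δ)) + k + 1)) := by
  classical
  set S : Finset ℕ := (Finset.Ico m1 N).biUnion P with hS
  set Bd : ℕ → Finset ℕ := fun i => (Finset.Ico m1 N).filter
        (fun m : ℕ => i ∈ P m ∧ ¬ ((i : ℝ) + 1) * (b i m / ((m : ℝ) + 1)) ≤ 2 ^ k * C) with hBd
  have hcomm : ∑ m ∈ Finset.Ico m1 N, ∑ i ∈ (P m).filter
      (fun i : ℕ => ¬ ((i : ℝ) + 1) * (b i m / ((m : ℝ) + 1)) ≤ 2 ^ k * C), b i m / ((m : ℝ) + 1) =
      ∑ i ∈ S, ∑ m ∈ Bd i, b i m / ((m : ℝ) + 1) := by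
    apply Finset.sum_comm'
    intro m i
    simp only [hBd, hS, Finset.mem_filter, Finset.mem_Ico, Finset.mem_biUnion]
    constructor
    · rintro ⟨⟨h1, h2⟩, h3, h4⟩
      exact ⟨⟨⟨h1, h2⟩, h3, h4⟩, m, ⟨h1, h2⟩, h3⟩
    · rintro ⟨⟨⟨h1, h2⟩, h3, h4⟩, _⟩
      exact ⟨⟨h1, h2⟩, h3, h4⟩
  have hex : ∀ i, ∃ μ : ℕ, (Bd i).Nonempty → μ ∈ Bd i ∧ ∀ m ∈ Bd i,
      b i m / ((m : ℝ) + 1) ≤ b i μ / ((μ : ℝ) + 1) := by
    intro i
    by_cases h : (Bd i).Nonempty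
    · obtain ⟨μ, h1, h2⟩ := Finset.exists_max_image (Bd i) (fun m : ℕ => b i m / ((m : ℝ) + 1)) h
      exact ⟨μ, fun _ => ⟨h1, h2⟩⟩
    · exact ⟨0, fun h' => absurd h' h⟩
  choose μ hμ using hex
  set Wf : ℕ → ℝ := fun i => if (Bd i).Nonempty then b i (μ i) / ((μ i : ℝ) + 1) else 0 with hWf
  have hw0 : ∀ i, 0 ≤ b i (μ i) / ((μ i : ℝ) + 1) := fun i =>
    div_nonneg (hb0 _ _) (by positivity)
  have hWf0 : ∀ i, 0 ≤ Wf i := by
    intro i
    simp only [hWf]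
    split_ifs
    · exact hw0 i
    · exact le_rfl
  have hWfSB : SB Wf C := by
    refine SB_mono (hSB μ) ?_
    intro i
    simp only [hWf]
    split_ifs
    · exact le_rfl
    · rw [abs_zero]
      exact abs_nonneg _
  have hNδ : 1 ≤ (N : ℝ) / δ := by
    rw [le_div_iff₀ hδ, one_mul]
    exact hN
  have hkey := weights C hC k Wf hWf0 hWfSB (N / δ) hNδ S (by
    intro i _
    simp only [hWf]
    split_ifs with h
    · right
      obtain ⟨h1, _⟩ := hμ i h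
      rw [hBd] at h1
      simp only [Finset.mem_filter, Finset.mem_Ico] at h1
      refine ⟨(not_le.1 h1.2.2).le, ?_⟩
      have h5 : δ ≤ b i (μ i) := hδb (μ i) h1.1.1 i h1.2.1
      have hm : (0 : ℝ) < (μ i : ℝ) + 1 := by positivity
      have hmN : (μ i : ℝ) + 1 ≤ N := by exact_mod_cast h1.1.2
      have hNpos : (0 : ℝ) < N := lt_of_lt_of_le hm hmN
      rw [one_div_div, div_le_div_iff₀ hNpos hm]
      exact mul_le_mul h5 hmN hm.le (hb0 _ _)
    · left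
      rfl)
  rw [hcomm]
  have h1 : ∑ i ∈ S, ∑ m ∈ Bd i, b i m / ((m : ℝ) + 1) ≤ ∑ i ∈ S, (mu : ℝ) * Wf i := by
    apply Finset.sum_le_sum
    intro i _
    by_cases h : (Bd i).Nonempty
    · obtain ⟨h1, h2⟩ := hμ i h
      calc ∑ m ∈ Bd i, b i m / ((m : ℝ) + 1) ≤ ∑ m ∈ Bd i, b i (μ i) / ((μ i : ℝ) + 1) :=
            Finset.sum_le_sum h2
        _ = ((Bd i).card : ℝ) * (b i (μ i) / ((μ i : ℝ) + 1)) := by
            rw [Finset.sum_const, nsmul_eq_mul]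
        _ ≤ (mu : ℝ) * (b i (μ i) / ((μ i : ℝ) + 1)) := by
            apply mul_le_mul_of_nonneg_right _ (hw0 i)
            have := hcard i (Bd i) (by
              intro m hm
              rw [hBd] at hm
              simp only [Finset.mem_filter, Finset.mem_Ico] at hm
              exact ⟨hm.1.1, hm.2.1⟩)
            exact_mod_cast this
        _ = (mu : ℝ) * Wf i := by
            simp only [hWf, if_pos h]
    · rw [Finset.not_nonempty_iff_eq_empty] at h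
      rw [h, Finset.sum_empty]
      exact mul_nonneg (Nat.cast_nonneg _) (hWf0 i)
  rw [← Finset.mul_sum] at h1
  calc (k : ℝ) * ∑ i ∈ S, ∑ m ∈ Bd i, b i m / ((m : ℝ) + 1) ≤ k * (mu * ∑ i ∈ S, Wf i) :=
        mul_le_mul_of_nonneg_left h1 (Nat.cast_nonneg k)
    _ = mu * (k * ∑ i ∈ S, Wf i) := by ring
    _ ≤ mu * (C * (Real.logb 2 (C * (N / δ)) + k + 1)) :=
        mul_le_mul_of_nonneg_left hkey (Nat.cast_nonneg mu)

theorem b3c_log2 : 1 / Real.log 2 ≤ 3 / 2 := by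
  have h := Real.log_two_gt_d9
  rw [div_le_div_iff₀ (by linarith) (by norm_num)]
  linarith

theorem density_abstract (C : ℝ) (hC : 1 ≤ C) : ∃ c0 : ℝ, 0 < c0 ∧ c0 ≤ 1 ∧
    ∀ (δ : ℝ) (m1 : ℕ), 0 < δ → ∃ K N0 : ℕ, 1 ≤ K ∧ ∀ (b : ℕ → ℕ → ℝ) (P : ℕ → Finset ℕ),
      (∀ i m, 0 ≤ b i m) →
      (∀ m ≥ m1, 1 / (4 * C) ≤ ∑ i ∈ P m, b i m) →
      (∀ m ≥ m1, ∀ i ∈ P m, δ ≤ b i m) →
      (∀ (i : ℕ) (E : Finset ℕ), (∀ m ∈ E, m1 ≤ m ∧ i ∈ P m) →
        E.card ≤ 2 * (⌊4 * C ^ 2⌋₊ + 1)) →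
      (∀ μ : ℕ → ℕ, SB (fun i => b i (μ i) / ((μ i : ℝ) + 1)) C) →
      ∀ N ≥ N0, ∀ W : Finset ℕ,
        (∀ m, m1 ≤ m → m < N → ∀ i ∈ P m, i < K * N → i ∈ W) →
        c0 * Real.log N ≤ ∑ i ∈ W, 1 / ((i : ℝ) + 1) := by
  set mu : ℕ := 2 * (⌊4 * C ^ 2⌋₊ + 1) with hmu
  have hmu1 : (1 : ℝ) ≤ mu := by
    have : 1 ≤ mu := by omega
    exact_mod_cast this
  obtain ⟨k, hk⟩ := exists_nat_ge (12 * mu * C ^ 2)
  have hC0 : (0 : ℝ) < C := by linarith
  have hk1 : (1 : ℝ) ≤ k := by nlinarith [mul_pos hC0 hC0]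
  have hk0 : (0 : ℝ) < k := by linarith
  set C' : ℝ := 2 ^ k * C with hC'
  have hC'1 : 1 ≤ C' := by
    have : (1 : ℝ) ≤ 2 ^ k := one_le_pow₀ (by norm_num)
    nlinarith
  have hden : 1 ≤ 16 * C * mu * C' := by
    have h1 : 1 ≤ C * mu := by nlinarith
    have h2 : 1 ≤ C * mu * C' := by nlinarith
    nlinarith
  refine ⟨1 / (16 * C * mu * C'), by positivity, ?_, ?_⟩
  · rw [div_le_one (by linarith)]
    exact hden
  intro δ m1 hδ
  obtain ⟨K, hK⟩ := exists_nat_ge (max (C' / δ) 1)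
  have hK1 : 1 ≤ K := by
    have := (le_max_right _ _).trans hK
    exact_mod_cast this
  set c2 : ℝ := 1 / (4 * C) * Real.log ((m1 : ℝ) + 1) +
    mu * C / k * ((Real.log C - Real.log δ) / Real.log 2 + k + 1) with hc2
  obtain ⟨N0, hN0⟩ := exists_nat_ge (max (max (Real.exp (16 * C * c2)) δ) ((m1 : ℝ) + 1))
  refine ⟨K, N0, hK1, ?_⟩
  intro b P hb0 hsum hδb hcard hSB N hN W hW
  have hNN0 : (N0 : ℝ) ≤ N := by exact_mod_cast hN
  have hNe : Real.exp (16 * C * c2) ≤ N :=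
    (((le_max_left _ _).trans (le_max_left _ _)).trans hN0).trans hNN0
  have hNd : δ ≤ N := (((le_max_right _ _).trans (le_max_left _ _)).trans hN0).trans hNN0
  have hNm : (m1 : ℝ) + 1 ≤ N := ((le_max_right _ _).trans hN0).trans hNN0
  have hm1N : m1 ≤ N := by
    have : m1 + 1 ≤ N := by exact_mod_cast hNm
    omega
  have hNpos : (0 : ℝ) < N := lt_of_lt_of_le hδ hNd
  have hN1 : (1 : ℝ) ≤ N := by
    have : (0 : ℝ) ≤ m1 := Nat.cast_nonneg _
    linarith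
  have hlogN : 0 ≤ Real.log N := Real.log_nonneg hN1
  have hlog : 16 * C * c2 ≤ Real.log N := by
    rw [Real.le_log_iff_exp_le hNpos]
    exact hNe
  have hgood := b3c_good C' δ (by linarith) hδ mu K N m1 ((le_max_left _ _).trans hK) b P hδb hcard
    W hW
  have hbad := b3c_bad C δ hC hδ k mu N m1 hNd b P hb0 hδb hcard hSB
  have htot : 1 / (4 * C) * (Real.log N - Real.log ((m1 : ℝ) + 1)) ≤
      ∑ m ∈ Finset.Ico m1 N, ∑ i ∈ P m, b i m / ((m : ℝ) + 1) := by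
    have h1 : Real.log N - Real.log ((m1 : ℝ) + 1) ≤
        ∑ m ∈ Finset.Ico m1 N, 1 / ((m : ℝ) + 1) := by
      refine le_trans ?_ (b3c_harmonic m1 N hm1N)
      have : Real.log N ≤ Real.log ((N : ℝ) + 1) := Real.log_le_log hNpos (by linarith)
      linarith
    calc 1 / (4 * C) * (Real.log N - Real.log ((m1 : ℝ) + 1)) ≤
        1 / (4 * C) * ∑ m ∈ Finset.Ico m1 N, 1 / ((m : ℝ) + 1) :=
          mul_le_mul_of_nonneg_left h1 (by positivity)
      _ = ∑ m ∈ Finset.Ico m1 N, 1 / (4 * C) * (1 / ((m : ℝ) + 1)) := Finset.mul_sum _ _ _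
      _ ≤ ∑ m ∈ Finset.Ico m1 N, ∑ i ∈ P m, b i m / ((m : ℝ) + 1) := by
        apply Finset.sum_le_sum
        intro m hm
        rw [Finset.mem_Ico] at hm
        rw [← Finset.sum_div, mul_one_div]
        exact div_le_div_of_nonneg_right (hsum m hm.1) (by positivity)
  have hsplit : ∑ m ∈ Finset.Ico m1 N, ∑ i ∈ P m, b i m / ((m : ℝ) + 1) =
      ∑ m ∈ Finset.Ico m1 N, ∑ i ∈ (P m).filter
        (fun i : ℕ => ((i : ℝ) + 1) * (b i m / ((m : ℝ) + 1)) ≤ C'), b i m / ((m : ℝ) + 1) +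
      ∑ m ∈ Finset.Ico m1 N, ∑ i ∈ (P m).filter
        (fun i : ℕ => ¬ ((i : ℝ) + 1) * (b i m / ((m : ℝ) + 1)) ≤ C'), b i m / ((m : ℝ) + 1) := by
    rw [← Finset.sum_add_distrib]
    apply Finset.sum_congr rfl
    intro m _
    rw [Finset.sum_filter_add_sum_filter_not]
  set G := ∑ m ∈ Finset.Ico m1 N, ∑ i ∈ (P m).filter
        (fun i : ℕ => ((i : ℝ) + 1) * (b i m / ((m : ℝ) + 1)) ≤ C'), b i m / ((m : ℝ) + 1)
  set B := ∑ m ∈ Finset.Ico m1 N, ∑ i ∈ (P m).filter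
        (fun i : ℕ => ¬ ((i : ℝ) + 1) * (b i m / ((m : ℝ) + 1)) ≤ C'), b i m / ((m : ℝ) + 1)
  have hlogb : Real.logb 2 (C * (N / δ)) ≤
      3 / 2 * Real.log N + (Real.log C - Real.log δ) / Real.log 2 := by
    rw [Real.logb, Real.log_mul hC0.ne' (by positivity), Real.log_div hNpos.ne' hδ.ne']
    have h2 : (0 : ℝ) < Real.log 2 := Real.log_pos (by norm_num)
    have h3 : (Real.log C + (Real.log N - Real.log δ)) / Real.log 2 =
        1 / Real.log 2 * Real.log N + (Real.log C - Real.log δ) / Real.log 2 := by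
      field_simp
      ring
    rw [h3]
    have := mul_le_mul_of_nonneg_right b3c_log2 hlogN
    linarith
  have hB : B ≤ 1 / (8 * C) * Real.log N +
      mu * C / k * ((Real.log C - Real.log δ) / Real.log 2 + k + 1) := by
    have h1 : k * B ≤ mu * (C * (3 / 2 * Real.log N + (Real.log C - Real.log δ) / Real.log 2
        + k + 1)) := by
      refine hbad.trans ?_
      apply mul_le_mul_of_nonneg_left _ (Nat.cast_nonneg _)
      apply mul_le_mul_of_nonneg_left _ hC0.le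
      linarith
    have h2 : B ≤ mu * (C * (3 / 2 * Real.log N + (Real.log C - Real.log δ) / Real.log 2
        + k + 1)) / k := by
      rw [le_div_iff₀ hk0, mul_comm]
      exact h1
    have h3 : mu * (C * (3 / 2 * Real.log N + (Real.log C - Real.log δ) / Real.log 2
        + k + 1)) / k = (3 * mu * C / (2 * k)) * Real.log N +
        mu * C / k * ((Real.log C - Real.log δ) / Real.log 2 + k + 1) := by
      field_simp
      ring
    have h4 : 3 * mu * C / (2 * k) ≤ 1 / (8 * C) := by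
      rw [div_le_div_iff₀ (by positivity) (by positivity)]
      nlinarith
    have h5 := mul_le_mul_of_nonneg_right h4 hlogN
    linarith
  have hfin : 1 / (16 * C) * Real.log N ≤ mu * C' * ∑ i ∈ W, 1 / ((i : ℝ) + 1) := by
    have h1 : c2 ≤ 1 / (16 * C) * Real.log N := by
      rw [one_div, inv_mul_eq_div, le_div_iff₀ (by positivity)]
      linarith
    have h2 : 1 / (4 * C) * (Real.log N - Real.log ((m1 : ℝ) + 1)) ≤ G + B := by
      rw [← hsplit]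
      exact htot
    have h3 : 1 / (4 * C) = 4 * (1 / (16 * C)) := by
      field_simp
      norm_num
    have h4 : 1 / (8 * C) = 2 * (1 / (16 * C)) := by
      field_simp
      norm_num
    rw [h4] at hB
    have h5 : 1 / (4 * C) * (Real.log N - Real.log ((m1 : ℝ) + 1)) =
        4 * (1 / (16 * C)) * Real.log N - 1 / (4 * C) * Real.log ((m1 : ℝ) + 1) := by
      rw [h3]
      ring
    linarith
  have hpos : 0 < mu * C' := by positivity
  have h1 : 1 / (16 * C * mu * C') * Real.log N = 1 / (16 * C) * Real.log N / (mu * C') := by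
    field_simp
  rw [h1, div_le_iff₀ hpos]
  linarith

end Pool.Agent.Comb7f333f.WPart
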