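import Pool.Agent.Lib.MP_7f333f_an.W.Api
import Pool.Agent.Lib.MP_7f333f_an.Neg.Signs

set_option autoImplicit false
set_option linter.unusedSectionVars false

/-!
Choices of entries of an operator.
-/

namespace Pool.Agent.Comb7f333f.WPart

open Filter Topology

section Space

variable {X : Type*} [NormedAddCommGroup X] [NormedSpace ℝ X] {e : ℕ → X}

variable (hX : IsCombSpace schreier e)

include hX

/-- The vector `∑ ± e_m / (m + 1)` has norm at most one. -/
theorem b3d_norm_le (N : ℕ) (θ : Fin N → ℝ) (hθ : ∀ m, θ m = 1 ∨ θ m = -1) :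
    ‖∑ m : Fin N, θ m • ((1 / ((m : ℝ) + 1)) • e m)‖ ≤ 1 := by
  classical
  refine norm_le_of_SB hX fun F hF => ?_
  have h1 : ∀ k ∈ F, |co e (∑ m : Fin N, θ m • ((1 / ((m : ℝ) + 1)) • e m)) k| ≤
      1 / (F.card : ℝ) := by
    intro k hk
    have hcard : (0 : ℝ) < F.card := by
      exact_mod_cast Finset.card_pos.mpr ⟨k, hk⟩
    have hle : (F.card : ℝ) ≤ (k : ℝ) + 1 := by exact_mod_cast hF k hk
    rw [co_sum]
    have h2 : ∀ m : Fin N, co e (θ m • ((1 / ((m : ℝ) + 1)) • e (m : ℕ))) k =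
        if (m : ℕ) = k then θ m * (1 / ((m : ℝ) + 1)) else 0 := by
      intro m
      rw [co_smul, co_smul, co_basis hX]
      split_ifs <;> ring
    rw [Finset.sum_congr rfl fun m _ => h2 m]
    by_cases hkN : k < N
    · have h3 : ∑ m : Fin N, (if (m : ℕ) = k then θ m * (1 / ((m : ℝ) + 1)) else 0) =
          θ ⟨k, hkN⟩ * (1 / ((k : ℝ) + 1)) := by
        rw [Finset.sum_eq_single (⟨k, hkN⟩ : Fin N)]
        · rw [if_pos rfl]
        · intro m _ hm
          rw [if_neg]
          intro h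
          exact hm (Fin.ext h)
        · intro h
          exact absurd (Finset.mem_univ _) h
      rw [h3, abs_mul]
      have h4 : |θ ⟨k, hkN⟩| = 1 := by
        rcases hθ ⟨k, hkN⟩ with h | h <;> rw [h] <;> simp
      rw [h4, one_mul, abs_of_pos (by positivity)]
      exact one_div_le_one_div_of_le hcard hle
    · have h3 : ∑ m : Fin N, (if (m : ℕ) = k then θ m * (1 / ((m : ℝ) + 1)) else 0) = 0 := by
        refine Finset.sum_eq_zero fun m _ => ?_
        rw [if_neg]
        have := m.2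
        omega
      rw [h3, abs_zero]
      positivity
  refine (Finset.sum_le_sum h1).trans ?_
  rw [Finset.sum_const, nsmul_eq_mul]
  rcases Nat.eq_zero_or_pos F.card with h | h
  · rw [h]
    simp
  · have : (0 : ℝ) < F.card := by exact_mod_cast h
    rw [mul_one_div, div_self this.ne']

/-- B3d: choices of entries -/
theorem choice_SB (C : ℝ) (hC : 1 ≤ C) (S : X →L[ℝ] X) (hS : ∀ x, ‖S x‖ ≤ C * ‖x‖)
    (μ : ℕ → ℕ) : SB (fun i => |co e (S (e (μ i))) i| / ((μ i : ℝ) + 1)) C := by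
  classical
  intro F hF
  set N : ℕ := F.sup μ + 1 with hN
  have hμ : ∀ i ∈ F, μ i < N := fun i hi => Nat.lt_succ_of_le (Finset.le_sup (f := μ) hi)
  set v : Fin N → X := fun m => (1 / ((m : ℝ) + 1)) • e m with hv
  set f : X → ℝ := fun x => ∑ i ∈ F, |co e (S x) i| with hf
  obtain ⟨θ, hθ, h1⟩ := exists_sign_ge N v f 0
  have h2 : f (0 + ∑ m, θ m • v m) ≤ C := by
    rw [zero_add, hf]
    refine (SB_co hX _ F hF).trans ((hS _).trans ?_)
    exact (mul_le_mul_of_nonneg_left (b3d_norm_le hX N θ hθ) (by linarith)).trans_eq (mul_one C)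
  have h3 : ravg N v f 0 = ∑ i ∈ F, ravg N v (fun x => |co e (S x) i|) 0 := by
    rw [hf]
    exact ravg_sum F (fun i x => |co e (S x) i|) N v 0
  refine le_trans ?_ (h1.trans h2)
  rw [h3]
  refine Finset.sum_le_sum fun i hi => ?_
  have h4 := ravg_comp ((ef e i : X →ₗ[ℝ] ℝ).comp (S : X →ₗ[ℝ] X)) (fun t => |t|) N v 0
  have h5 : ravg N v (fun x => |co e (S x) i|) 0 =
      ravg N (fun m => co e (S (v m)) i) (fun t => |t|) 0 := by
    have h6 : ((ef e i : X →ₗ[ℝ] ℝ).comp (S : X →ₗ[ℝ] X)) 0 = 0 := map_zero _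
    rw [h6] at h4
    exact h4
  rw [h5]
  refine le_trans (le_of_eq ?_) (abs_coeff_le_ravg_abs N _ 0 ⟨μ i, hμ i hi⟩)
  rw [hv]
  simp only [map_smul]
  rw [co_smul, abs_mul, abs_of_nonneg (show (0 : ℝ) ≤ 1 / ((μ i : ℝ) + 1) by positivity),
    abs_of_nonneg (show (0 : ℝ) ≤ |co e (S (e (μ i))) i| / ((μ i : ℝ) + 1) by positivity)]
  ring

end Space

end Pool.Agent.Comb7f333f.WPart
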