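import Pool.Agent.Lib.MP_7f333f_an.W.Api
import Pool.Agent.Lib.MP_7f333f_an.W.B0
import Pool.Agent.Lib.MP_7f333f_an.W.B3a
import Pool.Agent.Lib.MP_7f333f_an.W.B3c
import Pool.Agent.Lib.MP_7f333f_an.W.B3d
import Mathlib.NumberTheory.Harmonic.Bounds

set_option autoImplicit false
set_option linter.unusedSectionVars false

/-!
Part (W), module B4: common good columns of finitely many operators of the Schreier space.
-/

namespace Pool.Agent.Comb7f333f.WPart

open Filter Topology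

section Space

variable {X : Type*} [NormedAddCommGroup X] [NormedSpace ℝ X] {e : ℕ → X}

variable (hX : IsCombSpace schreier e)

include hX

omit hX in
theorem b4_harm (n : ℕ) : ∑ i ∈ Finset.range n, 1 / ((i : ℝ) + 1) ≤ 1 + Real.log n := by
  have h := harmonic_le_one_add_log n
  refine le_trans (le_of_eq ?_) h
  rw [harmonic]
  push_cast
  refine Finset.sum_congr rfl fun i _ => ?_
  rw [one_div]

/-- The density of the good columns of one operator. -/
theorem b4_one (C : ℝ) (hC : 1 ≤ C) (c0 : ℝ)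
    (hden : ∀ (δ : ℝ) (m1 : ℕ), 0 < δ → ∃ K N0 : ℕ, 1 ≤ K ∧
      ∀ (b : ℕ → ℕ → ℝ) (P : ℕ → Finset ℕ),
      (∀ i m, 0 ≤ b i m) →
      (∀ m ≥ m1, 1 / (4 * C) ≤ ∑ i ∈ P m, b i m) →
      (∀ m ≥ m1, ∀ i ∈ P m, δ ≤ b i m) →
      (∀ (i : ℕ) (E : Finset ℕ), (∀ m ∈ E, m1 ≤ m ∧ i ∈ P m) →
        E.card ≤ 2 * (⌊4 * C ^ 2⌋₊ + 1)) →
      (∀ μ : ℕ → ℕ, SB (fun i => b i (μ i) / ((μ i : ℝ) + 1)) C) →
      ∀ N ≥ N0, ∀ W : Finset ℕ,
        (∀ m, m1 ≤ m → m < N → ∀ i ∈ P m, i < K * N → i ∈ W) →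
        c0 * Real.log N ≤ ∑ i ∈ W, 1 / ((i : ℝ) + 1))
    (T S : X →L[ℝ] X) (hT : ∀ x, ‖T x‖ ≤ C * ‖x‖)
    (hS : ∀ x, ‖S x‖ ≤ C * ‖x‖) (hTS : ∀ x, T (S x) = x) :
    ∃ K N0 : ℕ, 1 ≤ K ∧ ∀ N ≥ N0, ∀ W : Finset ℕ,
      (∀ i, i < K * N → (∃ m, 1 / (4 * C) ≤ |co e (T (e i)) m|) → i ∈ W) →
      c0 * Real.log N ≤ ∑ i ∈ W, 1 / ((i : ℝ) + 1) := by
  obtain ⟨δ, m1, P, hδ, hP⟩ := diag_pairs hX C hC T S hT hS hTS
  obtain ⟨K, N0, hK, h⟩ := hden δ m1 hδ
  refine ⟨K, N0, hK, fun N hN W hW => ?_⟩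
  refine h (fun i m => |co e (S (e m)) i|) P (fun _ _ => abs_nonneg _)
    (fun m hm => (hP m hm).1) (fun m hm i hi => ((hP m hm).2 i hi).2) ?_
    (fun μ => choice_SB hX C hC S hS μ) N hN W ?_
  · intro i E hE
    have hC0 : 0 < C := by linarith
    have h1 : SB (co e (T (e i))) C := by
      intro F hF
      refine (SB_co hX (T (e i)) F hF).trans ((hT _).trans ?_)
      have := norm_e_le hX i
      nlinarith
    have h2 := card_large_le (h := 1 / (4 * C)) h1 (by positivity) E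
      (fun m hm => ((hP m (hE m hm).1).2 i (hE m hm).2).1)
    have h3 : C / (1 / (4 * C)) = 4 * C ^ 2 := by field_simp
    rwa [h3] at h2
  · intro m hm _ i hi hiK
    exact hW i hiK ⟨m, ((hP m hm).2 i hi).1⟩

/-- **Common good columns.** -/
theorem common_columns (C : ℝ) (hC : 1 ≤ C) : ∃ c₁ : ℝ, 0 < c₁ ∧ c₁ ≤ 1 ∧
    ∀ {L : Type} [Fintype L] [Nonempty L] (T S : L → X →L[ℝ] X),
      (∀ l x, ‖T l x‖ ≤ C * ‖x‖) → (∀ l x, ‖S l x‖ ≤ C * ‖x‖) → (∀ l x, T l (S l x) = x) →
      ∀ K0 : ℕ, ∃ i ≥ K0, ∃ W : Finset L, c₁ * Fintype.card L ≤ (W.card : ℝ) ∧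
        ∀ l ∈ W, ∃ m, 1 / (4 * C) ≤ |co e (T l (e i)) m| := by
  classical
  obtain ⟨c0, hc0, hc01, hden⟩ := density_abstract C hC
  refine ⟨c0 / 2, by positivity, by linarith, ?_⟩
  intro L _ _ T S hT hS hTS K0
  by_contra hcon
  push_neg at hcon
  choose K N0 hK hN0 using fun l => b4_one hX C hC c0 hden (T l) (S l) (hT l) (hS l) (hTS l)
  have hcard : (0 : ℝ) < Fintype.card L := by exact_mod_cast Fintype.card_pos
  -- the good columns
  set NF : ℕ → L → Prop := fun i l => ∃ m, 1 / (4 * C) ≤ |co e (T l (e i)) m| with hNF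
  have hfew : ∀ i ≥ K0, ((Finset.univ.filter (NF i)).card : ℝ) ≤ c0 / 2 * Fintype.card L := by
    intro i hi
    by_contra hlt
    push_neg at hlt
    obtain ⟨l, hl, h⟩ := hcon i hi (Finset.univ.filter (NF i)) hlt.le
    obtain ⟨m, hm⟩ := (Finset.mem_filter.1 hl).2
    exact absurd hm (not_le.2 (h m))
  set K1 : ℕ := ∑ l, K l with hK1
  have hKle : ∀ l, K l ≤ K1 := fun l => Finset.single_le_sum (fun _ _ => Nat.zero_le _)
    (Finset.mem_univ l)
  have hK1pos : 1 ≤ K1 := le_trans (hK (Classical.arbitrary L)) (hKle _)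
  have hmain : ∀ N : ℕ, (∀ l, N0 l ≤ N) → 1 ≤ N →
      c0 * Real.log N ≤ K0 + c0 / 2 * (1 + (Real.log K1 + Real.log N)) := by
    intro N hN hN1
    have h1 : ∀ l, c0 * Real.log N ≤
        ∑ i ∈ (Finset.range (K1 * N)).filter (fun i => NF i l), 1 / ((i : ℝ) + 1) := by
      intro l
      refine hN0 l N (hN l) _ fun i hi h => ?_
      refine Finset.mem_filter.2 ⟨Finset.mem_range.2 (lt_of_lt_of_le hi ?_), h⟩
      exact Nat.mul_le_mul_right _ (hKle l)
    have h2 : (Fintype.card L : ℝ) * (c0 * Real.log N) ≤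
        ∑ l, ∑ i ∈ (Finset.range (K1 * N)).filter (fun i => NF i l), 1 / ((i : ℝ) + 1) := by
      have := Finset.sum_le_sum (fun l (_ : l ∈ (Finset.univ : Finset L)) => h1 l)
      simpa using this
    have h3 : ∑ l, ∑ i ∈ (Finset.range (K1 * N)).filter (fun i => NF i l), 1 / ((i : ℝ) + 1) =
        ∑ i ∈ Finset.range (K1 * N), ((Finset.univ.filter (NF i)).card : ℝ) *
          (1 / ((i : ℝ) + 1)) := by
      simp_rw [Finset.sum_filter]
      rw [Finset.sum_comm]
      refine Finset.sum_congr rfl fun i _ => ?_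
      rw [← Finset.sum_filter, Finset.sum_const, nsmul_eq_mul]
    have h4 : ∀ i ∈ Finset.range (K1 * N), ((Finset.univ.filter (NF i)).card : ℝ) *
        (1 / ((i : ℝ) + 1)) ≤ (if i < K0 then (Fintype.card L : ℝ) else 0) +
          c0 / 2 * Fintype.card L * (1 / ((i : ℝ) + 1)) := by
      intro i _
      have hi : (0 : ℝ) < (i : ℝ) + 1 := by positivity
      have hi1 : 1 / ((i : ℝ) + 1) ≤ 1 := by
        rw [div_le_one hi]; linarith [Nat.cast_nonneg (α := ℝ) i]
      have hi0 : 0 ≤ 1 / ((i : ℝ) + 1) := by positivity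
      by_cases h : i < K0
      · rw [if_pos h]
        have h5 : ((Finset.univ.filter (NF i)).card : ℝ) ≤ Fintype.card L := by
          exact_mod_cast (Finset.card_le_univ _)
        have h6 : ((Finset.univ.filter (NF i)).card : ℝ) * (1 / ((i : ℝ) + 1)) ≤
            Fintype.card L * 1 := mul_le_mul h5 hi1 hi0 hcard.le
        have h7 : 0 ≤ c0 / 2 * Fintype.card L * (1 / ((i : ℝ) + 1)) := by positivity
        linarith
      · rw [if_neg h, zero_add]
        exact mul_le_mul_of_nonneg_right (hfew i (not_lt.1 h)) hi0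
    have h5 := Finset.sum_le_sum h4
    rw [Finset.sum_add_distrib, ← Finset.mul_sum] at h5
    have h6 : ∑ i ∈ Finset.range (K1 * N), (if i < K0 then (Fintype.card L : ℝ) else 0) ≤
        K0 * Fintype.card L := by
      rw [← Finset.sum_filter, Finset.sum_const, nsmul_eq_mul]
      refine mul_le_mul_of_nonneg_right ?_ hcard.le
      have : ((Finset.range (K1 * N)).filter (fun i => i < K0)).card ≤ K0 := by
        calc _ ≤ (Finset.range K0).card := Finset.card_le_card (fun i hi =>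
              Finset.mem_range.2 (Finset.mem_filter.1 hi).2)
          _ = K0 := Finset.card_range _
      exact_mod_cast this
    have h7 := b4_harm (K1 * N)
    have hlog : Real.log ((K1 * N : ℕ) : ℝ) = Real.log K1 + Real.log N := by
      push_cast
      rw [Real.log_mul]
      · exact_mod_cast (by omega : K1 ≠ 0)
      · exact_mod_cast (by omega : N ≠ 0)
    rw [hlog] at h7
    have h8 : c0 / 2 * Fintype.card L * ∑ i ∈ Finset.range (K1 * N), 1 / ((i : ℝ) + 1) ≤
        c0 / 2 * Fintype.card L * (1 + (Real.log K1 + Real.log N)) :=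
      mul_le_mul_of_nonneg_left h7 (by positivity)
    have h9 : (Fintype.card L : ℝ) * (c0 * Real.log N) ≤
        Fintype.card L * (K0 + c0 / 2 * (1 + (Real.log K1 + Real.log N))) := by
      rw [h3] at h2
      calc _ ≤ _ := h2
        _ ≤ _ := h5
        _ ≤ K0 * Fintype.card L + c0 / 2 * Fintype.card L * (1 + (Real.log K1 + Real.log N)) :=
          add_le_add h6 h8
        _ = _ := by ring
    exact le_of_mul_le_mul_left h9 hcard
  -- the contradiction for large `N`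
  have htend : Tendsto (fun N : ℕ => Real.log (N : ℝ)) atTop atTop :=
    Real.tendsto_log_atTop.comp tendsto_natCast_atTop_atTop
  have hev := htend.eventually_gt_atTop ((K0 + c0 / 2 * (1 + Real.log K1)) / (c0 / 2))
  have hev2 : ∀ᶠ N : ℕ in atTop, (∀ l, N0 l ≤ N) ∧ 1 ≤ N := by
    refine (eventually_all.2 fun l => eventually_ge_atTop (N0 l)).and (eventually_ge_atTop 1)
  obtain ⟨N, h1, h2, h3⟩ := (hev.and hev2).exists
  have h4 := hmain N h2 h3
  rw [div_lt_iff₀ (by positivity)] at h1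
  nlinarith

end Space

end Pool.Agent.Comb7f333f.WPart
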