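import Pool.Agent.Lib.MP_7f333f_an.W.B5a
import Pool.Agent.Lib.MP_7f333f_an.W.B5b
import Pool.Agent.Lib.MP_7f333f_an.W.B5c

set_option autoImplicit false
set_option linter.unusedSectionVars false

/-!
Vectors with small initial coordinates have small sums.
-/

namespace Pool.Agent.Comb7f333f.WPart

open Filter Topology

section Space

variable {X : Type*} [NormedAddCommGroup X] [NormedSpace ℝ X] {e : ℕ → X}

variable (hX : IsCombSpace schreier e)

include hX

/-- B5d: tails are small (uses B5a, B5b, B5c) -/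
theorem exists_tails (C : ℝ) (hC : 1 ≤ C) (T : ℕ → X →L[ℝ] X) (hT : ∀ n x, ‖T n x‖ ≤ C * ‖x‖)
    (hnull : ∀ x k, Tendsto (fun n => co e (T n x) k) atTop (𝓝 0)) (ε : ℝ) (hε : 0 < ε) :
    ∃ (K0 : ℕ) (τ : ℝ), 0 < τ ∧ ∀ y : X, ‖y‖ ≤ C → ∑ s ∈ Finset.range K0, |co e y s| ≤ τ →
      Sm e T ε y := by
  have hC0 : 0 < C := by linarith
  -- unit vectors supported far away
  obtain ⟨K, hK⟩ : ∃ K : ℕ, ∀ x : X, ‖x‖ ≤ 1 → (∀ k < K, co e x k = 0) →
      Sm e T (ε / (2 * C)) x := by
    by_contra hcon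
    push Not at hcon
    obtain ⟨x, z, hz, hx1, hx2, hx3⟩ := exists_blocks hX C hC T hT hnull (ε / (2 * C))
      (by positivity) hcon
    exact blocks_false hX C hC T hT hnull (ε / (2 * C) / 2) (by positivity) x z hz hx1 hx2 hx3
  refine ⟨K, ε / (4 * C), by positivity, fun y hy hyK k => ?_⟩
  set u : X := vec e (Finset.range K) (co e y) with hu
  have hun : ‖u‖ ≤ ε / (4 * C) := by
    refine le_trans ?_ hyK
    rw [hu, vec]
    refine (norm_sum_le _ _).trans (Finset.sum_le_sum fun s _ => ?_)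
    rw [norm_smul, Real.norm_eq_abs]
    exact (mul_le_mul_of_nonneg_left (norm_e_le hX s) (abs_nonneg _)).trans_eq (mul_one _)
  have hvn : ‖(1 / C) • (y - u)‖ ≤ 1 := by
    rw [norm_smul, Real.norm_eq_abs, abs_of_pos (by positivity)]
    have h1 : ‖y - u‖ ≤ C := (norm_sub_tr_le hX y _).trans hy
    calc 1 / C * ‖y - u‖ ≤ 1 / C * C := mul_le_mul_of_nonneg_left h1 (by positivity)
      _ = 1 := by field_simp
  have hv0 : ∀ k < K, co e ((1 / C) • (y - u)) k = 0 := by
    intro k hk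
    rw [co_smul, co_sub, hu, co_vec hX, if_pos (Finset.mem_range.mpr hk), sub_self, mul_zero]
  have h1 := hK _ hvn hv0 k
  filter_upwards [h1, sm_upper hX C hC T hT hnull u k (ε / 4) (by positivity)] with n h2 h3 D hD
  have h4 := h2 D hD
  have h5 := h3 D hD
  have h6 : ∑ s ∈ D, |co e (T n y) s| ≤ C * ∑ s ∈ D, |co e (T n ((1 / C) • (y - u))) s| +
      ∑ s ∈ D, |co e (T n u) s| := by
    rw [Finset.mul_sum, ← Finset.sum_add_distrib]
    refine Finset.sum_le_sum fun s _ => ?_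
    have h7 : co e (T n y) s = C * co e (T n ((1 / C) • (y - u))) s + co e (T n u) s := by
      rw [map_smul, co_smul, map_sub, co_sub]
      field_simp
      ring
    rw [h7]
    refine (abs_add_le _ _).trans ?_
    rw [abs_mul, abs_of_pos hC0]
  have h7 : C * ∑ s ∈ D, |co e (T n ((1 / C) • (y - u))) s| ≤ C * (ε / (2 * C)) :=
    mul_le_mul_of_nonneg_left h4 hC0.le
  have h8 : C * (ε / (2 * C)) = ε / 2 := by field_simp
  have h9 : C * ‖u‖ ≤ ε / 4 := by
    calc C * ‖u‖ ≤ C * (ε / (4 * C)) := mul_le_mul_of_nonneg_left hun hC0.le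
      _ = ε / 4 := by field_simp
  linarith

end Space

end Pool.Agent.Comb7f333f.WPart
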