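import Pool.Agent.Lib.MP_7f333f_an.W.Api

set_option autoImplicit false
set_option linter.unusedSectionVars false

/-!
Sparse choice of columns.
-/

namespace Pool.Agent.Comb7f333f.WPart

open Filter Topology

section Space

variable {X : Type*} [NormedAddCommGroup X] [NormedSpace ℝ X] {e : ℕ → X}

variable (hX : IsCombSpace schreier e)

include hX

theorem b8_step {Ω : Type} [Fintype Ω] (T : Ω → X →L[ℝ] X) (J : Set ℕ) (hJ : J.Infinite)
    (S0 : ℕ) (h : ℝ) (hh : 0 < h) (t : ℕ) : ∃ F : Finset ℕ, F.card = t ∧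
      (∀ i ∈ F, i ∈ J ∧ S0 ≤ i) ∧
      (∀ w s, ∀ i ∈ F, ∀ i' ∈ F, h < |co e (T w (e i)) s| → h < |co e (T w (e i')) s| →
        i = i') ∧
      (∀ w, ∀ i ∈ F, ∀ s < S0, |co e (T w (e i)) s| ≤ h) := by
  classical
  induction t with
  | zero =>
    exact ⟨∅, rfl, fun i hi => absurd hi (Finset.notMem_empty i),
      fun w s i hi => absurd hi (Finset.notMem_empty i),
      fun w i hi => absurd hi (Finset.notMem_empty i)⟩
  | succ t ih =>
    obtain ⟨F, hF1, hF2, hF3, hF4⟩ := ih
    -- the chosen columns are small from `Z` on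
    have h1 : ∀ᶠ s in atTop, ∀ w, ∀ i ∈ F, |co e (T w (e i)) s| < h := by
      rw [eventually_all]
      intro w
      rw [Filter.eventually_all_finset]
      intro i _
      have h2 := (tendsto_co hX (T w (e i))).abs
      rw [abs_zero] at h2
      exact h2.eventually_lt_const hh
    obtain ⟨Z0, hZ0⟩ := eventually_atTop.mp h1
    set Z := max Z0 S0 with hZ
    have h2 : ∀ᶠ i in atTop, ∀ w, ∀ s ∈ Finset.range Z, |co e (T w (e i)) s| < h := by
      rw [eventually_all]
      intro w
      rw [Filter.eventually_all_finset]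
      intro s _
      have h3 := (tendsto_row hX (T w) s).abs
      rw [abs_zero] at h3
      exact h3.eventually_lt_const hh
    obtain ⟨I0, hI0⟩ := eventually_atTop.mp h2
    obtain ⟨i0, hi0J, hi0⟩ := hJ.exists_gt (max (max I0 S0) (F.sup id))
    have hi1 : I0 ≤ i0 := by
      have := (le_max_left I0 S0).trans (le_max_left (max I0 S0) (F.sup id))
      omega
    have hi2 : S0 ≤ i0 := by
      have := (le_max_right I0 S0).trans (le_max_left (max I0 S0) (F.sup id))
      omega
    have hi3 : i0 ∉ F := by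
      intro hmem
      have h3 : i0 ≤ F.sup id := Finset.le_sup (f := id) hmem
      have := le_max_right (max I0 S0) (F.sup id)
      omega
    have hsmall : ∀ w s, s < Z → |co e (T w (e i0)) s| < h := fun w s hs =>
      hI0 i0 hi1 w s (Finset.mem_range.mpr hs)
    have hexcl : ∀ w s, ∀ i ∈ F, h < |co e (T w (e i0)) s| → ¬ h < |co e (T w (e i)) s| := by
      intro w s i hi h3 h4
      have h5 : Z ≤ s := by
        by_contra h6
        exact absurd (hsmall w s (by omega)) (by linarith)
      have h6 := hZ0 s ((le_max_left Z0 S0).trans h5) w i hi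
      linarith
    refine ⟨insert i0 F, by rw [Finset.card_insert_of_notMem hi3, hF1], ?_, ?_, ?_⟩
    · intro i hi
      rcases Finset.mem_insert.mp hi with rfl | hi
      · exact ⟨hi0J, hi2⟩
      · exact hF2 i hi
    · intro w s i hi i' hi' h3 h4
      rw [Finset.mem_insert] at hi hi'
      rcases hi with hi | hi
      · rcases hi' with hi' | hi'
        · rw [hi, hi']
        · rw [hi] at h3
          exact absurd h4 (hexcl w s i' hi' h3)
      · rcases hi' with hi' | hi'
        · rw [hi'] at h4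
          exact absurd h3 (hexcl w s i hi h4)
        · exact hF3 w s i hi i' hi' h3 h4
    · intro w i hi s hs
      rcases Finset.mem_insert.mp hi with rfl | hi
      · exact (hsmall w s (lt_of_lt_of_le hs (le_max_right _ _))).le
      · exact hF4 w i hi s hs

/-- B8: sparse choice of columns -/
theorem sparse (C : ℝ) (hC : 1 ≤ C) {Ω : Type} [Fintype Ω] (T : Ω → X →L[ℝ] X)
    (hT : ∀ w x, ‖T w x‖ ≤ C * ‖x‖) (J : Set ℕ) (hJ : J.Infinite) (N S0 : ℕ) (hN : 1 ≤ N)
    (ρ : ℝ) (hρ : 0 < ρ) (hρ1 : ρ < 1) : ∃ F : Finset ℕ, F.card = N ∧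
      (∀ i ∈ F, i ∈ J ∧ S0 ≤ i) ∧
      (∀ w s, ∀ i ∈ F, ∀ i' ∈ F, ρ / N < |co e (T w (e i)) s| → ρ / N < |co e (T w (e i')) s| →
        i = i') ∧
      (∀ w, ∀ i ∈ F, ∀ s < S0, |co e (T w (e i)) s| ≤ ρ / N) ∧
      ∀ w s, ∑ i ∈ F, |co e (T w (e i)) s| ≤ C + 1 := by
  classical
  have hN' : (0 : ℝ) < N := by exact_mod_cast hN
  obtain ⟨F, hF1, hF2, hF3, hF4⟩ := b8_step hX T J hJ S0 (ρ / N) (by positivity) N
  refine ⟨F, hF1, hF2, hF3, hF4, fun w s => ?_⟩
  rw [← Finset.sum_filter_add_sum_filter_not F (fun i => ρ / N < |co e (T w (e i)) s|)]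
  have h1 : ∑ i ∈ F.filter (fun i => ρ / N < |co e (T w (e i)) s|), |co e (T w (e i)) s| ≤ C := by
    have h2 : ∀ i, |co e (T w (e i)) s| ≤ C := fun i =>
      (abs_co_le hX _ s).trans ((hT w (e i)).trans
        ((mul_le_mul_of_nonneg_left (norm_e_le hX i) (by linarith)).trans_eq (mul_one C)))
    rcases (F.filter (fun i => ρ / N < |co e (T w (e i)) s|)).eq_empty_or_nonempty with h3 | h3
    · rw [h3, Finset.sum_empty]
      linarith
    · obtain ⟨i, hi⟩ := h3
      have h4 : F.filter (fun i => ρ / N < |co e (T w (e i)) s|) = {i} := by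
        ext i'
        rw [Finset.mem_singleton]
        constructor
        · intro hi'
          rw [Finset.mem_filter] at hi hi'
          exact hF3 w s i' hi'.1 i hi.1 hi'.2 hi.2
        · rintro rfl
          exact hi
      rw [h4, Finset.sum_singleton]
      exact h2 i
  have h2 : ∑ i ∈ F.filter (fun i => ¬ ρ / N < |co e (T w (e i)) s|),
      |co e (T w (e i)) s| ≤ 1 := by
    have h3 : ∀ i ∈ F.filter (fun i => ¬ ρ / N < |co e (T w (e i)) s|),
        |co e (T w (e i)) s| ≤ ρ / N := by
      intro i hi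
      rw [Finset.mem_filter, not_lt] at hi
      exact hi.2
    refine (Finset.sum_le_sum h3).trans ?_
    rw [Finset.sum_const, nsmul_eq_mul]
    have h4 : ((F.filter (fun i => ¬ ρ / N < |co e (T w (e i)) s|)).card : ℝ) ≤ N := by
      rw [← hF1]
      exact_mod_cast Finset.card_filter_le _ _
    calc _ ≤ (N : ℝ) * (ρ / N) := mul_le_mul_of_nonneg_right h4 (by positivity)
      _ = ρ := by field_simp
      _ ≤ 1 := hρ1.le
  linarith

end Space

end Pool.Agent.Comb7f333f.WPart
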