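import Pool.Agent.Lib.MP_7f333f_an.W.A5
import Pool.Agent.Lib.MP_7f333f_an.W.A7

set_option autoImplicit false

/-!
Module C1: the mass of the atypical positions.
-/

namespace Pool.Agent.Comb7f333f.WPart

open Filter Topology

section Core

open scoped Classical

variable {C c₁ B₁ C₁ D B₂ Λ : ℝ} {r M : ℕ}

theorem CoreData.atypical (d : CoreData C c₁ B₁ C₁ D B₂ Λ r M) (hC : 1 ≤ C) (hr : 1 ≤ r)
    (c : ℝ) (hc : 0 < c) (hc1 : c ≤ 1) (w : Fin r → Fin M) (j : Fin r) :
    ∑ i ∈ d.good w j,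
      ∑ s ∈ (Finset.range d.Z).filter (fun s => ¬ Typ r C c (d.F j) (d.x w j) i s),
        |d.φ w j i s| * |d.x w j i s| ≤ B₁ * (c * (d.F j).card) := by
  set y : ℕ → ℕ → ℝ := fun i s =>
    if ¬ Typ r C c (d.F j) (d.x w j) i s then d.x w j i s else 0 with hy
  have hmass : ∑ i ∈ d.good w j,
      ∑ s ∈ (Finset.range d.Z).filter (fun s => ¬ Typ r C c (d.F j) (d.x w j) i s),
        |d.φ w j i s| * |d.x w j i s| =
      ∑ i ∈ d.good w j, ∑ s ∈ Finset.range d.Z, |d.φ w j i s| * |y i s| := by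
    refine Finset.sum_congr rfl fun i _ => ?_
    rw [Finset.sum_filter]
    refine Finset.sum_congr rfl fun s _ => ?_
    simp only [hy]
    split_ifs <;> simp
  rw [hmass]
  refine duality (d.good w j) (d.φ w j) y d.Z B₁ (c * (d.F j).card)
    (fun z B hz hzB => d.h3 w j z B hz hzB) fun F _ hF => ?_
  refine le_trans (Finset.sum_le_sum fun s _ => ?_)
    (typ_block (d.F j) (d.x w j) C c hC hc hc1 r hr (fun i hi => d.h0 w j i hi) F hF)
  refine Real.sqrt_le_sqrt ?_
  calc ∑ i ∈ d.good w j, y i s ^ 2 ≤ ∑ i ∈ d.F j, y i s ^ 2 :=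
        Finset.sum_le_sum_of_subset_of_nonneg (d.good_sub w j) fun i _ _ => sq_nonneg _
    _ = ∑ i ∈ (d.F j).filter (fun i => ¬ Typ r C c (d.F j) (d.x w j) i s), d.x w j i s ^ 2 := by
        rw [Finset.sum_filter]
        refine Finset.sum_congr rfl fun i _ => ?_
        simp only [hy]
        split_ifs <;> simp

end Core

end Pool.Agent.Comb7f333f.WPart
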