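import Pool.Agent.Lib.MP_7f333f_an.W.Defs

set_option autoImplicit false

/-!
The good positions in the finite theorem.
-/

namespace Pool.Agent.Comb7f333f.WPart

/-- The good positions for a word `w` and a choice `ii` of indices. -/
def CoreData.Gd {C c₁ B₁ C₁ D B₂ Λ : ℝ} {r M : ℕ} (d : CoreData C c₁ B₁ C₁ D B₂ Λ r M) (c : ℝ)
    (w : Fin r → Fin M) (ii : Fin r → ℕ) (j : Fin r) (s : ℕ) : Prop :=
  Typ r C c (d.F j) (d.x w j) (ii j) s ∧
    ∀ j' < j, ¬ BadAt C c (d.F j').card (d.x w j' (ii j')) (r * C * d.f j') (d.x w j (ii j) s)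

end Pool.Agent.Comb7f333f.WPart
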