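import Pool.Agent.Lib.MP_7f333f_an.W.A4
import Pool.Agent.Lib.MP_7f333f_an.W.GdDefs

set_option autoImplicit false

/-!
The bad mass of a pair of levels.
-/

namespace Pool.Agent.Comb7f333f.WPart

open Filter Topology

section Core

open scoped Classical

variable {C c₁ B₁ C₁ D B₂ Λ : ℝ} {r M : ℕ}

/-- The number of the parameters for which a given coordinate is bad. -/
theorem k2_count (d : CoreData C c₁ B₁ C₁ D B₂ Λ r M) (hC : 1 ≤ C)
    (c : ℝ) (hc : 0 < c) (hΛ : r * C ^ 2 / (c * (c ^ 2 / (16 * C))) ≤ Λ) (M0 : ℕ)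
    (hM0 : ∀ v : Fin M → ℕ → ℝ,
      (∀ θ : Fin M → ℝ, IsSign θ → SB (fun s => ∑ a, θ a * v a s) D) → ∀ p : ℕ, 1 ≤ p →
        (Finset.univ.filter fun a => ∃ F, PP p F ∧ c / 2 ≤ ∑ s ∈ F, |v a s|).card ≤ M0)
    (w : Fin r → Fin M) (j' j : Fin r) (hj : j' < j) (i' : ℕ) (hi' : i' ∈ d.F j') (t : ℝ) :
    (Finset.univ.filter fun a => BadAt C c (d.F j').card
      (d.x (Function.update w j a) j' i') (r * C * d.f j') t).card ≤ 2 * M0 := by
  have hC0 : 0 < C := by linarith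
  have hN : 1 ≤ (d.F j').card := Finset.card_pos.mpr (d.F_ne j')
  by_cases ht : t = 0
  · rw [Finset.card_eq_zero.mpr]
    · exact Nat.zero_le _
    · rw [Finset.filter_eq_empty_iff]
      rintro a - ⟨q, _, hq, _⟩
      rw [ht, abs_zero, mul_zero] at hq
      linarith
  have hv : 0 < |t| := abs_pos.mpr ht
  obtain ⟨v, hvdef⟩ : ∃ v, v = |t| := ⟨_, rfl⟩
  rw [← hvdef] at hv
  obtain ⟨a0, ha0⟩ : ∃ a0, a0 = ⌈c / v⌉₊ := ⟨_, rfl⟩
  obtain ⟨b0, hb0⟩ : ∃ b0, b0 = ⌊(r * C * d.f j') / v⌋₊ := ⟨_, rfl⟩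
  have hY : 0 ≤ r * C * (d.f j' : ℝ) := by positivity
  have h1a : 1 ≤ a0 := by
    rw [ha0]
    exact Nat.ceil_pos.mpr (div_pos hc hv)
  have hcv : c / v ≤ a0 := by rw [ha0]; exact Nat.le_ceil _
  have hbv : (b0 : ℝ) ≤ (r * C * d.f j') / v := by
    rw [hb0]; exact Nat.floor_le (div_nonneg hY hv.le)
  have hab : C * b0 ≤ c ^ 2 / (16 * C) * (d.F j').card * a0 := by
    have h1 := d.hn j'
    have hf : (0 : ℝ) ≤ d.f j' := Nat.cast_nonneg _
    have h2 : r * C ^ 2 / (c * (c ^ 2 / (16 * C))) * (d.f j' : ℝ) ≤ (d.F j').card :=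
      (mul_le_mul_of_nonneg_right hΛ hf).trans h1
    have hpos : 0 < c * (c ^ 2 / (16 * C)) := by positivity
    have h3 : r * C ^ 2 * (d.f j' : ℝ) ≤ (c * (c ^ 2 / (16 * C))) * (d.F j').card := by
      calc r * C ^ 2 * (d.f j' : ℝ)
          = (c * (c ^ 2 / (16 * C))) *
            (r * C ^ 2 / (c * (c ^ 2 / (16 * C))) * (d.f j' : ℝ)) := by
            field_simp
        _ ≤ _ := mul_le_mul_of_nonneg_left h2 hpos.le
    calc C * b0 ≤ C * ((r * C * d.f j') / v) := mul_le_mul_of_nonneg_left hbv hC0.le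
      _ = (r * C ^ 2 * (d.f j' : ℝ)) / v := by ring
      _ ≤ ((c * (c ^ 2 / (16 * C))) * (d.F j').card) / v :=
          div_le_div_of_nonneg_right h3 hv.le
      _ = (c ^ 2 / (16 * C) * (d.F j').card) * (c / v) := by ring
      _ ≤ (c ^ 2 / (16 * C) * (d.F j').card) * a0 :=
          mul_le_mul_of_nonneg_left hcv (by positivity)
  by_cases hb1 : 1 ≤ b0
  · have hsub : (Finset.univ.filter fun a => BadAt C c (d.F j').card
        (d.x (Function.update w j a) j' i') (r * C * d.f j') t) ⊆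
        (Finset.univ.filter fun a => ∃ F, PP a0 F ∧
          c / 2 ≤ ∑ s ∈ F, |(fun a => d.x (Function.update w j a) j' i') a s|) ∪
        (Finset.univ.filter fun a => ∃ F, PP b0 F ∧
          c / 2 ≤ ∑ s ∈ F, |(fun a => d.x (Function.update w j a) j' i') a s|) := by
      intro a ha
      rw [Finset.mem_filter] at ha
      obtain ⟨-, q, hq1, hq2, hq3, hTC⟩ := ha
      rw [← hvdef] at hq2 hq3
      have haq : a0 ≤ q := by
        rw [ha0, Nat.ceil_le]
        exact (div_le_iff₀ hv).mpr hq2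
      have hqb : q ≤ b0 := by
        rw [hb0]
        exact Nat.le_floor ((le_div_iff₀ hv).mpr hq3)
      obtain ⟨F, hF, hF2⟩ := two_points (d.x (Function.update w j a) j' i') C c
        (d.F j').card hC0 hc hN (d.h0 _ _ _ hi') a0 q b0 h1a haq hqb hab hTC
      rw [Finset.mem_union, Finset.mem_filter, Finset.mem_filter]
      rcases hF with hF | hF
      · exact Or.inl ⟨Finset.mem_univ _, F, hF, hF2⟩
      · exact Or.inr ⟨Finset.mem_univ _, F, hF, hF2⟩
    refine (Finset.card_le_card hsub).trans ((Finset.card_union_le _ _).trans ?_)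
    have h1 := hM0 (fun a => d.x (Function.update w j a) j' i')
      (fun θ hθ => d.h6 w j' j hj i' hi' θ hθ) a0 h1a
    have h2 := hM0 (fun a => d.x (Function.update w j a) j' i')
      (fun θ hθ => d.h6 w j' j hj i' hi' θ hθ) b0 hb1
    exact (Nat.add_le_add h1 h2).trans (by omega)
  · rw [Finset.card_eq_zero.mpr]
    · exact Nat.zero_le _
    · rw [Finset.filter_eq_empty_iff]
      rintro a - ⟨q, hq1, _, hq3, _⟩
      rw [← hvdef] at hq3
      apply hb1
      refine hq1.trans ?_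
      rw [hb0]
      exact Nat.le_floor ((le_div_iff₀ hv).mpr hq3)

/-! ### Module C2 (uses A4; `M0` is given by A3 for `c / 2`, `D`) -/

theorem CoreData.bad (d : CoreData C c₁ B₁ C₁ D B₂ Λ r M) (hC : 1 ≤ C) (hr : 1 ≤ r)
    (hC₁ : 0 ≤ C₁) (c : ℝ) (hc : 0 < c) (hΛ : r * C ^ 2 / (c * (c ^ 2 / (16 * C))) ≤ Λ) (M0 : ℕ)
    (hM0 : ∀ v : Fin M → ℕ → ℝ,
      (∀ θ : Fin M → ℝ, IsSign θ → SB (fun s => ∑ a, θ a * v a s) D) → ∀ p : ℕ, 1 ≤ p →
        (Finset.univ.filter fun a => ∃ F, PP p F ∧ c / 2 ≤ ∑ s ∈ F, |v a s|).card ≤ M0)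
    (w : Fin r → Fin M) (j' j : Fin r) (hj : j' < j) (i' : ℕ) (hi' : i' ∈ d.F j') (i : ℕ)
    (hi : i ∈ d.F j) :
    ∑ a ∈ Finset.univ.filter (fun a => i ∈ d.good (Function.update w j a) j),
      ∑ s ∈ (Finset.range d.Z).filter (fun s => BadAt C c (d.F j').card
          (d.x (Function.update w j a) j' i') (r * C * d.f j') (d.x w j i s)),
        |d.φ (Function.update w j a) j i s| * |d.x w j i s| ≤
          2 * M0 * C * C₁ * Real.sqrt M := by
  obtain ⟨y, hy⟩ : ∃ y : Fin M → ℕ → ℝ, y = fun a s =>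
      if BadAt C c (d.F j').card (d.x (Function.update w j a) j' i') (r * C * d.f j')
        (d.x w j i s) then d.x w j i s else 0 := ⟨_, rfl⟩
  have hsum : ∀ s, ∑ a, |y a s| ≤ 2 * M0 * |d.x w j i s| := by
    intro s
    have h1 : ∑ a, |y a s| = ∑ a ∈ Finset.univ.filter (fun a => BadAt C c (d.F j').card
        (d.x (Function.update w j a) j' i') (r * C * d.f j') (d.x w j i s)),
          |d.x w j i s| := by
      rw [Finset.sum_filter]
      refine Finset.sum_congr rfl fun a _ => ?_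
      rw [hy]
      dsimp only
      split_ifs
      · rfl
      · exact abs_zero
    rw [h1, Finset.sum_const, nsmul_eq_mul]
    refine mul_le_mul_of_nonneg_right ?_ (abs_nonneg _)
    exact_mod_cast k2_count d hC c hc hΛ M0 hM0 w j' j hj i' hi' (d.x w j i s)
  have hSB : SB (fun s => ∑ a, |y a s|) (2 * M0 * C) := by
    intro F hF
    calc ∑ s ∈ F, abs (∑ a, |y a s|) ≤ ∑ s ∈ F, 2 * M0 * |d.x w j i s| := by
          refine Finset.sum_le_sum fun s _ => ?_
          rw [abs_of_nonneg (Finset.sum_nonneg fun a _ => abs_nonneg _)]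
          exact hsum s
      _ = 2 * M0 * ∑ s ∈ F, |d.x w j i s| := by rw [Finset.mul_sum]
      _ ≤ 2 * M0 * C := mul_le_mul_of_nonneg_left (d.h0 w j i hi F hF) (by positivity)
  refine le_trans (le_of_eq ?_) ((d.h5 w j i hi y (2 * M0 * C) hSB).trans (le_of_eq (by ring)))
  refine Finset.sum_congr rfl fun a _ => ?_
  rw [Finset.sum_filter]
  refine Finset.sum_congr rfl fun s _ => ?_
  rw [hy]
  dsimp only
  split_ifs
  · rfl
  · rw [abs_zero, mul_zero]

end Core

end Pool.Agent.Comb7f333f.WPart
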