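import Mathlib

set_option autoImplicit false

/-!
Module C3a of the finite theorem: averages over one coordinate.
-/

namespace Pool.Agent.Comb7f333f.WPart

variable {r M : ℕ}

theorem sum_update (j : Fin r) (G : (Fin r → Fin M) → ℝ) :
    ∑ w : Fin r → Fin M, ∑ a : Fin M, G (Function.update w j a) = M * ∑ w, G w := by
  classical
  have h1 : (M : ℝ) * ∑ w, G w = ∑ w : Fin r → Fin M, ∑ _a : Fin M, G w := by
    simp only [Finset.sum_const, Finset.card_univ, Fintype.card_fin, nsmul_eq_mul]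
    rw [← Finset.mul_sum]
  rw [h1, ← Finset.sum_product', ← Finset.sum_product']
  refine Finset.sum_bij' (fun p _ => (Function.update p.1 j p.2, p.1 j))
    (fun p _ => (Function.update p.1 j p.2, p.1 j)) ?_ ?_ ?_ ?_ ?_
  · intro p _; simp
  · intro p _; simp
  · rintro ⟨w, a⟩ _
    simp
  · rintro ⟨w, a⟩ _
    simp
  · rintro ⟨w, a⟩ _
    rfl

theorem sum_update_pi (F : Fin r → Finset ℕ) (j : Fin r) (G : (Fin r → ℕ) → ℝ) :
    ∑ ii ∈ Fintype.piFinset F, ∑ i ∈ F j, G (Function.update ii j i) =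
      (F j).card * ∑ ii ∈ Fintype.piFinset F, G ii := by
  classical
  have h1 : ((F j).card : ℝ) * ∑ ii ∈ Fintype.piFinset F, G ii =
      ∑ ii ∈ Fintype.piFinset F, ∑ _i ∈ F j, G ii := by
    simp only [Finset.sum_const, nsmul_eq_mul]
    rw [← Finset.mul_sum]
  rw [h1, ← Finset.sum_product', ← Finset.sum_product']
  refine Finset.sum_bij' (fun p _ => (Function.update p.1 j p.2, p.1 j))
    (fun p _ => (Function.update p.1 j p.2, p.1 j)) ?_ ?_ ?_ ?_ ?_
  · rintro ⟨ii, i⟩ hp
    rw [Finset.mem_product, Fintype.mem_piFinset] at hp ⊢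
    refine ⟨fun k => ?_, hp.1 j⟩
    by_cases hk : k = j
    · subst hk
      simpa using hp.2
    · simp only [Function.update_of_ne hk]
      exact hp.1 k
  · rintro ⟨ii, i⟩ hp
    rw [Finset.mem_product, Fintype.mem_piFinset] at hp ⊢
    refine ⟨fun k => ?_, hp.1 j⟩
    by_cases hk : k = j
    · subst hk
      simpa using hp.2
    · simp only [Function.update_of_ne hk]
      exact hp.1 k
  · rintro ⟨ii, i⟩ _
    simp
  · rintro ⟨ii, i⟩ _
    simp
  · rintro ⟨ii, i⟩ _
    rfl

end Pool.Agent.Comb7f333f.WPart
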