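import Pool.Agent.Lib.MP_7f333f_an.W.GdDefs
import Pool.Agent.Lib.MP_7f333f_an.W.C3a

set_option autoImplicit false

/-!
Module C3b of the finite theorem: averaging over the words and the choices of indices.
-/

namespace Pool.Agent.Comb7f333f.WPart

open scoped Classical

variable {C c₁ B₁ C₁ D B₂ Λ : ℝ} {r M : ℕ}

private theorem k3b_split (S : Finset ℕ) (g : ℕ → ℝ) (hg : ∀ s, 0 ≤ g s) (P : ℕ → Prop)
    (Q : Fin r → ℕ → Prop) (T : Finset (Fin r)) :
    ∑ s ∈ S, g s ≤ ∑ s ∈ S.filter (fun s => P s ∧ ∀ j ∈ T, ¬ Q j s), g s +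
      ∑ s ∈ S.filter (fun s => ¬ P s), g s + ∑ j ∈ T, ∑ s ∈ S.filter (fun s => Q j s), g s := by
  have h1 : ∑ j ∈ T, ∑ s ∈ S.filter (fun s => Q j s), g s =
      ∑ s ∈ S, ∑ j ∈ T, if Q j s then g s else 0 := by
    rw [Finset.sum_comm]
    exact Finset.sum_congr rfl fun j _ => Finset.sum_filter _ _
  rw [h1, Finset.sum_filter, Finset.sum_filter, ← Finset.sum_add_distrib,
    ← Finset.sum_add_distrib]
  refine Finset.sum_le_sum fun s _ => ?_
  have hnn : ∀ j ∈ T, 0 ≤ (if Q j s then g s else 0) := fun j _ => by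
    split_ifs
    · exact hg s
    · exact le_rfl
  by_cases hP : P s
  · by_cases hQ : ∀ j ∈ T, ¬ Q j s
    · rw [if_pos ⟨hP, hQ⟩, if_neg (not_not.mpr hP)]
      have := Finset.sum_nonneg hnn
      linarith
    · rw [if_neg (fun h => hQ h.2), if_neg (not_not.mpr hP)]
      push Not at hQ
      obtain ⟨j, hj, hjs⟩ := hQ
      have := Finset.single_le_sum hnn hj
      rw [if_pos hjs] at this
      linarith
  · rw [if_neg (fun h => hP h.1), if_pos hP]
    have := Finset.sum_nonneg hnn
    linarith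

/-- The average over the choices of a function of one coordinate. -/
private theorem k3b_pi (F : Fin r → Finset ℕ) (hne : ∀ j, (F j).Nonempty) (j : Fin r)
    (h : ℕ → ℝ) (b : ℝ) (hb : ∑ i ∈ F j, h i ≤ b * (F j).card) :
    ∑ ii ∈ Fintype.piFinset F, h (ii j) ≤ b * (Fintype.piFinset F).card := by
  have h1 := sum_update_pi F j (fun ii => h (ii j))
  have h2 : ∑ ii ∈ Fintype.piFinset F, ∑ i ∈ F j, h ((Function.update ii j i) j) =
      (Fintype.piFinset F).card * ∑ i ∈ F j, h i := by
    rw [Finset.sum_congr rfl fun ii _ => Finset.sum_congr rfl fun i _ => by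
      rw [Function.update_self], Finset.sum_const, nsmul_eq_mul]
  have hpos : (0 : ℝ) < (F j).card := by exact_mod_cast (hne j).card_pos
  have h3 : ((Fintype.piFinset F).card : ℝ) * ∑ i ∈ F j, h i ≤
      (Fintype.piFinset F).card * (b * (F j).card) :=
    mul_le_mul_of_nonneg_left hb (Nat.cast_nonneg _)
  rw [← h2, h1] at h3
  have h4 : ((F j).card : ℝ) * ∑ ii ∈ Fintype.piFinset F, h (ii j) ≤
      (F j).card * (b * (Fintype.piFinset F).card) := by
    calc _ ≤ ((Fintype.piFinset F).card : ℝ) * (b * (F j).card) := h3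
      _ = _ := by ring
  exact le_of_mul_le_mul_left h4 hpos

/-- The average over the words of a function, if the averages over one letter are bounded. -/
private theorem k3b_word (hM : 1 ≤ M) (j : Fin r) (G : (Fin r → Fin M) → ℝ) (b : ℝ)
    (hb : ∀ w, ∑ a, G (Function.update w j a) ≤ b * M) :
    ∑ w, G w ≤ b * (M : ℝ) ^ r := by
  have h1 := sum_update j G
  have h2 : ∑ w : Fin r → Fin M, ∑ a : Fin M, G (Function.update w j a) ≤
      ∑ _w : Fin r → Fin M, b * (M : ℝ) := Finset.sum_le_sum fun w _ => hb w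
  rw [h1, Finset.sum_const, nsmul_eq_mul, Finset.card_univ, Fintype.card_fun, Fintype.card_fin,
    Fintype.card_fin] at h2
  push_cast at h2
  have hpos : (0 : ℝ) < M := by exact_mod_cast hM
  have h3 : (M : ℝ) * ∑ w, G w ≤ M * (b * (M : ℝ) ^ r) := by
    calc _ ≤ (M : ℝ) ^ r * (b * M) := h2
      _ = _ := by ring
  exact le_of_mul_le_mul_left h3 hpos

theorem CoreData.exists_word (d : CoreData C c₁ B₁ C₁ D B₂ Λ r M) (hr : 1 ≤ r) (hM : 1 ≤ M)
    (hc₁ : 0 < c₁) (c : ℝ)
    (hatyp : ∀ w j, ∑ i ∈ d.good w j,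
      ∑ s ∈ (Finset.range d.Z).filter (fun s => ¬ Typ r C c (d.F j) (d.x w j) i s),
        |d.φ w j i s| * |d.x w j i s| ≤ c₁ / 8 * (d.F j).card)
    (hbad : ∀ w j' j, j' < j → ∀ i' ∈ d.F j', ∀ i ∈ d.F j,
      ∑ a ∈ Finset.univ.filter (fun a => i ∈ d.good (Function.update w j a) j),
      ∑ s ∈ (Finset.range d.Z).filter (fun s => BadAt C c (d.F j').card
          (d.x (Function.update w j a) j' i') (r * C * d.f j') (d.x w j i s)),
        |d.φ (Function.update w j a) j i s| * |d.x w j i s| ≤ c₁ / (8 * r) * M) :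
    ∃ (w : Fin r → Fin M) (ii : Fin r → ℕ), (∀ j, ii j ∈ d.F j) ∧
      c₁ * r / 4 ≤ ∑ j ∈ Finset.univ.filter (fun j => ii j ∈ d.good w j),
        ∑ s ∈ (Finset.range d.Z).filter (fun s => d.Gd c w ii j s),
          |d.φ w j (ii j) s| * |d.x w j (ii j) s| := by
  by_contra hcon
  push Not at hcon
  have hr0 : (0 : ℝ) < r := by exact_mod_cast hr
  have hM0 : (0 : ℝ) < M := by exact_mod_cast hM
  have hPne : (Fintype.piFinset d.F).Nonempty := Fintype.piFinset_nonempty.mpr d.F_ne
  have hPpos : (0 : ℝ) < (Fintype.piFinset d.F).card := by exact_mod_cast hPne.card_pos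
  have hMr : (0 : ℝ) < (M : ℝ) ^ r := by positivity
  have hWcard : ((Finset.univ : Finset (Fin r → Fin M)).card : ℝ) = (M : ℝ) ^ r := by
    rw [Finset.card_univ, Fintype.card_fun, Fintype.card_fin, Fintype.card_fin]
    push_cast
    rfl
  -- the pointwise inequality
  have hpt : ∀ (w : Fin r → Fin M) (ii : Fin r → ℕ), ii ∈ Fintype.piFinset d.F →
      ∑ j, (if ii j ∈ d.good w j then (1 / 2 : ℝ) else 0) ≤
      ∑ j ∈ Finset.univ.filter (fun j => ii j ∈ d.good w j),
        ∑ s ∈ (Finset.range d.Z).filter (fun s => d.Gd c w ii j s),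
          |d.φ w j (ii j) s| * |d.x w j (ii j) s| +
      ∑ j, (if ii j ∈ d.good w j then ∑ s ∈ (Finset.range d.Z).filter
        (fun s => ¬ Typ r C c (d.F j) (d.x w j) (ii j) s),
          |d.φ w j (ii j) s| * |d.x w j (ii j) s| else 0) +
      ∑ j, ∑ j' ∈ Finset.univ.filter (fun j' => j' < j), (if ii j ∈ d.good w j then
        ∑ s ∈ (Finset.range d.Z).filter (fun s => BadAt C c (d.F j').card
          (d.x w j' (ii j')) (r * C * d.f j') (d.x w j (ii j) s)),
          |d.φ w j (ii j) s| * |d.x w j (ii j) s| else 0) := by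
    intro w ii hii
    rw [Finset.sum_filter, ← Finset.sum_add_distrib, ← Finset.sum_add_distrib]
    refine Finset.sum_le_sum fun j _ => ?_
    by_cases hg : ii j ∈ d.good w j
    · simp only [if_pos hg]
      have h1 := d.h1 w j (ii j) hg
      have h2 := k3b_split (Finset.range d.Z) (fun s => |d.φ w j (ii j) s| * |d.x w j (ii j) s|)
        (fun s => by positivity) (fun s => Typ r C c (d.F j) (d.x w j) (ii j) s)
        (fun j' s => BadAt C c (d.F j').card (d.x w j' (ii j')) (r * C * d.f j')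
          (d.x w j (ii j) s)) (Finset.univ.filter (fun j' => j' < j))
      have h3 : (Finset.range d.Z).filter (fun s => d.Gd c w ii j s) = (Finset.range d.Z).filter
          (fun s => Typ r C c (d.F j) (d.x w j) (ii j) s ∧
            ∀ j' ∈ Finset.univ.filter (fun j' => j' < j), ¬ BadAt C c (d.F j').card
              (d.x w j' (ii j')) (r * C * d.f j') (d.x w j (ii j) s)) := by
        ext s
        simp only [Finset.mem_filter, CoreData.Gd, Finset.mem_univ, true_and]
      rw [h3]
      linarith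
    · simp only [if_neg hg]
      simp
  -- the sums
  have hS1 : (Fintype.piFinset d.F).card * ((M : ℝ) ^ r * (r * (c₁ / 2))) ≤
      ∑ ii ∈ Fintype.piFinset d.F, ∑ w : Fin r → Fin M,
        ∑ j, (if ii j ∈ d.good w j then (1 / 2 : ℝ) else 0) := by
    rw [← nsmul_eq_mul, ← Finset.sum_const]
    refine Finset.sum_le_sum fun ii hii => ?_
    rw [Finset.sum_comm]
    have h1 : ∀ j : Fin r, (M : ℝ) ^ r * (c₁ / 2) ≤
        ∑ w : Fin r → Fin M, (if ii j ∈ d.good w j then (1 / 2 : ℝ) else 0) := by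
      intro j
      have h2 := d.h2 j (ii j) (Fintype.mem_piFinset.mp hii j)
      rw [← Finset.sum_filter, Finset.sum_const, nsmul_eq_mul]
      linarith
    have h3 := Finset.sum_le_sum fun j (_ : j ∈ (Finset.univ : Finset (Fin r))) => h1 j
    rw [Finset.sum_const, Finset.card_univ, Fintype.card_fin, nsmul_eq_mul] at h3
    calc (M : ℝ) ^ r * (r * (c₁ / 2)) = r * ((M : ℝ) ^ r * (c₁ / 2)) := by ring
      _ ≤ _ := h3
  have hS2 : ∑ ii ∈ Fintype.piFinset d.F, ∑ w : Fin r → Fin M,
      ∑ j, (if ii j ∈ d.good w j then ∑ s ∈ (Finset.range d.Z).filter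
        (fun s => ¬ Typ r C c (d.F j) (d.x w j) (ii j) s),
          |d.φ w j (ii j) s| * |d.x w j (ii j) s| else 0) ≤
      (M : ℝ) ^ r * (r * (c₁ / 8 * (Fintype.piFinset d.F).card)) := by
    rw [Finset.sum_comm]
    have h1 : ∀ w : Fin r → Fin M, ∑ ii ∈ Fintype.piFinset d.F,
        ∑ j, (if ii j ∈ d.good w j then ∑ s ∈ (Finset.range d.Z).filter
        (fun s => ¬ Typ r C c (d.F j) (d.x w j) (ii j) s),
          |d.φ w j (ii j) s| * |d.x w j (ii j) s| else 0) ≤
        r * (c₁ / 8 * (Fintype.piFinset d.F).card) := by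
      intro w
      rw [Finset.sum_comm]
      have h2 : ∀ j : Fin r, ∑ ii ∈ Fintype.piFinset d.F,
          (if ii j ∈ d.good w j then ∑ s ∈ (Finset.range d.Z).filter
            (fun s => ¬ Typ r C c (d.F j) (d.x w j) (ii j) s),
            |d.φ w j (ii j) s| * |d.x w j (ii j) s| else 0) ≤
          c₁ / 8 * (Fintype.piFinset d.F).card := by
        intro j
        refine k3b_pi d.F d.F_ne j (fun i => if i ∈ d.good w j then
          ∑ s ∈ (Finset.range d.Z).filter
            (fun s => ¬ Typ r C c (d.F j) (d.x w j) i s),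
            |d.φ w j i s| * |d.x w j i s| else 0) (c₁ / 8) ?_
        refine le_trans (le_of_eq ?_) (hatyp w j)
        rw [← Finset.sum_filter]
        refine Finset.sum_congr ?_ fun _ _ => rfl
        ext i
        simp only [Finset.mem_filter]
        exact ⟨fun h => h.2, fun h => ⟨d.good_sub w j h, h⟩⟩
      have h3 := Finset.sum_le_sum fun j (_ : j ∈ (Finset.univ : Finset (Fin r))) => h2 j
      rw [Finset.sum_const, Finset.card_univ, Fintype.card_fin, nsmul_eq_mul] at h3
      exact h3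
    have h3 := Finset.sum_le_sum fun w (_ : w ∈ (Finset.univ : Finset (Fin r → Fin M))) => h1 w
    rw [Finset.sum_const, nsmul_eq_mul, hWcard] at h3
    exact h3
  have hS3 : ∑ ii ∈ Fintype.piFinset d.F, ∑ w : Fin r → Fin M,
      ∑ j, ∑ j' ∈ Finset.univ.filter (fun j' => j' < j), (if ii j ∈ d.good w j then
        ∑ s ∈ (Finset.range d.Z).filter (fun s => BadAt C c (d.F j').card
          (d.x w j' (ii j')) (r * C * d.f j') (d.x w j (ii j) s)),
          |d.φ w j (ii j) s| * |d.x w j (ii j) s| else 0) ≤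
      (Fintype.piFinset d.F).card * (r * (r * (c₁ / (8 * r) * (M : ℝ) ^ r))) := by
    refine (Finset.sum_le_card_nsmul _ _ _ fun ii hii => ?_).trans (nsmul_eq_mul _ _).le
    rw [Finset.sum_comm]
    have hmem := Fintype.mem_piFinset.mp hii
    have h0 : 0 ≤ c₁ / (8 * r) * (M : ℝ) ^ r := by positivity
    have h1 : ∀ j : Fin r, ∑ w : Fin r → Fin M, ∑ j' ∈ Finset.univ.filter (fun j' => j' < j),
        (if ii j ∈ d.good w j then
        ∑ s ∈ (Finset.range d.Z).filter (fun s => BadAt C c (d.F j').card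
          (d.x w j' (ii j')) (r * C * d.f j') (d.x w j (ii j) s)),
          |d.φ w j (ii j) s| * |d.x w j (ii j) s| else 0) ≤
        r * (c₁ / (8 * r) * (M : ℝ) ^ r) := by
      intro j
      rw [Finset.sum_comm]
      have h2 : ∀ j' ∈ Finset.univ.filter (fun j' => j' < j), ∑ w : Fin r → Fin M,
          (if ii j ∈ d.good w j then
          ∑ s ∈ (Finset.range d.Z).filter (fun s => BadAt C c (d.F j').card
            (d.x w j' (ii j')) (r * C * d.f j') (d.x w j (ii j) s)),
            |d.φ w j (ii j) s| * |d.x w j (ii j) s| else 0) ≤ c₁ / (8 * r) * (M : ℝ) ^ r := by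
        intro j' hj'
        have hjj : j' < j := (Finset.mem_filter.mp hj').2
        refine k3b_word hM j (fun w => if ii j ∈ d.good w j then
          ∑ s ∈ (Finset.range d.Z).filter (fun s => BadAt C c (d.F j').card
            (d.x w j' (ii j')) (r * C * d.f j') (d.x w j (ii j) s)),
            |d.φ w j (ii j) s| * |d.x w j (ii j) s| else 0) _ fun w => ?_
        refine le_trans (le_of_eq ?_) (hbad w j' j hjj (ii j') (hmem j') (ii j) (hmem j))
        rw [Finset.sum_filter]
        refine Finset.sum_congr rfl fun a _ => ?_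
        have hx : d.x (Function.update w j a) j (ii j) = d.x w j (ii j) :=
          d.dep _ _ j (ii j) fun k hk => Function.update_of_ne (ne_of_gt hk) _ _
        rw [hx]
      have h3 := Finset.sum_le_sum h2
      rw [Finset.sum_const, nsmul_eq_mul] at h3
      refine h3.trans (mul_le_mul_of_nonneg_right ?_ h0)
      have h4 := Finset.card_le_univ (Finset.univ.filter (fun j' : Fin r => j' < j))
      rw [Fintype.card_fin] at h4
      exact_mod_cast h4
    have h3 := Finset.sum_le_sum fun j (_ : j ∈ (Finset.univ : Finset (Fin r))) => h1 j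
    rw [Finset.sum_const, Finset.card_univ, Fintype.card_fin, nsmul_eq_mul] at h3
    exact h3
  have hS4 : ∑ ii ∈ Fintype.piFinset d.F, ∑ w : Fin r → Fin M,
      ∑ j ∈ Finset.univ.filter (fun j => ii j ∈ d.good w j),
        ∑ s ∈ (Finset.range d.Z).filter (fun s => d.Gd c w ii j s),
          |d.φ w j (ii j) s| * |d.x w j (ii j) s| <
      (Fintype.piFinset d.F).card * ((M : ℝ) ^ r * (c₁ * r / 4)) := by
    rw [← nsmul_eq_mul, ← Finset.sum_const]
    refine Finset.sum_lt_sum_of_nonempty hPne fun ii hii => ?_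
    rw [← hWcard, ← nsmul_eq_mul, ← Finset.sum_const]
    haveI : Nonempty (Fin r → Fin M) := ⟨fun _ => ⟨0, hM⟩⟩
    refine Finset.sum_lt_sum_of_nonempty Finset.univ_nonempty fun w _ => ?_
    exact hcon w ii fun j => Fintype.mem_piFinset.mp hii j
  -- conclusion
  have hall : ∑ ii ∈ Fintype.piFinset d.F, ∑ w : Fin r → Fin M,
        ∑ j, (if ii j ∈ d.good w j then (1 / 2 : ℝ) else 0) ≤
      ∑ ii ∈ Fintype.piFinset d.F, ∑ w : Fin r → Fin M,
      ∑ j ∈ Finset.univ.filter (fun j => ii j ∈ d.good w j),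
        ∑ s ∈ (Finset.range d.Z).filter (fun s => d.Gd c w ii j s),
          |d.φ w j (ii j) s| * |d.x w j (ii j) s| +
      ∑ ii ∈ Fintype.piFinset d.F, ∑ w : Fin r → Fin M,
      ∑ j, (if ii j ∈ d.good w j then ∑ s ∈ (Finset.range d.Z).filter
        (fun s => ¬ Typ r C c (d.F j) (d.x w j) (ii j) s),
          |d.φ w j (ii j) s| * |d.x w j (ii j) s| else 0) +
      ∑ ii ∈ Fintype.piFinset d.F, ∑ w : Fin r → Fin M,
      ∑ j, ∑ j' ∈ Finset.univ.filter (fun j' => j' < j), (if ii j ∈ d.good w j then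
        ∑ s ∈ (Finset.range d.Z).filter (fun s => BadAt C c (d.F j').card
          (d.x w j' (ii j')) (r * C * d.f j') (d.x w j (ii j) s)),
          |d.φ w j (ii j) s| * |d.x w j (ii j) s| else 0) := by
    rw [← Finset.sum_add_distrib, ← Finset.sum_add_distrib]
    refine Finset.sum_le_sum fun ii hii => ?_
    rw [← Finset.sum_add_distrib, ← Finset.sum_add_distrib]
    exact Finset.sum_le_sum fun w _ => hpt w ii hii
  have hfin : (Fintype.piFinset d.F).card * ((M : ℝ) ^ r * (r * (c₁ / 2))) <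
      (Fintype.piFinset d.F).card * ((M : ℝ) ^ r * (c₁ * r / 4)) +
      (M : ℝ) ^ r * (r * (c₁ / 8 * (Fintype.piFinset d.F).card)) +
      (Fintype.piFinset d.F).card * (r * (r * (c₁ / (8 * r) * (M : ℝ) ^ r))) := by
    linarith
  have heq : (r : ℝ) * (r * (c₁ / (8 * r) * (M : ℝ) ^ r)) = (M : ℝ) ^ r * (r * (c₁ / 8)) := by
    field_simp
  rw [heq] at hfin
  have hfin2 : ((Fintype.piFinset d.F).card : ℝ) * ((M : ℝ) ^ r * (r * (c₁ / 2))) =
      (Fintype.piFinset d.F).card * ((M : ℝ) ^ r * (c₁ * r / 4)) +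
      (M : ℝ) ^ r * (r * (c₁ / 8 * (Fintype.piFinset d.F).card)) +
      (Fintype.piFinset d.F).card * ((M : ℝ) ^ r * (r * (c₁ / 8))) := by ring
  linarith

end Pool.Agent.Comb7f333f.WPart
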