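import Pool.Agent.Lib.MP_7f333f_an.W.GdDefs
import Pool.Agent.Lib.MP_7f333f_an.W.A7

set_option autoImplicit false

/-!
Module C4: the Schreier set captured by many levels.
-/

namespace Pool.Agent.Comb7f333f.WPart

open Filter Topology

section Core

open scoped Classical

variable {C c₁ B₁ C₁ D B₂ Λ : ℝ} {r M : ℕ}

private theorem k4_empty : (∅ : Finset ℕ) ∈ schreier := by
  intro k hk
  simp at hk

/-- The square root of a sum of squares is at most the sum of the absolute values. -/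
private theorem k4_sqrt_le {ι : Type*} (I : Finset ι) (a : ι → ℝ) :
    Real.sqrt (∑ i ∈ I, a i ^ 2) ≤ ∑ i ∈ I, |a i| := by
  have h0 : 0 ≤ ∑ i ∈ I, |a i| := Finset.sum_nonneg fun i _ => abs_nonneg _
  rw [Real.sqrt_le_left h0]
  calc ∑ i ∈ I, a i ^ 2 = ∑ i ∈ I, |a i| ^ 2 := by simp [sq_abs]
    _ ≤ (∑ i ∈ I, |a i|) ^ 2 := Finset.sum_sq_le_sq_sum_of_nonneg fun i _ => abs_nonneg _

private theorem k4_exists_set {ι : Type*} (I : Finset ι) (φ y : ι → ℕ → ℝ) (Z : ℕ) (B₁ m : ℝ)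
    (hB₁ : 1 ≤ B₁)
    (hφ : ∀ (z : ℕ → ℝ) (B : ℝ), (∀ s, 0 ≤ z s) → SB z B →
      ∑ s ∈ Finset.range Z, Real.sqrt (∑ i ∈ I, φ i s ^ 2) * z s ≤ B₁ * B)
    (hmass : B₁ * m ≤ ∑ i ∈ I, ∑ s ∈ Finset.range Z, |φ i s| * |y i s|) :
    ∃ F : Finset ℕ, F ∈ schreier ∧ m ≤ ∑ s ∈ F, Real.sqrt (∑ i ∈ I, y i s ^ 2) := by
  by_contra hcon
  push Not at hcon
  set FF : Finset (Finset ℕ) := (Finset.range Z).powerset.filter (fun F => F ∈ schreier) with hFF
  have hne : FF.Nonempty := ⟨∅, by simp [hFF, k4_empty]⟩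
  obtain ⟨F₀, hF₀, hmax⟩ := FF.exists_max_image
    (fun F => ∑ s ∈ F, Real.sqrt (∑ i ∈ I, y i s ^ 2)) hne
  have hF₀' : F₀ ∈ schreier := by
    rw [hFF, Finset.mem_filter] at hF₀
    exact hF₀.2
  have h1 := duality I φ y Z B₁ (∑ s ∈ F₀, Real.sqrt (∑ i ∈ I, y i s ^ 2)) hφ
    (fun F hF hFs => hmax F (by
      rw [hFF, Finset.mem_filter, Finset.mem_powerset]
      exact ⟨hF, hFs⟩))
  have h2 := hcon F₀ hF₀'
  have h3 : B₁ * (∑ s ∈ F₀, Real.sqrt (∑ i ∈ I, y i s ^ 2)) < B₁ * m :=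
    mul_lt_mul_of_pos_left h2 (by linarith)
  linarith

theorem CoreData.exists_set (d : CoreData C c₁ B₁ C₁ D B₂ Λ r M) (hr : 1 ≤ r) (hC : 1 ≤ C)
    (hc₁ : 0 < c₁) (hB₁ : 1 ≤ B₁) (c : ℝ) (hc : c = c₁ / (8 * B₁)) (w : Fin r → Fin M)
    (ii : Fin r → ℕ) (hii : ∀ j, ii j ∈ d.F j)
    (hmass : c₁ * r / 4 ≤ ∑ j ∈ Finset.univ.filter (fun j => ii j ∈ d.good w j),
        ∑ s ∈ (Finset.range d.Z).filter (fun s => d.Gd c w ii j s),
          |d.φ w j (ii j) s| * |d.x w j (ii j) s|) :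
    ∃ (F : Finset ℕ) (q : ℕ) (A : Finset (Fin r)), PP q F ∧ 1 ≤ q ∧ c * r / C ≤ A.card ∧
      ∀ j ∈ A, c ≤ ∑ s ∈ F.filter (fun s => d.Gd c w ii j s), |d.x w j (ii j) s| := by
  have hB₁' : 0 < B₁ := by linarith
  have hC' : 0 < C := by linarith
  have hr' : (0 : ℝ) < r := by exact_mod_cast hr
  have hc0 : 0 < c := by rw [hc]; positivity
  have hcB : B₁ * (2 * c * r) = c₁ * r / 4 := by
    rw [hc]; field_simp; ring
  set I : Finset (Fin r) := Finset.univ.filter (fun j => ii j ∈ d.good w j) with hI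
  set y : Fin r → ℕ → ℝ := fun j s => if d.Gd c w ii j s then d.x w j (ii j) s else 0 with hy
  have hmass' : B₁ * (2 * c * r) ≤
      ∑ j ∈ I, ∑ s ∈ Finset.range d.Z, |d.φ w j (ii j) s| * |y j s| := by
    rw [hcB]
    refine hmass.trans (le_of_eq ?_)
    refine Finset.sum_congr rfl fun j _ => ?_
    rw [Finset.sum_filter]
    refine Finset.sum_congr rfl fun s _ => ?_
    simp only [hy]
    split_ifs <;> simp
  obtain ⟨F, hF, hFm⟩ := k4_exists_set I (fun j s => d.φ w j (ii j) s) y d.Z B₁ (2 * c * r) hB₁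
    (fun z B hz hzB => d.h4 w ii hii z B hz hzB) hmass'
  -- the sums over the good positions
  set S : Fin r → ℝ := fun j => ∑ s ∈ F.filter (fun s => d.Gd c w ii j s), |d.x w j (ii j) s|
    with hS
  have hSy : ∀ j, ∑ s ∈ F, |y j s| = S j := by
    intro j
    simp only [hS]
    rw [Finset.sum_filter]
    refine Finset.sum_congr rfl fun s _ => ?_
    simp only [hy]
    split_ifs <;> simp
  have hsum : 2 * c * r ≤ ∑ j ∈ I, S j := by
    calc 2 * c * r ≤ ∑ s ∈ F, Real.sqrt (∑ j ∈ I, y j s ^ 2) := hFm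
      _ ≤ ∑ s ∈ F, ∑ j ∈ I, |y j s| := Finset.sum_le_sum fun s _ => k4_sqrt_le I _
      _ = ∑ j ∈ I, ∑ s ∈ F, |y j s| := Finset.sum_comm
      _ = ∑ j ∈ I, S j := Finset.sum_congr rfl fun j _ => hSy j
  have hSC : ∀ j, S j ≤ C := by
    intro j
    refine le_trans ?_ (d.h0 w j (ii j) (hii j) F hF)
    exact Finset.sum_le_sum_of_subset_of_nonneg (Finset.filter_subset _ _)
      fun s _ _ => abs_nonneg _
  set A : Finset (Fin r) := I.filter (fun j => c ≤ S j) with hA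
  have hsplit : ∑ j ∈ I, S j ≤ A.card * C + r * c := by
    rw [← Finset.sum_filter_add_sum_filter_not I (fun j => c ≤ S j)]
    have h1 : ∑ j ∈ I.filter (fun j => c ≤ S j), S j ≤ A.card * C := by
      rw [← nsmul_eq_mul]
      exact Finset.sum_le_card_nsmul _ _ _ fun j _ => hSC j
    have h2 : ∑ j ∈ I.filter (fun j => ¬ c ≤ S j), S j ≤
        ((I.filter (fun j => ¬ c ≤ S j)).card : ℝ) * c := by
      rw [← nsmul_eq_mul]
      refine Finset.sum_le_card_nsmul _ _ _ fun j hj => ?_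
      rw [Finset.mem_filter, not_le] at hj
      exact hj.2.le
    have h3 : ((I.filter (fun j => ¬ c ≤ S j)).card : ℝ) ≤ r := by
      have : (I.filter (fun j => ¬ c ≤ S j)).card ≤ (Finset.univ : Finset (Fin r)).card :=
        Finset.card_le_card (Finset.subset_univ _)
      rw [Finset.card_univ, Fintype.card_fin] at this
      exact_mod_cast this
    have h4 := mul_le_mul_of_nonneg_right h3 hc0.le
    linarith
  have hAcard : c * r / C ≤ (A.card : ℝ) := by
    rw [div_le_iff₀ hC']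
    linarith
  have hAS : ∀ j ∈ A, c ≤ ∑ s ∈ F.filter (fun s => d.Gd c w ii j s), |d.x w j (ii j) s| := by
    intro j hj
    rw [hA, Finset.mem_filter] at hj
    exact hj.2
  have hFne : F.Nonempty := by
    by_contra hne
    rw [Finset.not_nonempty_iff_eq_empty] at hne
    rw [hne, Finset.sum_empty] at hFm
    have : 0 < 2 * c * r := by positivity
    linarith
  refine ⟨F, F.min' hFne + 1, A, ⟨fun k hk => ?_, hF _ (F.min'_mem hFne)⟩, by omega, hAcard, hAS⟩
  have := F.min'_le k hk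
  omega

end Core

end Pool.Agent.Comb7f333f.WPart
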