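import Pool.Agent.Lib.MP_7f333f_an.W.GdDefs

set_option autoImplicit false

/-!
Module C5 of the finite theorem: two captured levels give a concentrated subfamily.
-/

namespace Pool.Agent.Comb7f333f.WPart

open scoped Classical

variable {C c₁ B₁ C₁ D B₂ Λ : ℝ} {r M : ℕ}

theorem CoreData.full_capture (d : CoreData C c₁ B₁ C₁ D B₂ Λ r M) (hr : 1 ≤ r) (hC : 1 ≤ C)
    (c : ℝ) (hc : 0 < c) (hc1 : c ≤ 1) (hΛ : r * C ^ 2 / (c * (c ^ 2 / (16 * C))) ≤ Λ)
    (w : Fin r → Fin M)
    (ii : Fin r → ℕ) (F : Finset ℕ) (q : ℕ) (hF : PP q F) (hq : 1 ≤ q) (j' j : Fin r)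
    (hj : j' < j)
    (h' : c ≤ ∑ s ∈ F.filter (fun s => d.Gd c w ii j' s), |d.x w j' (ii j') s|)
    (h : c ≤ ∑ s ∈ F.filter (fun s => d.Gd c w ii j s), |d.x w j (ii j) s|) :
    FC r (c / 4) (d.F j) (d.x w j) q (d.f j') := by
  have hq0 : (0 : ℝ) < q := by exact_mod_cast hq
  have hr0 : (0 : ℝ) < r := by exact_mod_cast hr
  have hC0 : (0 : ℝ) < C := by linarith
  -- the first level is typically captured
  have hTC : TC C c (d.F j').card (d.x w j' (ii j')) q := by
    refine ⟨F.filter (fun s => d.Gd c w ii j' s), ⟨?_, ?_⟩, ?_, h'⟩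
    · intro k hk
      exact hF.1 k (Finset.mem_filter.mp hk).1
    · exact (Finset.card_filter_le _ _).trans hF.2
    · intro s hs
      exact (Finset.mem_filter.mp hs).2.1.1
  -- there is a large good coordinate
  obtain ⟨s, hs, hlt⟩ : ∃ s ∈ F.filter (fun s => d.Gd c w ii j s),
      r * C * d.f j' < q * |d.x w j (ii j) s| := by
    by_contra hno
    push Not at hno
    have hsmall : ∀ s ∈ F.filter (fun s => d.Gd c w ii j s),
        |d.x w j (ii j) s| < c / q := by
      intro s hs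
      have h1 := (Finset.mem_filter.mp hs).2.2 j' hj
      have h2 : ¬ c ≤ q * |d.x w j (ii j) s| := by
        intro h3
        exact h1 ⟨q, hq, h3, hno s hs, hTC⟩
      rw [lt_div_iff₀ hq0]
      rw [not_le] at h2
      linarith
    have hne : (F.filter (fun s => d.Gd c w ii j s)).Nonempty := by
      rw [Finset.nonempty_iff_ne_empty]
      intro he
      rw [he, Finset.sum_empty] at h
      linarith
    have h3 : ∑ s ∈ F.filter (fun s => d.Gd c w ii j s), |d.x w j (ii j) s| <
        ∑ _s ∈ F.filter (fun s => d.Gd c w ii j s), c / q :=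
      Finset.sum_lt_sum_of_nonempty hne hsmall
    rw [Finset.sum_const, nsmul_eq_mul] at h3
    have h4 : ((F.filter (fun s => d.Gd c w ii j s)).card : ℝ) ≤ q := by
      exact_mod_cast (Finset.card_filter_le _ _).trans hF.2
    have h5 : ((F.filter (fun s => d.Gd c w ii j s)).card : ℝ) * (c / q) ≤ q * (c / q) :=
      mul_le_mul_of_nonneg_right h4 (by positivity)
    have h6 : (q : ℝ) * (c / q) = c := by field_simp
    linarith
  have hs2 := Finset.mem_filter.mp hs
  refine hs2.2.1.2 (d.f j') q (d.f_pos j') ?_ (hF.1 s hs2.1) hlt.le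
  -- the size condition
  have hε : 0 < c ^ 2 / (16 * C) := by positivity
  have h1 : (d.f j' : ℝ) ≤ d.f j := by exact_mod_cast d.f_mono hj.le
  have h2 := d.hn j
  have h3 : r * C ^ 2 ≤ Λ * (c * (c ^ 2 / (16 * C))) := by
    rwa [div_le_iff₀ (by positivity)] at hΛ
  have hf0 : (0 : ℝ) ≤ d.f j := by positivity
  have h4 : r * C ≤ Λ * (c ^ 2 / (16 * C)) := by
    have h5 : r * C * c ≤ r * C ^ 2 := by
      have h6 : c ≤ C := by linarith
      have h7 : 0 ≤ r * C := by positivity
      nlinarith [mul_le_mul_of_nonneg_left h6 h7]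
    have h8 : r * C * c ≤ Λ * (c ^ 2 / (16 * C)) * c := by
      calc r * C * c ≤ r * C ^ 2 := h5
        _ ≤ Λ * (c * (c ^ 2 / (16 * C))) := h3
        _ = Λ * (c ^ 2 / (16 * C)) * c := by ring
    exact le_of_mul_le_mul_right h8 hc
  calc r * C * (d.f j' : ℝ) ≤ r * C * d.f j :=
        mul_le_mul_of_nonneg_left h1 (by positivity)
    _ ≤ Λ * (c ^ 2 / (16 * C)) * d.f j := mul_le_mul_of_nonneg_right h4 hf0
    _ = c ^ 2 / (16 * C) * (Λ * d.f j) := by ring
    _ ≤ c ^ 2 / (16 * C) * (d.F j).card := mul_le_mul_of_nonneg_left h2 hε.le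

end Pool.Agent.Comb7f333f.WPart
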