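import Pool.Agent.Lib.MP_7f333f_an.W.GdDefs
import Pool.Agent.Lib.MP_7f333f_an.W.A1

set_option autoImplicit false

/-!
Module C6: the number of levels is bounded.
-/

namespace Pool.Agent.Comb7f333f.WPart

/-- Cauchy-Schwarz: a sum is at most the square root of the number of terms times the
square root of the sum of squares. -/
private theorem k6_cs {ι : Type*} (A : Finset ι) (a : ι → ℝ) :
    ∑ j ∈ A, a j ≤ Real.sqrt (A.card : ℝ) * Real.sqrt (∑ j ∈ A, a j ^ 2) := by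
  rw [← Real.sqrt_mul (by positivity)]
  refine Real.le_sqrt_of_sq_le ?_
  exact sq_sum_le_card_mul_sum_sq

section Core

open scoped Classical

variable {C c₁ B₁ C₁ D B₂ Λ : ℝ} {r M : ℕ}

private theorem k6_main (d : CoreData C c₁ B₁ C₁ D B₂ Λ r M)
    (hB₂ : 0 < B₂) (c : ℝ) (hc : 0 < c) (w : Fin r → Fin M) (q : ℕ) (A : Finset (Fin r))
    (π : Fin r → Fin r) (hπ : ∀ j ∈ A, π j < j)
    (hπ' : ∀ j' ∈ A, ∀ j ∈ A, j' < j → j' ≤ π j)
    (h : ∀ j ∈ A, FC r (c / 4) (d.F j) (d.x w j) q (d.f (π j))) :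
    (A.card : ℝ) ≤ 48 * B₂ ^ 2 / c ^ 2 := by
  choose! J hJF hJc T hTq hTr hT using h
  set TT : Finset ℕ := A.biUnion T with hTT
  have hTTs : TT ∈ schreier := by
    intro k hk
    obtain ⟨j, hj, hkj⟩ := Finset.mem_biUnion.1 hk
    have h1 : q ≤ k + 1 := hTq j hj k hkj
    have hr : 1 ≤ r := Nat.one_le_iff_ne_zero.2 (by
      rintro rfl
      exact j.elim0)
    have h2 : r * TT.card ≤ r * q := by
      calc r * TT.card ≤ r * ∑ j ∈ A, (T j).card :=
            Nat.mul_le_mul_left _ Finset.card_biUnion_le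
        _ = ∑ j ∈ A, r * (T j).card := Finset.mul_sum _ _ _
        _ ≤ ∑ j ∈ A, q := Finset.sum_le_sum fun j hj => hTr j hj
        _ = A.card * q := by rw [Finset.sum_const, smul_eq_mul]
        _ ≤ r * q := Nat.mul_le_mul_right _ (by
            have := Finset.card_le_univ A
            rwa [Fintype.card_fin] at this)
    have h3 : TT.card ≤ q := Nat.le_of_mul_le_mul_left h2 hr
    exact h3.trans h1
  let v : (Σ _ : Fin r, ℕ) → ℕ → ℝ := fun p s => (1 / (d.f (π p.1) : ℝ)) * d.x w p.1 p.2 s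
  have hSB : SB (fun s => Real.sqrt (∑ p ∈ A.sigma J, v p s ^ 2)) (Real.sqrt 3 * B₂) := by
    refine SB_sqrt (A.sigma J) v B₂ fun θ hθ => ?_
    have h7 := d.h7 w A π hπ hπ' J (fun j hj => ⟨hJF j hj, hJc j hj⟩)
      (fun j i => θ ⟨j, i⟩) (fun j i => hθ ⟨j, i⟩)
    convert h7 using 2 with s
    rw [Finset.sum_sigma]
    refine Finset.sum_congr rfl fun j _ => ?_
    rw [Finset.mul_sum]
    refine Finset.sum_congr rfl fun i _ => ?_
    simp only [v]
    ring
  let a : Fin r → ℕ → ℝ := fun j s =>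
    (1 / (d.f (π j) : ℝ)) * Real.sqrt (∑ i ∈ J j, d.x w j i s ^ 2)
  have ha0 : ∀ j s, 0 ≤ a j s := fun j s => by positivity
  have hsum : ∀ s, ∑ p ∈ A.sigma J, v p s ^ 2 = ∑ j ∈ A, a j s ^ 2 := by
    intro s
    rw [Finset.sum_sigma]
    refine Finset.sum_congr rfl fun j _ => ?_
    simp only [v, a]
    rw [mul_pow, Real.sq_sqrt (Finset.sum_nonneg fun i _ => sq_nonneg _), Finset.mul_sum]
    exact Finset.sum_congr rfl fun i _ => by rw [mul_pow]
  have h1 := hSB TT hTTs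
  have h2 : ∑ s ∈ TT, Real.sqrt (∑ j ∈ A, a j s ^ 2) ≤ Real.sqrt 3 * B₂ := by
    refine le_trans (le_of_eq ?_) h1
    refine Finset.sum_congr rfl fun s _ => ?_
    simp only [hsum]
    rw [abs_of_nonneg (Real.sqrt_nonneg _)]
  have h3 : (A.card : ℝ) * (c / 4) ≤ ∑ s ∈ TT, ∑ j ∈ A, a j s := by
    rw [Finset.sum_comm, ← nsmul_eq_mul, ← Finset.sum_const]
    refine Finset.sum_le_sum fun j hj => ?_
    have h4 : c / 4 ≤ ∑ s ∈ T j, a j s := by
      have h5 := hT j hj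
      have h6 : (0 : ℝ) < d.f (π j) := by exact_mod_cast d.f_pos (π j)
      simp only [a]
      rw [← Finset.mul_sum, one_div, inv_mul_eq_div, le_div_iff₀ h6]
      exact h5
    exact h4.trans (Finset.sum_le_sum_of_subset_of_nonneg
      (Finset.subset_biUnion_of_mem T hj) fun s _ _ => ha0 j s)
  have h4 : ∑ s ∈ TT, ∑ j ∈ A, a j s ≤
      Real.sqrt (A.card : ℝ) * (Real.sqrt 3 * B₂) := by
    calc ∑ s ∈ TT, ∑ j ∈ A, a j s
        ≤ ∑ s ∈ TT, Real.sqrt (A.card : ℝ) * Real.sqrt (∑ j ∈ A, a j s ^ 2) :=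
          Finset.sum_le_sum fun s _ => k6_cs A fun j => a j s
      _ = Real.sqrt (A.card : ℝ) * ∑ s ∈ TT, Real.sqrt (∑ j ∈ A, a j s ^ 2) :=
          (Finset.mul_sum _ _ _).symm
      _ ≤ _ := mul_le_mul_of_nonneg_left h2 (Real.sqrt_nonneg _)
  have h5 := h3.trans h4
  have h6 : Real.sqrt (A.card : ℝ) * Real.sqrt (A.card : ℝ) = A.card :=
    Real.mul_self_sqrt (by positivity)
  have h7 : 0 ≤ Real.sqrt (A.card : ℝ) := Real.sqrt_nonneg _
  have h8 : Real.sqrt (A.card : ℝ) * (c / 4) ≤ Real.sqrt 3 * B₂ := by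
    rcases h7.eq_or_lt with h0 | h0
    · rw [← h0, zero_mul]
      positivity
    · refine le_of_mul_le_mul_left ?_ h0
      calc Real.sqrt (A.card : ℝ) * (Real.sqrt (A.card : ℝ) * (c / 4))
          = A.card * (c / 4) := by rw [← mul_assoc, h6]
        _ ≤ _ := h5
  have h9 : (Real.sqrt (A.card : ℝ) * (c / 4)) ^ 2 ≤ (Real.sqrt 3 * B₂) ^ 2 :=
    pow_le_pow_left₀ (by positivity) h8 2
  rw [mul_pow, mul_pow, Real.sq_sqrt (by positivity), Real.sq_sqrt (by norm_num)] at h9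
  rw [le_div_iff₀ (by positivity)]
  nlinarith

theorem CoreData.card_le (d : CoreData C c₁ B₁ C₁ D B₂ Λ r M) (hr : 1 ≤ r)
    (hB₂ : 0 < B₂) (c : ℝ) (hc : 0 < c) (w : Fin r → Fin M) (q : ℕ) (A : Finset (Fin r))
    (h : ∀ j' ∈ A, ∀ j ∈ A, j' < j → FC r (c / 4) (d.F j) (d.x w j) q (d.f j')) :
    (A.card : ℝ) ≤ 48 * B₂ ^ 2 / c ^ 2 + 1 := by
  rcases A.eq_empty_or_nonempty with rfl | hA
  · rw [Finset.card_empty, Nat.cast_zero]
    positivity
  set m := A.min' hA with hm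
  have hne : ∀ j ∈ A.erase m, (A.filter (· < j)).Nonempty := by
    intro j hj
    refine ⟨m, Finset.mem_filter.2 ⟨A.min'_mem hA, ?_⟩⟩
    exact lt_of_le_of_ne (A.min'_le j (Finset.mem_of_mem_erase hj))
      (Finset.ne_of_mem_erase hj).symm
  let π : Fin r → Fin r := fun j =>
    if hj : (A.filter (· < j)).Nonempty then (A.filter (· < j)).max' hj else j
  have hπmem : ∀ j ∈ A.erase m, π j ∈ A.filter (· < j) := by
    intro j hj
    simp only [π, dif_pos (hne j hj)]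
    exact Finset.max'_mem _ _
  have h1 := k6_main d hB₂ c hc w q (A.erase m) π
    (fun j hj => (Finset.mem_filter.1 (hπmem j hj)).2)
    (fun j' hj' j hj hlt => by
      simp only [π, dif_pos (hne j hj)]
      exact Finset.le_max' _ _ (Finset.mem_filter.2 ⟨Finset.mem_of_mem_erase hj', hlt⟩))
    (fun j hj => h (π j) (Finset.mem_filter.1 (hπmem j hj)).1 j (Finset.mem_of_mem_erase hj)
      (Finset.mem_filter.1 (hπmem j hj)).2)
  have h2 : (A.erase m).card + 1 = A.card := Finset.card_erase_add_one (A.min'_mem hA)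
  have h3 : (A.card : ℝ) = (A.erase m).card + 1 := by exact_mod_cast h2.symm
  linarith

end Core

end Pool.Agent.Comb7f333f.WPart
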