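import Pool.Agent.Lib.MP_7f333f_an.W.A3
import Pool.Agent.Lib.MP_7f333f_an.W.C1
import Pool.Agent.Lib.MP_7f333f_an.W.C2
import Pool.Agent.Lib.MP_7f333f_an.W.C3b
import Pool.Agent.Lib.MP_7f333f_an.W.C4
import Pool.Agent.Lib.MP_7f333f_an.W.C5
import Pool.Agent.Lib.MP_7f333f_an.W.C6

set_option autoImplicit false

/-!
The finite theorem CORE (assembly, helper81).
-/

namespace Pool.Agent.Comb7f333f.WPart

/-! ### CORE -/

theorem core (C c₁ B₁ C₁ D B₂ : ℝ) (hC : 1 ≤ C) (hc₁ : 0 < c₁) (hc₁' : c₁ ≤ 1) (hB₁ : 1 ≤ B₁)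
    (hC₁ : 0 < C₁) (hD : 0 < D) (hB₂ : 0 < B₂) : ∃ (r M : ℕ) (Λ : ℝ), 1 ≤ r ∧ 1 ≤ M ∧ 0 < Λ ∧
      IsEmpty (CoreData C c₁ B₁ C₁ D B₂ Λ r M) := by
  classical
  obtain ⟨c, hc⟩ : ∃ c, c = c₁ / (8 * B₁) := ⟨_, rfl⟩
  have hc0 : 0 < c := by rw [hc]; positivity
  have hcle : c ≤ 1 := by
    rw [hc, div_le_one (by positivity)]
    linarith
  obtain ⟨r, hr⟩ := exists_nat_gt (C / c * (48 * B₂ ^ 2 / c ^ 2 + 1))
  obtain ⟨M0, hM0⟩ := few_captured (c / 2) D (by positivity) hD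
  have hr1 : 1 ≤ r := by
    rcases Nat.eq_zero_or_pos r with h0 | h0
    · exfalso
      rw [h0] at hr
      have : 0 < C / c * (48 * B₂ ^ 2 / c ^ 2 + 1) := by positivity
      norm_num at hr
      linarith
    · exact h0
  have hr' : (0 : ℝ) < r := by exact_mod_cast hr1
  obtain ⟨M', hM'⟩ := exists_nat_gt ((16 * M0 * C * C₁ * r / c₁) ^ 2)
  set M := M' + 1 with hM
  have hMp : (0 : ℝ) < M := by rw [hM]; positivity
  have hMbig : 2 * M0 * C * C₁ * Real.sqrt M ≤ c₁ / (8 * r) * M := by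
    have h1 : (16 * M0 * C * C₁ * r / c₁) ^ 2 ≤ (M : ℝ) := by
      rw [hM]; push_cast; linarith
    have h2 : 16 * M0 * C * C₁ * r / c₁ ≤ Real.sqrt M := Real.le_sqrt_of_sq_le h1
    have h3 : Real.sqrt M * Real.sqrt M = (M : ℝ) := Real.mul_self_sqrt hMp.le
    rw [div_le_iff₀ hc₁] at h2
    have h4 : 0 ≤ Real.sqrt (M : ℝ) := Real.sqrt_nonneg _
    rw [div_mul_eq_mul_div, le_div_iff₀ (by positivity)]
    calc 2 * M0 * C * C₁ * Real.sqrt M * (8 * r) = (16 * M0 * C * C₁ * r) * Real.sqrt M := by ring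
      _ ≤ (Real.sqrt M * c₁) * Real.sqrt M := mul_le_mul_of_nonneg_right h2 h4
      _ = c₁ * (Real.sqrt M * Real.sqrt M) := by ring
      _ = c₁ * M := by rw [h3]
  have hΛ0 : 0 < r * C ^ 2 / (c * (c ^ 2 / (16 * C))) := by positivity
  refine ⟨r, M, r * C ^ 2 / (c * (c ^ 2 / (16 * C))), hr1, by omega, hΛ0, ⟨fun d => ?_⟩⟩
  obtain ⟨w, ii, hii, hmass⟩ := d.exists_word hr1 (by omega) hc₁ c
    (fun w j => (d.atypical hC hr1 c hc0 hcle w j).trans (by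
      have hc' : B₁ * c = c₁ / 8 := by
        rw [hc]; field_simp
      rw [← mul_assoc, hc']))
    (fun w j' j hj i' hi' i hi => (d.bad hC hr1 hC₁.le c hc0 le_rfl M0
      (fun v hv p hp => by convert hM0 M v hv p hp) w j' j hj i' hi' i hi).trans hMbig)
  obtain ⟨F, q, A, hF, hq, hA, hA2⟩ := d.exists_set hr1 hC hc₁ hB₁ c hc w ii hii hmass
  have h1 := d.card_le hr1 hB₂ c hc0 w q A fun j' hj' j hj hjj =>
    d.full_capture hr1 hC c hc0 hcle le_rfl w ii F q hF hq j' j hjj (hA2 j' hj') (hA2 j hj)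
  have h2 : c * r / C ≤ 48 * B₂ ^ 2 / c ^ 2 + 1 := hA.trans h1
  have h3 : (r : ℝ) ≤ C / c * (48 * B₂ ^ 2 / c ^ 2 + 1) := by
    have h4 : (r : ℝ) = C / c * (c * r / C) := by field_simp
    rw [h4]
    exact mul_le_mul_of_nonneg_left h2 (by positivity)
  linarith

end Pool.Agent.Comb7f333f.WPart
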