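import Pool.Agent.Lib.MP_7f333f_an.RP.Weak
import Pool.Agent.Lib.MP_7f333f_an.Neg.Schreier
import Pool.Agent.Lib.MP_7f333f_an.Neg.Ops

set_option autoImplicit false

/-!
Part (W): a bounded group of operators on the Schreier space contains no sequence which tends to
zero coordinatewise.  Definitions shared by the modules.
-/

namespace Pool.Agent.Comb7f333f.WPart

open Filter Topology

/-- All the sums of `|a k|` over the Schreier sets are at most `B` (the norm of `a` is `≤ B`). -/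
def SB (a : ℕ → ℝ) (B : ℝ) : Prop := ∀ F : Finset ℕ, F ∈ schreier → ∑ k ∈ F, |a k| ≤ B

/-- At most `p` positions, all of them `≥ p` (the position of `k` is `k + 1`). -/
def PP (p : ℕ) (F : Finset ℕ) : Prop := (∀ k ∈ F, p ≤ k + 1) ∧ F.card ≤ p

/-- A choice of signs. -/
def IsSign {ι : Type*} (θ : ι → ℝ) : Prop := ∀ i, θ i = 1 ∨ θ i = -1

/-- A concentrated subfamily of `f` of the functions `x i`, `i ∈ I`, from position `p` on. -/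
def FC {ι : Type*} (r : ℕ) (ε₃ : ℝ) (I : Finset ι) (x : ι → ℕ → ℝ) (p f : ℕ) : Prop :=
  ∃ J ⊆ I, J.card = f ∧ ∃ T : Finset ℕ, (∀ s ∈ T, p ≤ s + 1) ∧ r * T.card ≤ p ∧
    ε₃ * f ≤ ∑ s ∈ T, Real.sqrt (∑ i ∈ J, x i s ^ 2)

/-- The coordinate `s` is typical for `x i` in the family `x i'`, `i' ∈ I`. -/
def Typ {ι : Type*} (r : ℕ) (C c : ℝ) (I : Finset ι) (x : ι → ℕ → ℝ) (i : ι) (s : ℕ) : Prop :=
  c ^ 2 / (16 * C) * I.card ≤ ((s : ℝ) + 1) * |x i s| ∧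
    ∀ f p : ℕ, 1 ≤ f → r * C * f ≤ c ^ 2 / (16 * C) * I.card → p ≤ s + 1 →
      r * C * f ≤ p * |x i s| → FC r (c / 4) I x p f

/-- `x` is typically captured at `q` (`N` is the number of vectors of its family). -/
def TC (C c : ℝ) (N : ℕ) (x : ℕ → ℝ) (q : ℕ) : Prop :=
  ∃ F, PP q F ∧ (∀ s ∈ F, c ^ 2 / (16 * C) * N ≤ ((s : ℝ) + 1) * |x s|) ∧ c ≤ ∑ s ∈ F, |x s|

/-- The size `v` is bad for `x'`. -/
def BadAt (C c : ℝ) (N' : ℕ) (x' : ℕ → ℝ) (Y v : ℝ) : Prop :=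
  ∃ q : ℕ, 1 ≤ q ∧ c ≤ q * |v| ∧ q * |v| ≤ Y ∧ TC C c N' x' q

/-- The data which the finite theorem excludes. -/
structure CoreData (C c₁ B₁ C₁ D B₂ Λ : ℝ) (r M : ℕ) where
  Z : ℕ
  F : Fin r → Finset ℕ
  f : Fin r → ℕ
  x : (Fin r → Fin M) → Fin r → ℕ → ℕ → ℝ
  φ : (Fin r → Fin M) → Fin r → ℕ → ℕ → ℝ
  good : (Fin r → Fin M) → Fin r → Finset ℕ
  good_sub : ∀ w j, good w j ⊆ F j
  F_ne : ∀ j, (F j).Nonempty
  f_pos : ∀ j, 1 ≤ f j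
  f_mono : Monotone f
  dep : ∀ w w' j i, (∀ k, j < k → w k = w' k) → x w j i = x w' j i
  h0 : ∀ w j, ∀ i ∈ F j, SB (x w j i) C
  h1 : ∀ w j, ∀ i ∈ good w j, 1 / 2 ≤ ∑ s ∈ Finset.range Z, |φ w j i s| * |x w j i s|
  h2 : ∀ j, ∀ i ∈ F j,
    c₁ * (M : ℝ) ^ r ≤ ((Finset.univ.filter fun w => i ∈ good w j).card : ℝ)
  h3 : ∀ w j (z : ℕ → ℝ) (B : ℝ), (∀ s, 0 ≤ z s) → SB z B →
    ∑ s ∈ Finset.range Z, Real.sqrt (∑ i ∈ good w j, φ w j i s ^ 2) * z s ≤ B₁ * B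
  h4 : ∀ w (ii : Fin r → ℕ), (∀ j, ii j ∈ F j) → ∀ (z : ℕ → ℝ) (B : ℝ), (∀ s, 0 ≤ z s) → SB z B →
    ∑ s ∈ Finset.range Z,
      Real.sqrt (∑ j ∈ Finset.univ.filter (fun j => ii j ∈ good w j), φ w j (ii j) s ^ 2) * z s ≤
        B₁ * B
  h5 : ∀ w j, ∀ i ∈ F j, ∀ (y : Fin M → ℕ → ℝ) (B : ℝ), SB (fun s => ∑ a, |y a s|) B →
    ∑ a ∈ Finset.univ.filter (fun a => i ∈ good (Function.update w j a) j),
      ∑ s ∈ Finset.range Z, |φ (Function.update w j a) j i s| * |y a s| ≤ C₁ * Real.sqrt M * B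
  h6 : ∀ w (j' j : Fin r), j' < j → ∀ i' ∈ F j', ∀ θ : Fin M → ℝ, IsSign θ →
    SB (fun s => ∑ a, θ a * x (Function.update w j a) j' i' s) D
  h7 : ∀ w (A : Finset (Fin r)) (π : Fin r → Fin r), (∀ j ∈ A, π j < j) →
    (∀ j' ∈ A, ∀ j ∈ A, j' < j → j' ≤ π j) → ∀ G : Fin r → Finset ℕ,
    (∀ j ∈ A, G j ⊆ F j ∧ (G j).card = f (π j)) → ∀ θ : Fin r → ℕ → ℝ,
    (∀ j i, θ j i = 1 ∨ θ j i = -1) →
    SB (fun s => ∑ j ∈ A, (1 / (f (π j) : ℝ)) * ∑ i ∈ G j, θ j i * x w j i s) B₂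
  hn : ∀ j, Λ * f j ≤ ((F j).card : ℝ)

section Space

variable {X : Type*} [NormedAddCommGroup X] [NormedSpace ℝ X]

/-- The combination of the basis vectors `e k`, `k ∈ S`, with the coefficients `a k`. -/
noncomputable def vec (e : ℕ → X) (S : Finset ℕ) (a : ℕ → ℝ) : X := ∑ k ∈ S, a k • e k

/-- The coordinates of a vector. -/
noncomputable def co (e : ℕ → X) (x : X) : ℕ → ℝ := fun k => ef e k x

/-- Smallness, along a nonprincipal ultrafilter, of the sums of the coordinates of `T n y` over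
the sets with boundedly many elements. -/
def Sm (e : ℕ → X) (T : ℕ → X →L[ℝ] X) (ε : ℝ) (y : X) : Prop :=
  ∀ k : ℕ, ∀ᶠ n in (hyperfilter ℕ : Filter ℕ), ∀ D : Finset ℕ, D.card ≤ k →
    ∑ s ∈ D, |co e (T n y) s| ≤ ε

/-- The properties of one level of the tower; `q w` is the inverse of the prefix. -/
structure LevelProps {G : Type*} [Group G] (A : G →* (X →L[ℝ] X)) (e : ℕ → X) (C c₁ : ℝ)
    (r M : ℕ) {Ω : Type} [Fintype Ω] (q : Ω → G) (F : Finset ℕ) (kap K : ℕ) : Prop where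
  sum_le : ∀ w s, ∑ i ∈ F, |co e (A (q w) (e i)) s| ≤ C + 1
  tail : ∀ w, ∀ i ∈ F, ∀ E ∈ schreier, (∀ s ∈ E, K ≤ s) →
    ∑ s ∈ E, |co e (A (q w) (e i)) s| ≤ 1 / r
  good : ∀ i ∈ F, ∃ W : Finset Ω, c₁ * Fintype.card Ω ≤ (W.card : ℝ) ∧
    ∀ w ∈ W, ∃ s, 1 / (4 * C) ≤ |co e (A (q w) (e i)) s|
  large : ∀ w, ∀ i ∈ F, ∀ s, 1 / (4 * C) ≤ |co e (A (q w) (e i)) s| →
    F.card ≤ s ∧ r ≤ s ∧ kap ≤ s ∧ s < K
  unique : ∀ w s, ∀ i ∈ F, ∀ i' ∈ F, 1 / (4 * C) ≤ |co e (A (q w) (e i)) s| →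
    1 / (4 * C) ≤ |co e (A (q w) (e i')) s| → i = i'
  row : ∃ R : ℕ, ∀ w, ∀ i ∈ F, ∀ s, 1 / (4 * C) ≤ |co e (A (q w) (e i)) s| →
    ∃ E : Finset ℕ, (∀ k ∈ E, M * R ≤ k) ∧ E.card ≤ R ∧
      ∀ u : X, |co e (A (q w) u) s - ∑ k ∈ E, co e (A (q w) (e k)) s * co e u k| ≤
        (1 / M) * ‖u‖

end Space

/-- One step of the prefix. -/
def stp {r M : ℕ} {G : Type*} [Group G] (g : ℕ → Fin M → G) (w : Fin r → Fin M) (j : ℕ) : G :=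
  if h : j < r then g j (w ⟨j, h⟩) else 1

/-- The prefixes `g_{j-1} ⋯ g_0`. -/
def pre {r M : ℕ} {G : Type*} [Group G] (g : ℕ → Fin M → G) (w : Fin r → Fin M) : ℕ → G
  | 0 => 1
  | j + 1 => stp g w j * pre g w j

/-- The numbers `1 + K 0 + ... + K (j-1)`. -/
def kap (K : ℕ → ℕ) (j : ℕ) : ℕ := 1 + ∑ j' ∈ Finset.range j, K j'

/-- The tower. -/
structure Tower {X : Type*} [NormedAddCommGroup X] [NormedSpace ℝ X] {G : Type*} [Group G]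
    (A : G →* (X →L[ℝ] X)) (e : ℕ → X) (C c₁ Λ : ℝ) (r M : ℕ) where
  g : ℕ → Fin M → G
  F : ℕ → Finset ℕ
  K : ℕ → ℕ
  F_ne : ∀ j < r, (F j).Nonempty
  card_F : ∀ j < r, Λ * 2 ^ r * kap K j ≤ ((F j).card : ℝ)
  lev : ∀ j < r, LevelProps A e C c₁ r M (fun w : Fin r → Fin M => (pre g w (j + 1))⁻¹) (F j)
    (kap K j) (K j)
  signs : ∀ j < r, ∀ w : Fin r → Fin M, ∀ j' < j, ∀ i' ∈ F j', ∀ θ : Fin M → ℝ, IsSign θ →
    ‖∑ a, θ a • A (g j a) (A (pre g w j * (pre g w (j' + 1))⁻¹) (e i'))‖ ≤ C ^ 2 + 1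

end Pool.Agent.Comb7f333f.WPart
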