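import Pool.Agent.Lib.MP_7f333f_an.W.Api
import Pool.Agent.Lib.MP_7f333f_an.W.A1

set_option autoImplicit false
set_option linter.unusedSectionVars false

/-!
The hypotheses (h3) and (h4) of the finite theorem.
-/

namespace Pool.Agent.Comb7f333f.WPart

open Filter Topology

section H

variable {X : Type*} [NormedAddCommGroup X] [NormedSpace ℝ X] {e : ℕ → X}
  (hX : IsCombSpace schreier e)

include hX

/-- The coordinates at distinct large positions. -/
theorem h34_sum_le (y : X) {ι : Type} (I : Finset ι) (sg : ι → ℕ) (hinj : Set.InjOn sg I)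
    (hbig : ∀ i ∈ I, I.card ≤ sg i + 1) : ∑ i ∈ I, |co e y (sg i)| ≤ ‖y‖ := by
  have h1 : I.image sg ∈ schreier := by
    intro k hk
    obtain ⟨i, hi, rfl⟩ := Finset.mem_image.1 hk
    exact Finset.card_image_le.trans (hbig i hi)
  have h2 := SB_co hX y _ h1
  rwa [Finset.sum_image hinj] at h2

/-- H34 (uses A1) -/
theorem h34_lemma (C : ℝ) (hC : 1 ≤ C) (P : X →L[ℝ] X) (hP : ∀ x, ‖P x‖ ≤ C * ‖x‖) {ι : Type}
    (I : Finset ι) (sg : ι → ℕ) (hinj : Set.InjOn sg I) (hbig : ∀ i ∈ I, I.card ≤ sg i + 1)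
    (wt : ι → ℝ) (hwt : ∀ i ∈ I, 1 / (4 * C) ≤ |wt i|) (Z : ℕ) (z : ℕ → ℝ) (B : ℝ)
    (hz : ∀ s, 0 ≤ z s) (hzB : SB z B) :
    ∑ s ∈ Finset.range Z, Real.sqrt (∑ i ∈ I, (co e (P (e s)) (sg i) / wt i) ^ 2) * z s ≤
      4 * Real.sqrt 3 * C ^ 2 * B := by
  have hC0 : 0 < C := by linarith
  have hη : 0 < 1 / (4 * C) := by positivity
  have key : ∀ θ : ι → ℝ, IsSign θ → ∑ s ∈ Finset.range Z,
      |∑ i ∈ I, θ i * (co e (P (e s)) (sg i) / wt i)| * z s ≤ 4 * C ^ 2 * B := by
    intro θ hθ
    set a : ℕ → ℝ := fun s =>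
      SignType.sign (∑ i ∈ I, θ i * (co e (P (e s)) (sg i) / wt i)) * z s with ha
    have haB : SB a B := by
      refine SB_mono hzB fun k => ?_
      rw [ha]
      simp only
      rw [abs_mul]
      have : |((SignType.sign (∑ i ∈ I, θ i * (co e (P (e k)) (sg i) / wt i)) : SignType) : ℝ)|
          ≤ 1 := by
        rcases SignType.trichotomy
          (SignType.sign (∑ i ∈ I, θ i * (co e (P (e k)) (sg i) / wt i))) with h | h | h <;>
          rw [h] <;> simp
      exact mul_le_of_le_one_left (abs_nonneg _) this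
    have hy : ‖vec e (Finset.range Z) a‖ ≤ B := norm_vec_le hX haB
    have h1 : ∑ s ∈ Finset.range Z,
        |∑ i ∈ I, θ i * (co e (P (e s)) (sg i) / wt i)| * z s =
        ∑ i ∈ I, θ i / wt i * co e (P (vec e (Finset.range Z) a)) (sg i) := by
      have h2 : ∀ s, |∑ i ∈ I, θ i * (co e (P (e s)) (sg i) / wt i)| * z s =
          ∑ i ∈ I, θ i / wt i * (a s * co e (P (e s)) (sg i)) := by
        intro s
        rw [← sign_mul_self, ha]
        simp only
        rw [Finset.mul_sum, Finset.sum_mul]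
        refine Finset.sum_congr rfl fun i _ => ?_
        ring
      rw [Finset.sum_congr rfl fun s _ => h2 s, Finset.sum_comm]
      refine Finset.sum_congr rfl fun i _ => ?_
      rw [map_vec, Finset.mul_sum]
    rw [h1]
    have h3 : ∀ i ∈ I, θ i / wt i * co e (P (vec e (Finset.range Z) a)) (sg i) ≤
        4 * C * |co e (P (vec e (Finset.range Z) a)) (sg i)| := by
      intro i hi
      refine (le_abs_self _).trans ?_
      rw [abs_mul]
      refine mul_le_mul_of_nonneg_right ?_ (abs_nonneg _)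
      have h4 : |θ i| = 1 := by rcases hθ i with h | h <;> rw [h] <;> norm_num
      rw [abs_div, h4]
      have h5 := hwt i hi
      rw [div_le_iff₀ (lt_of_lt_of_le hη h5)]
      calc (1 : ℝ) = 4 * C * (1 / (4 * C)) := by field_simp
        _ ≤ 4 * C * |wt i| := mul_le_mul_of_nonneg_left h5 (by positivity)
    calc ∑ i ∈ I, θ i / wt i * co e (P (vec e (Finset.range Z) a)) (sg i)
        ≤ ∑ i ∈ I, 4 * C * |co e (P (vec e (Finset.range Z) a)) (sg i)| :=
          Finset.sum_le_sum h3
      _ = 4 * C * ∑ i ∈ I, |co e (P (vec e (Finset.range Z) a)) (sg i)| := by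
          rw [Finset.mul_sum]
      _ ≤ 4 * C * (C * B) := by
          refine mul_le_mul_of_nonneg_left ?_ (by positivity)
          refine (h34_sum_le hX _ I sg hinj hbig).trans ((hP _).trans ?_)
          exact mul_le_mul_of_nonneg_left hy hC0.le
      _ = 4 * C ^ 2 * B := by ring
  refine (khintchine_weighted I (Finset.range Z) z (fun s _ => hz s)
    (fun i s => co e (P (e s)) (sg i) / wt i) (4 * C ^ 2 * B) key).trans (le_of_eq ?_)
  ring

end H

end Pool.Agent.Comb7f333f.WPart
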