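import Pool.Agent.Lib.MP_7f333f_an.W.Api
import Pool.Agent.Lib.MP_7f333f_an.W.A1

set_option autoImplicit false
set_option linter.unusedSectionVars false

/-!
Part (W), module H5: the hypothesis (h5) of the finite theorem.
-/

namespace Pool.Agent.Comb7f333f.WPart

open Filter Topology

section H5

variable {X : Type*} [NormedAddCommGroup X] [NormedSpace ℝ X] {e : ℕ → X}
  (hX : IsCombSpace schreier e)

include hX

/-- One term: the row of `T`. -/
theorem h5_row (C : ℝ) (hC : 1 ≤ C) (m : ℝ) (T : X →L[ℝ] X) (hT : ∀ x, ‖T x‖ ≤ C * ‖x‖) (sg : ℕ)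
    (E : Finset ℕ)
    (hE : ∀ u : X, |co e (T u) sg - ∑ k ∈ E, co e (T (e k)) sg * co e u k| ≤ m * ‖u‖) (u : X) :
    |co e (T u) sg| ≤ C * ∑ k ∈ E, |co e u k| + m * ‖u‖ := by
  have h1 := hE u
  have h2 : |∑ k ∈ E, co e (T (e k)) sg * co e u k| ≤ C * ∑ k ∈ E, |co e u k| := by
    rw [Finset.mul_sum]
    refine (Finset.abs_sum_le_sum_abs _ _).trans (Finset.sum_le_sum fun k _ => ?_)
    rw [abs_mul]
    refine mul_le_mul_of_nonneg_right ?_ (abs_nonneg _)
    refine (abs_co_le hX _ _).trans ((hT _).trans ?_)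
    have := norm_e_le hX k
    nlinarith
  have h3 := abs_sub_abs_le_abs_sub (co e (T u) sg) (∑ k ∈ E, co e (T (e k)) sg * co e u k)
  linarith

/-- One term of the sum. -/
theorem h5_term (C : ℝ) (T : X →L[ℝ] X) (V : X →L[ℝ] X) (sg : ℕ) (wt : ℝ) (hC : 1 ≤ C)
    (hwt : 1 / (4 * C) ≤ |wt|) (Z : ℕ) (y : ℕ → ℝ) :
    ∃ σ : ℕ → ℝ, (∀ s, |σ s| ≤ |y s|) ∧
      ∑ s ∈ Finset.range Z, |co e (T (V (e s))) sg / wt| * |y s| ≤
        4 * C * |co e (T (V (vec e (Finset.range Z) σ))) sg| := by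
  classical
  refine ⟨fun s => if 0 ≤ co e (T (V (e s))) sg then |y s| else -|y s|, fun s => ?_, ?_⟩
  · beta_reduce
    split_ifs
    · rw [abs_abs]
    · rw [abs_neg, abs_abs]
  · have hpos : 0 < 1 / (4 * C) := by positivity
    have hw : 0 < |wt| := lt_of_lt_of_le hpos hwt
    have h1 : ∑ s ∈ Finset.range Z, |co e (T (V (e s))) sg| * |y s| =
        co e (T (V (vec e (Finset.range Z)
          (fun s => if 0 ≤ co e (T (V (e s))) sg then |y s| else -|y s|)))) sg := by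
      have h2 := map_vec (e := e) (T.comp V) (Finset.range Z)
        (fun s => if 0 ≤ co e (T (V (e s))) sg then |y s| else -|y s|) sg
      simp only [ContinuousLinearMap.comp_apply] at h2
      rw [h2]
      refine Finset.sum_congr rfl fun s _ => ?_
      split_ifs with hs
      · rw [abs_of_nonneg hs, mul_comm]
      · rw [abs_of_neg (not_le.mp hs)]
        ring
    have h3 : ∑ s ∈ Finset.range Z, |co e (T (V (e s))) sg / wt| * |y s| =
        (∑ s ∈ Finset.range Z, |co e (T (V (e s))) sg| * |y s|) / |wt| := by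
      rw [Finset.sum_div]
      refine Finset.sum_congr rfl fun s _ => ?_
      rw [abs_div]
      ring
    rw [h3, h1, div_le_iff₀ hw]
    have h4 : 1 ≤ 4 * C * |wt| := by
      rw [div_le_iff₀ (by positivity)] at hwt
      linarith
    refine (le_abs_self _).trans ?_
    have h5 := abs_nonneg (co e (T (V (vec e (Finset.range Z)
          (fun s => if 0 ≤ co e (T (V (e s))) sg then |y s| else -|y s|)))) sg)
    nlinarith

/-- The union of the rows. -/
theorem h5_union (C : ℝ) (hC : 1 ≤ C) (M R : ℕ) (I : Finset (Fin M))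
    (V : X →L[ℝ] X) (hV : ∀ x, ‖V x‖ ≤ C * ‖x‖) (E : Fin M → Finset ℕ)
    (hE : ∀ a ∈ I, (∀ k ∈ E a, M * R ≤ k) ∧ (E a).card ≤ R)
    (Z : ℕ) (y σ : Fin M → ℕ → ℝ) (hσ : ∀ a s, |σ a s| ≤ |y a s|)
    (B : ℝ) (hy : SB (fun s => ∑ a, |y a s|) B) :
    ∑ a ∈ I, ∑ k ∈ E a, |co e (V (vec e (Finset.range Z) (σ a))) k| ≤
      Real.sqrt 3 * (C * B) * Real.sqrt M := by
  classical
  have hB : 0 ≤ B := SB_nonneg hy
  set U : Finset ℕ := I.biUnion E with hU
  have hUS : U ∈ schreier := by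
    intro k hk
    rw [hU, Finset.mem_biUnion] at hk
    obtain ⟨a, ha, hka⟩ := hk
    have h1 := (hE a ha).1 k hka
    have h2 : U.card ≤ M * R := by
      refine Finset.card_biUnion_le.trans ?_
      refine (Finset.sum_le_sum fun b hb => (hE b hb).2).trans ?_
      rw [Finset.sum_const, smul_eq_mul]
      refine Nat.mul_le_mul_right _ ?_
      calc I.card ≤ (Finset.univ : Finset (Fin M)).card := Finset.card_le_card (Finset.subset_univ _)
        _ = M := by rw [Finset.card_univ, Fintype.card_fin]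
    omega
  set u : Fin M → X := fun a => V (vec e (Finset.range Z) (σ a)) with hu
  have h1 : ∑ a ∈ I, ∑ k ∈ E a, |co e (u a) k| ≤ ∑ k ∈ U, ∑ a ∈ I, |co e (u a) k| := by
    rw [Finset.sum_comm (s := U)]
    refine Finset.sum_le_sum fun a ha => ?_
    exact Finset.sum_le_sum_of_subset_of_nonneg (Finset.subset_biUnion_of_mem E ha)
      fun _ _ _ => abs_nonneg _
  have h2 : ∀ k ∈ U, ∑ a ∈ I, |co e (u a) k| ≤
      Real.sqrt (∑ a ∈ I, co e (u a) k ^ 2) * 1 * Real.sqrt M := by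
    intro k _
    have h3 : (∑ a ∈ I, |co e (u a) k|) ^ 2 ≤ M * ∑ a ∈ I, co e (u a) k ^ 2 := by
      have h4 := sq_sum_le_card_mul_sum_sq (s := I) (f := fun a => |co e (u a) k|)
      simp only [sq_abs] at h4
      refine h4.trans (mul_le_mul_of_nonneg_right ?_ (Finset.sum_nonneg fun _ _ => sq_nonneg _))
      have h5 : I.card ≤ M := by
        calc I.card ≤ (Finset.univ : Finset (Fin M)).card :=
              Finset.card_le_card (Finset.subset_univ _)
          _ = M := by rw [Finset.card_univ, Fintype.card_fin]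
      exact_mod_cast h5
    have h6 := Real.le_sqrt_of_sq_le h3
    rw [Real.sqrt_mul (Nat.cast_nonneg _)] at h6
    linarith
  have h7 : ∑ k ∈ U, Real.sqrt (∑ a ∈ I, co e (u a) k ^ 2) * 1 ≤ Real.sqrt 3 * (C * B) := by
    refine khintchine_weighted I U (fun _ => 1) (fun _ _ => zero_le_one)
      (fun a k => co e (u a) k) (C * B) fun θ hθ => ?_
    have h8 : ∀ k, ∑ a ∈ I, θ a * co e (u a) k = co e (V (vec e (Finset.range Z)
        (fun s => ∑ a ∈ I, θ a * σ a s))) k := by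
      intro k
      rw [map_vec]
      have h9 : ∀ a ∈ I, θ a * co e (u a) k =
          ∑ s ∈ Finset.range Z, θ a * σ a s * co e (V (e s)) k := by
        intro a _
        rw [hu]
        simp only
        rw [map_vec, Finset.mul_sum]
        exact Finset.sum_congr rfl fun s _ => by ring
      rw [Finset.sum_congr rfl h9, Finset.sum_comm]
      exact Finset.sum_congr rfl fun s _ => by rw [Finset.sum_mul]
    have h10 : ∑ k ∈ U, |∑ a ∈ I, θ a * co e (u a) k| * 1 ≤
        ‖V (vec e (Finset.range Z) (fun s => ∑ a ∈ I, θ a * σ a s))‖ := by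
      refine le_trans (le_of_eq ?_) (SB_co hX _ U hUS)
      exact Finset.sum_congr rfl fun k _ => by rw [mul_one, h8 k]
    refine h10.trans ((hV _).trans ?_)
    refine mul_le_mul_of_nonneg_left ?_ (by linarith)
    refine norm_vec_le hX (SB_mono hy fun s => ?_)
    refine (Finset.abs_sum_le_sum_abs _ _).trans ?_
    rw [abs_of_nonneg (Finset.sum_nonneg fun a _ => abs_nonneg (y a s))]
    refine (Finset.sum_le_sum fun a _ => ?_).trans
      (Finset.sum_le_sum_of_subset_of_nonneg (Finset.subset_univ I) fun _ _ _ => abs_nonneg _)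
    rw [abs_mul]
    have h11 : |θ a| = 1 := by
      rcases hθ a with h | h <;> rw [h] <;> norm_num
    rw [h11, one_mul]
    exact hσ a s
  calc ∑ a ∈ I, ∑ k ∈ E a, |co e (u a) k|
      ≤ ∑ k ∈ U, ∑ a ∈ I, |co e (u a) k| := h1
    _ ≤ ∑ k ∈ U, Real.sqrt (∑ a ∈ I, co e (u a) k ^ 2) * 1 * Real.sqrt M :=
        Finset.sum_le_sum h2
    _ = (∑ k ∈ U, Real.sqrt (∑ a ∈ I, co e (u a) k ^ 2) * 1) * Real.sqrt M := by
        rw [Finset.sum_mul]
    _ ≤ Real.sqrt 3 * (C * B) * Real.sqrt M :=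
        mul_le_mul_of_nonneg_right h7 (Real.sqrt_nonneg _)

/-- H5 (uses A1) -/
theorem h5_lemma (C : ℝ) (hC : 1 ≤ C) (M R : ℕ) (hM : 1 ≤ M) (I : Finset (Fin M))
    (T : Fin M → X →L[ℝ] X) (hT : ∀ a x, ‖T a x‖ ≤ C * ‖x‖) (V : X →L[ℝ] X)
    (hV : ∀ x, ‖V x‖ ≤ C * ‖x‖) (sg : Fin M → ℕ) (wt : Fin M → ℝ)
    (hwt : ∀ a ∈ I, 1 / (4 * C) ≤ |wt a|)
    (hrow : ∀ a ∈ I, ∃ E : Finset ℕ, (∀ k ∈ E, M * R ≤ k) ∧ E.card ≤ R ∧
      ∀ u : X, |co e (T a u) (sg a) - ∑ k ∈ E, co e (T a (e k)) (sg a) * co e u k| ≤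
        (1 / M) * ‖u‖)
    (Z : ℕ) (y : Fin M → ℕ → ℝ) (B : ℝ) (hy : SB (fun s => ∑ a, |y a s|) B) :
    ∑ a ∈ I, ∑ s ∈ Finset.range Z, |co e (T a (V (e s))) (sg a) / wt a| * |y a s| ≤
      4 * C * (Real.sqrt 3 * C ^ 2 + C) * Real.sqrt M * B := by
  classical
  have hB : 0 ≤ B := SB_nonneg hy
  have hC0 : 0 < C := by linarith
  have hMpos : (0 : ℝ) < M := by exact_mod_cast hM
  have hM1 : (1 : ℝ) ≤ M := by exact_mod_cast hM
  -- the signs
  have hsig : ∀ a, ∃ σ : ℕ → ℝ, (∀ s, |σ s| ≤ |y a s|) ∧ (a ∈ I →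
      ∑ s ∈ Finset.range Z, |co e (T a (V (e s))) (sg a) / wt a| * |y a s| ≤
        4 * C * |co e (T a (V (vec e (Finset.range Z) σ))) (sg a)|) := by
    intro a
    by_cases ha : a ∈ I
    · obtain ⟨σ, h1, h2⟩ := h5_term hX C (T a) V (sg a) (wt a) hC (hwt a ha) Z (y a)
      exact ⟨σ, h1, fun _ => h2⟩
    · exact ⟨fun _ => 0, fun s => by simp, fun h => absurd h ha⟩
  choose σ hσ hσ' using hsig
  -- the rows
  have hrow' : ∀ a, ∃ E : Finset ℕ, a ∈ I → ((∀ k ∈ E, M * R ≤ k) ∧ E.card ≤ R ∧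
      ∀ u : X, |co e (T a u) (sg a) - ∑ k ∈ E, co e (T a (e k)) (sg a) * co e u k| ≤
        (1 / M) * ‖u‖) := by
    intro a
    by_cases ha : a ∈ I
    · obtain ⟨E, hE⟩ := hrow a ha
      exact ⟨E, fun _ => hE⟩
    · exact ⟨∅, fun h => absurd h ha⟩
  choose E hE using hrow'
  have hunion := h5_union hX C hC M R I V hV E (fun a ha => ⟨(hE a ha).1, (hE a ha).2.1⟩) Z y σ hσ
    B hy
  -- the norms
  have hnorm : ∀ a, ‖V (vec e (Finset.range Z) (σ a))‖ ≤ C * B := by
    intro a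
    refine (hV _).trans (mul_le_mul_of_nonneg_left ?_ hC0.le)
    refine norm_vec_le hX (SB_mono hy fun s => ?_)
    rw [abs_of_nonneg (Finset.sum_nonneg fun b _ => abs_nonneg (y b s))]
    exact (hσ a s).trans (Finset.single_le_sum (f := fun b => |y b s|)
      (fun b _ => abs_nonneg _) (Finset.mem_univ a))
  have hterm : ∀ a ∈ I,
      ∑ s ∈ Finset.range Z, |co e (T a (V (e s))) (sg a) / wt a| * |y a s| ≤
        4 * C * (C * ∑ k ∈ E a, |co e (V (vec e (Finset.range Z) (σ a))) k| +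
          (1 / M) * (C * B)) := by
    intro a ha
    refine (hσ' a ha).trans (mul_le_mul_of_nonneg_left ?_ (by positivity))
    refine (h5_row hX C hC (1 / M) (T a) (hT a) (sg a) (E a) (hE a ha).2.2 _).trans ?_
    have := mul_le_mul_of_nonneg_left (hnorm a) (show (0 : ℝ) ≤ 1 / M by positivity)
    linarith
  have hcard : (I.card : ℝ) ≤ M := by
    have h5 : I.card ≤ M := by
      calc I.card ≤ (Finset.univ : Finset (Fin M)).card := Finset.card_le_card (Finset.subset_univ _)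
        _ = M := by rw [Finset.card_univ, Fintype.card_fin]
    exact_mod_cast h5
  have hsqrt : 1 ≤ Real.sqrt M := by
    rw [← Real.sqrt_one]
    exact Real.sqrt_le_sqrt hM1
  have hsum2 : ∑ a ∈ I, (1 / (M : ℝ)) * (C * B) ≤ C * B * Real.sqrt M := by
    rw [Finset.sum_const, nsmul_eq_mul]
    have h1 : (I.card : ℝ) * (1 / M) ≤ 1 := by
      rw [mul_one_div, div_le_one hMpos]
      exact hcard
    have h2 : 0 ≤ C * B := by positivity
    calc (I.card : ℝ) * (1 / M * (C * B)) = (I.card * (1 / M)) * (C * B) := by ring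
      _ ≤ 1 * (C * B) := mul_le_mul_of_nonneg_right h1 h2
      _ ≤ C * B * Real.sqrt M := by nlinarith
  calc ∑ a ∈ I, ∑ s ∈ Finset.range Z, |co e (T a (V (e s))) (sg a) / wt a| * |y a s|
      ≤ ∑ a ∈ I, 4 * C * (C * ∑ k ∈ E a, |co e (V (vec e (Finset.range Z) (σ a))) k| +
          (1 / M) * (C * B)) := Finset.sum_le_sum hterm
    _ = 4 * C * (C * ∑ a ∈ I, ∑ k ∈ E a, |co e (V (vec e (Finset.range Z) (σ a))) k| +
          ∑ a ∈ I, (1 / (M : ℝ)) * (C * B)) := by
        rw [← Finset.mul_sum, Finset.sum_add_distrib, ← Finset.mul_sum]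
    _ ≤ 4 * C * (C * (Real.sqrt 3 * (C * B) * Real.sqrt M) + C * B * Real.sqrt M) := by
        refine mul_le_mul_of_nonneg_left ?_ (by positivity)
        exact add_le_add (mul_le_mul_of_nonneg_left hunion hC0.le) hsum2
    _ = 4 * C * (Real.sqrt 3 * C ^ 2 + C) * Real.sqrt M * B := by ring

end H5

end Pool.Agent.Comb7f333f.WPart
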