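import Pool.Agent.Lib.MP_7f333f_an.W.Api
import Pool.Agent.Lib.MP_7f333f_an.W.H1
import Pool.Agent.Lib.MP_7f333f_an.W.H34
import Pool.Agent.Lib.MP_7f333f_an.W.H5
import Pool.Agent.Lib.MP_7f333f_an.W.H7

set_option autoImplicit false
set_option linter.unusedSectionVars false
set_option linter.unusedVariables false

/-!
Module T1: from the tower to the data of the finite theorem.
-/

namespace Pool.Agent.Comb7f333f.WPart

open Filter Topology

/-! ### Prefixes -/

section Pre

variable {r M : ℕ} {G : Type*} [Group G] (g : ℕ → Fin M → G)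

/-- The prefix depends only on the first letters. -/
theorem t1_pre_congr {w w' : Fin r → Fin M} {m : ℕ}
    (h : ∀ k : Fin r, (k : ℕ) < m → w k = w' k) : pre g w m = pre g w' m := by
  induction m with
  | zero => rfl
  | succ m ih =>
    simp only [pre]
    rw [ih fun k hk => h k (by omega)]
    congr 1
    unfold stp
    split_ifs with hm
    · rw [h ⟨m, hm⟩ (Nat.lt_succ_self m)]
    · rfl

/-- The suffix depends only on the last letters. -/
theorem t1_suf_congr {w w' : Fin r → Fin M} {j : ℕ}
    (h : ∀ k : Fin r, j < (k : ℕ) → w k = w' k) (m : ℕ) :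
    pre g w (j + 1 + m) * (pre g w (j + 1))⁻¹ = pre g w' (j + 1 + m) * (pre g w' (j + 1))⁻¹ := by
  induction m with
  | zero => simp
  | succ m ih =>
    rw [← add_assoc]
    simp only [pre] at ih ⊢
    rw [mul_assoc, mul_assoc, ih]
    congr 1
    unfold stp
    split_ifs with hm
    · rw [h ⟨j + 1 + m, hm⟩ (by simp only; omega)]
    · rfl

end Pre

theorem t1_kap_mono (K : ℕ → ℕ) : Monotone (kap K) := by
  refine monotone_nat_of_le_succ fun j => ?_
  unfold kap
  rw [Finset.sum_range_succ]
  omega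

theorem t1_kap_succ (K : ℕ → ℕ) (j : ℕ) : K j ≤ kap K (j + 1) := by
  unfold kap
  rw [Finset.sum_range_succ]
  omega

section Group

variable {X : Type*} [NormedAddCommGroup X] [NormedSpace ℝ X] {e : ℕ → X}
  (hX : IsCombSpace schreier e) {G : Type*} [Group G] (A : G →* (X →L[ℝ] X)) (C : ℝ)
  (hC : 1 ≤ C) (hA : ∀ g x, ‖A g x‖ ≤ C * ‖x‖) (γ : ℕ → G)
  (hnull : ∀ x k, Tendsto (fun n => co e (A (γ n) x) k) atTop (𝓝 0))

include hX hC hA hnull

omit hX hC hA hnull in
theorem t1_mul (g h : G) (x : X) : A (g * h) x = A g (A h x) := by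
  rw [map_mul]; rfl

omit hnull in
/-- Module T1: from the tower to the data of the finite theorem (uses H1, H34, H5, H7). -/
theorem exists_coreData (c₁ Λ : ℝ) (hc₁ : 0 < c₁) (r M : ℕ) (hr : 1 ≤ r) (hM : 1 ≤ M)
    (t : Tower A e C c₁ Λ r M) :
    Nonempty (CoreData C c₁ (4 * Real.sqrt 3 * C ^ 2) (4 * C * (Real.sqrt 3 * C ^ 2 + C))
      (C * (C ^ 2 + 1)) (C * (3 * C + 2)) Λ r M) := by
  classical
  have hC0 : 0 < C := by linarith
  -- the vectors
  set xv : (Fin r → Fin M) → Fin r → ℕ → X :=
    fun w j i => A (pre t.g w r * (pre t.g w (j + 1))⁻¹) (e i) with hxv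
  set pv : (Fin r → Fin M) → Fin r → ℕ → X :=
    fun w j i => A (pre t.g w (j + 1))⁻¹ (e i) with hpv
  have hnA : ∀ (g : G) (i : ℕ), ‖A g (e i)‖ ≤ C := fun g i => by
    have h1 := hA g (e i)
    have h2 := norm_e_le hX i
    nlinarith
  -- the truncation
  have hZ : ∃ Z : ℕ, ∀ (w : Fin r → Fin M) (j : Fin r), ∀ i ∈ t.F j,
      ‖xv w j i - vec e (Finset.range Z) (co e (xv w j i))‖ ≤ 1 / (8 * C ^ 2) := by
    have h1 : ∀ p : (Fin r → Fin M) × Fin r × ℕ, ∀ᶠ Z in atTop,
        ‖xv p.1 p.2.1 p.2.2 - vec e (Finset.range Z) (co e (xv p.1 p.2.1 p.2.2))‖ ≤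
          1 / (8 * C ^ 2) := by
      intro p
      obtain ⟨Z0, hZ0⟩ := exists_tr hX (xv p.1 p.2.1 p.2.2) (1 / (8 * C ^ 2)) (by positivity)
      filter_upwards [eventually_ge_atTop Z0] with Z hZ
      exact hZ0 _ fun k hk => Finset.mem_range.mpr (by omega)
    have h2 : ∀ᶠ Z in atTop, ∀ p ∈ (Finset.univ ×ˢ (Finset.univ.sigma fun j : Fin r => t.F j).image
        (fun q => (q.1, q.2)) : Finset ((Fin r → Fin M) × Fin r × ℕ)),
        ‖xv p.1 p.2.1 p.2.2 - vec e (Finset.range Z) (co e (xv p.1 p.2.1 p.2.2))‖ ≤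
          1 / (8 * C ^ 2) := by
      rw [Filter.eventually_all_finset]
      intro p _
      exact h1 p
    obtain ⟨Z, hZ⟩ := h2.exists
    refine ⟨Z, fun w j i hi => hZ (w, j, i) ?_⟩
    rw [Finset.mem_product]
    refine ⟨Finset.mem_univ _, ?_⟩
    rw [Finset.mem_image]
    exact ⟨⟨j, i⟩, Finset.mem_sigma.mpr ⟨Finset.mem_univ _, hi⟩, rfl⟩
  obtain ⟨Z, hZ⟩ := hZ
  -- the good coordinates
  set gd : (Fin r → Fin M) → Fin r → ℕ → Prop :=
    fun w j i => ∃ s, 1 / (4 * C) ≤ |co e (pv w j i) s| with hgd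
  have hsg : ∃ sg : (Fin r → Fin M) → Fin r → ℕ → ℕ, ∀ w j i, gd w j i →
      1 / (4 * C) ≤ |co e (pv w j i) (sg w j i)| := by
    refine ⟨fun w j i => if h : gd w j i then h.choose else 0, fun w j i h => ?_⟩
    simp only [dif_pos h]
    exact h.choose_spec
  obtain ⟨sg, hsg⟩ := hsg
  have hlev := fun j : Fin r => t.lev j j.2
  have hpx : ∀ w (j : Fin r) i, A (pre t.g w r)⁻¹ (xv w j i) = pv w j i := by
    intro w j i
    simp only [hxv, hpv]
    rw [← t1_mul]
    congr 2
    group
  have hpr : ∀ w (j : Fin r) i, A (pre t.g w r) (pv w j i) = xv w j i := by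
    intro w j i
    simp only [hxv, hpv]
    rw [← t1_mul]
  have hsuf : ∀ w w' (j : Fin r), (∀ k, j < k → w k = w' k) →
      pre t.g w r * (pre t.g w (j + 1))⁻¹ = pre t.g w' r * (pre t.g w' (j + 1))⁻¹ := by
    intro w w' j h
    have h1 := t1_suf_congr t.g (w := w) (w' := w') (j := (j : ℕ))
      (fun k hk => h k hk) (r - (j + 1))
    have h2 : (j : ℕ) + 1 + (r - (j + 1)) = r := by have := j.2; omega
    rwa [h2] at h1
  have hupd : ∀ (w : Fin r → Fin M) (j : Fin r) (a : Fin M), ∀ k, j < k →
      Function.update w j a k = w k := fun w j a k hk => Function.update_of_ne (ne_of_gt hk) _ _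
  refine ⟨{
    Z := Z
    F := fun j => t.F j
    f := fun j => 2 ^ r * kap t.K j
    x := fun w j i s => co e (xv w j i) s
    φ := fun w j i s => co e (A (pre t.g w r)⁻¹ (e s)) (sg w j i) / co e (pv w j i) (sg w j i)
    good := fun w j => (t.F j).filter (fun i => gd w j i)
    good_sub := fun w j => Finset.filter_subset _ _
    F_ne := fun j => t.F_ne j j.2
    f_pos := ?_
    f_mono := ?_
    dep := ?_
    h0 := ?_
    h1 := ?_
    h2 := ?_
    h3 := ?_
    h4 := ?_
    h5 := ?_
    h6 := ?_
    h7 := ?_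
    hn := ?_ }⟩
  · intro j
    have h1 : 1 ≤ kap t.K j := by unfold kap; omega
    have h2 : 1 ≤ 2 ^ r := Nat.one_le_two_pow
    exact Nat.one_le_iff_ne_zero.mpr (Nat.mul_ne_zero (by omega) (by omega))
  · intro j j' hjj
    exact Nat.mul_le_mul_left _ (t1_kap_mono t.K hjj)
  · intro w w' j i h
    funext s
    simp only [hxv]
    rw [hsuf w w' j h]
  · intro w j i _
    exact fun F hF => (SB_co hX (xv w j i) F hF).trans (hnA _ i)
  · intro w j i hi
    rw [Finset.mem_filter] at hi
    have h1 := h1_lemma hX C hC (A (pre t.g w r)⁻¹) (hA _) (xv w j i) (sg w j i) Z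
      (by rw [hpx]; exact hsg w j i hi.2) (hZ w j i hi.1)
    rw [hpx] at h1
    exact h1
  · intro j i hi
    obtain ⟨W, hW1, hW2⟩ := (hlev j).good i hi
    have h1 : W ⊆ Finset.univ.filter fun w => i ∈ (t.F j).filter (fun i => gd w j i) := by
      intro w hw
      rw [Finset.mem_filter]
      refine ⟨Finset.mem_univ _, Finset.mem_filter.mpr ⟨hi, ?_⟩⟩
      exact hW2 w hw
    have h2 : (W.card : ℝ) ≤
        ((Finset.univ.filter fun w => i ∈ (t.F j).filter (fun i => gd w j i)).card : ℝ) := by
      exact_mod_cast Finset.card_le_card h1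
    refine le_trans (le_of_eq ?_) (hW1.trans h2)
    rw [Fintype.card_fun, Fintype.card_fin, Fintype.card_fin]
    push_cast
    ring
  · intro w j z B hz hzB
    refine h34_lemma hX C hC (A (pre t.g w r)⁻¹) (hA _) ((t.F j).filter (fun i => gd w j i))
      (fun i => sg w j i) ?_ ?_ (fun i => co e (pv w j i) (sg w j i)) ?_ Z z B hz hzB
    · intro i hi i' hi' h
      rw [Finset.mem_coe, Finset.mem_filter] at hi hi'
      have h1 := hsg w j i hi.2
      have h2 := hsg w j i' hi'.2
      have h3 : sg w j i = sg w j i' := h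
      rw [h3] at h1
      exact (hlev j).unique w _ i hi.1 i' hi'.1 h1 h2
    · intro i hi
      rw [Finset.mem_filter] at hi
      have h1 := ((hlev j).large w i hi.1 _ (hsg w j i hi.2)).1
      have h2 := Finset.card_le_card (Finset.filter_subset (fun i => gd w j i) (t.F j))
      omega
    · intro i hi
      rw [Finset.mem_filter] at hi
      exact hsg w j i hi.2
  · intro w ii hii z B hz hzB
    have hmem : ∀ j : Fin r, j ∈ Finset.univ.filter
        (fun j : Fin r => ii j ∈ (t.F j).filter (fun i => gd w j i)) → gd w j (ii j) := by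
      intro j hj
      rw [Finset.mem_filter, Finset.mem_filter] at hj
      exact hj.2.2
    refine h34_lemma hX C hC (A (pre t.g w r)⁻¹) (hA _)
      (Finset.univ.filter (fun j : Fin r => ii j ∈ (t.F j).filter (fun i => gd w j i)))
      (fun j => sg w j (ii j)) ?_ ?_ (fun j => co e (pv w j (ii j)) (sg w j (ii j))) ?_ Z z B hz hzB
    · intro j hj j' hj' h
      have h1 := (hlev j).large w (ii j) (hii j) _ (hsg w j _ (hmem j (Finset.mem_coe.mp hj)))
      have h2 := (hlev j').large w (ii j') (hii j') _ (hsg w j' _ (hmem j' (Finset.mem_coe.mp hj')))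
      have h3 : sg w j (ii j) = sg w j' (ii j') := h
      rw [h3] at h1
      have hlt : ∀ a b : Fin r, a < b → t.K a ≤ kap t.K b := fun a b hab =>
        (t1_kap_succ t.K a).trans (t1_kap_mono t.K (Nat.succ_le_of_lt hab))
      rcases lt_trichotomy j j' with h4 | h4 | h4
      · have h5 := hlt j j' h4
        omega
      · exact h4
      · have h5 := hlt j' j h4
        omega
    · intro j hj
      have h1 := (hlev j).large w (ii j) (hii j) _ (hsg w j _ (hmem j hj))
      have h2 := Finset.card_filter_le (Finset.univ : Finset (Fin r))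
        (fun j : Fin r => ii j ∈ (t.F j).filter (fun i => gd w j i))
      rw [Finset.card_univ, Fintype.card_fin] at h2
      omega
    · intro j hj
      exact hsg w j _ (hmem j hj)
  · intro w j i hi y B hy
    obtain ⟨R, hR⟩ := (hlev j).row
    have hT : ∀ (a : Fin M) (s : ℕ),
        A (pre t.g (Function.update w j a) (j + 1))⁻¹
          (A (pre t.g w r * (pre t.g w (j + 1))⁻¹)⁻¹ (e s)) =
        A (pre t.g (Function.update w j a) r)⁻¹ (e s) := by
      intro a s
      rw [← hsuf (Function.update w j a) w j (hupd w j a), ← t1_mul]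
      congr 2
      group
    have h1 := h5_lemma hX C hC M R hM
      (Finset.univ.filter (fun a => i ∈ (t.F j).filter (fun i => gd (Function.update w j a) j i)))
      (fun a => A (pre t.g (Function.update w j a) (j + 1))⁻¹) (fun a x => hA _ x)
      (A (pre t.g w r * (pre t.g w (j + 1))⁻¹)⁻¹) (hA _)
      (fun a => sg (Function.update w j a) j i)
      (fun a => co e (pv (Function.update w j a) j i) (sg (Function.update w j a) j i))
      (fun a ha => by
        rw [Finset.mem_filter, Finset.mem_filter] at ha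
        exact hsg _ _ _ ha.2.2)
      (fun a ha => by
        rw [Finset.mem_filter, Finset.mem_filter] at ha
        exact hR (Function.update w j a) i hi _ (hsg _ _ _ ha.2.2))
      Z y B hy
    simp only [hT] at h1
    exact h1
  · intro w j' j hjj i' hi' θ hθ
    have hjj' : (j' : ℕ) < j := hjj
    have h1 : ∀ a : Fin M, xv (Function.update w j a) j' i' =
        A (pre t.g w r * (pre t.g w (j + 1))⁻¹)
          (A (t.g j a) (A (pre t.g w j * (pre t.g w (j' + 1))⁻¹) (e i'))) := by
      intro a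
      have h2 : pre t.g (Function.update w j a) j = pre t.g w j :=
        t1_pre_congr t.g fun k hk => Function.update_of_ne (Fin.ne_of_lt hk) _ _
      have h3 : pre t.g (Function.update w j a) (j' + 1) = pre t.g w (j' + 1) :=
        t1_pre_congr t.g fun k hk => Function.update_of_ne
          (Fin.ne_of_lt (show (k : ℕ) < j by omega)) _ _
      have h4 : pre t.g (Function.update w j a) (j + 1) = t.g j a * pre t.g w j := by
        show stp t.g (Function.update w j a) j * pre t.g (Function.update w j a) j = _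
        rw [h2]
        congr 1
        unfold stp
        rw [dif_pos j.2]
        simp
      have h5 := hsuf (Function.update w j a) w j (hupd w j a)
      rw [← h5, ← t1_mul, ← t1_mul]
      simp only [hxv]
      rw [h3, h4]
      congr 2
      group
    have h6 : (fun s => ∑ a, θ a * co e (xv (Function.update w j a) j' i') s) =
        co e (A (pre t.g w r * (pre t.g w (j + 1))⁻¹)
          (∑ a, θ a • A (t.g j a) (A (pre t.g w j * (pre t.g w (j' + 1))⁻¹) (e i')))) := by
      funext s
      rw [map_sum, co_sum]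
      refine Finset.sum_congr rfl fun a _ => ?_
      rw [map_smul, co_smul, h1 a]
    show SB (fun s => ∑ a, θ a * co e (xv (Function.update w j a) j' i') s) _
    rw [h6]
    intro F hF
    refine (SB_co hX _ F hF).trans ((hA _ _).trans ?_)
    exact mul_le_mul_of_nonneg_left (t.signs j j.2 w j' hjj' i' hi' θ hθ) hC0.le
  · intro w S π hπ hπ' Gs hGs θ hθ
    have h1 := h7_lemma C hC r (fun j => t.F j) t.K (fun j i s => co e (pv w j i) s)
      (fun j i _ F hF => (SB_co hX (pv w j i) F hF).trans (hnA _ i))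
      (fun j s => (hlev j).sum_le w s)
      (fun j i hi E hE hE' => (hlev j).tail w i hi E hE hE') S π hπ hπ' Gs hGs θ hθ
    have h2 : ∀ v : Fin r → ℕ → X,
        (fun s => ∑ j ∈ S, (1 / ((2 ^ r * kap t.K (π j) : ℕ) : ℝ)) *
          ∑ i ∈ Gs j, θ j i * co e (v j i) s) =
        co e (∑ j ∈ S, (1 / ((2 ^ r * kap t.K (π j) : ℕ) : ℝ)) • ∑ i ∈ Gs j, θ j i • v j i) := by
      intro v
      funext s
      rw [co_sum]
      refine Finset.sum_congr rfl fun j _ => ?_
      rw [co_smul, co_sum]
      congr 1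
      refine Finset.sum_congr rfl fun i _ => ?_
      rw [co_smul]
    have h3 := norm_le_of_SB hX (x := ∑ j ∈ S, (1 / ((2 ^ r * kap t.K (π j) : ℕ) : ℝ)) •
      ∑ i ∈ Gs j, θ j i • pv w j i) (B := 3 * C + 2) (by rw [← h2 (fun j i => pv w j i)]; exact h1)
    have h4 : A (pre t.g w r) (∑ j ∈ S, (1 / ((2 ^ r * kap t.K (π j) : ℕ) : ℝ)) •
        ∑ i ∈ Gs j, θ j i • pv w j i) =
        ∑ j ∈ S, (1 / ((2 ^ r * kap t.K (π j) : ℕ) : ℝ)) • ∑ i ∈ Gs j, θ j i • xv w j i := by
      rw [map_sum]
      refine Finset.sum_congr rfl fun j _ => ?_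
      rw [map_smul, map_sum]
      congr 1
      refine Finset.sum_congr rfl fun i _ => ?_
      rw [map_smul, hpr]
    show SB (fun s => ∑ j ∈ S, (1 / ((2 ^ r * kap t.K (π j) : ℕ) : ℝ)) *
      ∑ i ∈ Gs j, θ j i * co e (xv w j i) s) _
    rw [h2 (fun j i => xv w j i), ← h4]
    intro F hF
    exact (SB_co hX _ F hF).trans ((hA _ _).trans (mul_le_mul_of_nonneg_left h3 hC0.le))
  · intro j
    have h1 := t.card_F j j.2
    push_cast
    rw [← mul_assoc]
    exact h1

end Group

end Pool.Agent.Comb7f333f.WPart
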