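import Pool.Agent.Lib.MP_7f333f_an.W.TowerEx
import Pool.Agent.Lib.MP_7f333f_an.W.T1
import Pool.Agent.Lib.MP_7f333f_an.W.Core
import Pool.Agent.Lib.MP_7f333f_an.Neg.Limit

set_option autoImplicit false
set_option linter.unusedSectionVars false

/-!
The theorem (W): a bounded group of operators on the Schreier space contains no sequence which
tends to zero coordinatewise.
-/

namespace Pool.Agent.Comb7f333f.WPart

open Filter Topology

section Final

variable {X : Type*} [NormedAddCommGroup X] [NormedSpace ℝ X] {e : ℕ → X}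

theorem no_null (hX : IsCombSpace schreier e) {G : Type*} [Group G] (A : G →* (X →L[ℝ] X))
    (C : ℝ) (hC : 1 ≤ C) (hA : ∀ g x, ‖A g x‖ ≤ C * ‖x‖) (γ : ℕ → G)
    (hnull : ∀ x k, Tendsto (fun n => co e (A (γ n) x) k) atTop (𝓝 0)) : False := by
  obtain ⟨c₁, h1, h2, ht⟩ := exists_tower hX A C hC hA γ hnull
  have h3 : (1 : ℝ) ≤ Real.sqrt 3 := by
    rw [show (1 : ℝ) = Real.sqrt 1 by simp]
    exact Real.sqrt_le_sqrt (by norm_num)
  have h4 : (1 : ℝ) ≤ C ^ 2 := one_le_pow₀ hC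
  have h5 : (1 : ℝ) ≤ Real.sqrt 3 * C ^ 2 := one_le_mul_of_one_le_of_one_le h3 h4
  obtain ⟨r, M, Λ, hr, hM, -, hE⟩ := core C c₁ (4 * Real.sqrt 3 * C ^ 2)
    (4 * C * (Real.sqrt 3 * C ^ 2 + C)) (C * (C ^ 2 + 1)) (C * (3 * C + 2)) hC h1 h2
    (by linarith) (by positivity) (by positivity) (by positivity)
  obtain ⟨t⟩ := ht r M Λ hr hM
  obtain ⟨d⟩ := exists_coreData hX A C hC hA c₁ Λ h1 r M hr hM t
  exact hE.elim d

theorem fi_norm_le {N : Seminorm ℝ X} {c C : ℝ} (hc : 0 < c)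
    (hN : ∀ x, c * ‖x‖ ≤ N x ∧ N x ≤ C * ‖x‖) (g : isomGroup N) (x : X) :
    ‖(g : X ≃ₗ[ℝ] X) x‖ ≤ C / c * ‖x‖ := by
  have h1 := (hN ((g : X ≃ₗ[ℝ] X) x)).1
  rw [isom_apply] at h1
  have h2 := (hN x).2
  rw [div_mul_eq_mul_div, le_div_iff₀ hc]
  linarith

/-- The isometry group of an equivalent norm, as a group of continuous operators. -/
noncomputable def isomHom {N : Seminorm ℝ X} {c C : ℝ} (hc : 0 < c)
    (hN : ∀ x, c * ‖x‖ ≤ N x ∧ N x ≤ C * ‖x‖) : isomGroup N →* (X →L[ℝ] X) where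
  toFun g := LinearMap.mkContinuous ((g : X ≃ₗ[ℝ] X) : X →ₗ[ℝ] X) (C / c)
    fun x => fi_norm_le hc hN g x
  map_one' := by
    ext x
    rfl
  map_mul' g g' := by
    ext x
    rfl

theorem isomHom_apply {N : Seminorm ℝ X} {c C : ℝ} (hc : 0 < c)
    (hN : ∀ x, c * ‖x‖ ≤ N x ∧ N x ≤ C * ‖x‖) (g : isomGroup N) (x : X) :
    isomHom hc hN g x = (g : X ≃ₗ[ℝ] X) x := rfl

theorem no_null_seq [CompleteSpace X] (hX : IsCombSpace schreier e) {N : Seminorm ℝ X}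
    {c C : ℝ} (hc : 0 < c) (hN : ∀ x, c * ‖x‖ ≤ N x ∧ N x ≤ C * ‖x‖) (g : ℕ → isomGroup N)
    (hg : ∀ x k, Tendsto (fun n => ef e k ((g n : X ≃ₗ[ℝ] X) x)) atTop (𝓝 0)) : False := by
  refine no_null hX (isomHom hc hN) (max 1 (C / c)) (le_max_left _ _) (fun g x => ?_) g
    (fun x k => hg x k)
  rw [isomHom_apply]
  exact (fi_norm_le hc hN g x).trans
    (mul_le_mul_of_nonneg_right (le_max_right _ _) (norm_nonneg x))

end Final

end Pool.Agent.Comb7f333f.WPart
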