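import Pool.Agent.Lib.MP_7f333f_an.W.Api
import Pool.Agent.Lib.MP_7f333f_an.W.B2
import Pool.Agent.Lib.MP_7f333f_an.W.B6
import Pool.Agent.Lib.MP_7f333f_an.W.B8

set_option autoImplicit false
set_option linter.unusedSectionVars false

/-!
One level of the tower.
-/

namespace Pool.Agent.Comb7f333f.WPart

open Filter Topology

section Space

variable {X : Type*} [NormedAddCommGroup X] [NormedSpace ℝ X] {e : ℕ → X}

variable (hX : IsCombSpace schreier e)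

include hX

/-- The row property for finitely many operators, from one position on. -/
theorem ts_rows (C : ℝ) (hC : 1 ≤ C) (M : ℕ) (hM : 1 ≤ M) {Ω : Type} [Fintype Ω]
    (T : Ω → X →L[ℝ] X) (hT : ∀ w x, ‖T w x‖ ≤ C * ‖x‖) :
    ∃ R S : ℕ, ∀ w, ∀ s ≥ S, ∃ E : Finset ℕ, (∀ k ∈ E, M * R ≤ k) ∧ E.card ≤ R ∧
      ∀ u : X, |co e (T w u) s - ∑ k ∈ E, co e (T w (e k)) s * co e u k| ≤ (1 / M) * ‖u‖ := by
  have hM' : (0 : ℝ) < 1 / M := by
    have : (0 : ℝ) < M := by exact_mod_cast hM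
    positivity
  have h1 : ∀ w, ∃ (δ : ℝ) (R m0 : ℕ) (E : ℕ → Finset ℕ), 0 < δ ∧
      (∀ m ≥ m0, (∀ i, i ∈ E m ↔ δ ≤ |co e (T w (e i)) m|) ∧ (E m).card ≤ R ∧
        ∀ u : X, |co e (T w u) m - ∑ i ∈ E m, co e (T w (e i)) m * co e u i| ≤
          (1 / M) * ‖u‖) ∧
      ∀ K : ℕ, ∃ m1 : ℕ, ∀ m ≥ m1, ∀ i ∈ E m, K ≤ i :=
    fun w => rows hX C hC (T w) (hT w) (1 / M) hM'
  choose δ R m0 E hδ hE hE' using h1
  obtain ⟨R', hR'⟩ : ∃ R' : ℕ, ∀ w, R w ≤ R' :=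
    ⟨Finset.univ.sup R, fun w => Finset.le_sup (f := R) (Finset.mem_univ w)⟩
  choose m1 hm1 using fun w => hE' w (M * R')
  refine ⟨R', Finset.univ.sup (fun w => m0 w + m1 w), fun w s hs => ?_⟩
  have h2 : m0 w + m1 w ≤ s :=
    le_trans (Finset.le_sup (f := fun w => m0 w + m1 w) (Finset.mem_univ w)) hs
  obtain ⟨-, h4, h5⟩ := hE w s (by omega)
  exact ⟨E w s, fun k hk => hm1 w s (by omega) k hk, h4.trans (hR' w), h5⟩

/-- The tails of finitely many vectors. -/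
theorem ts_tails {ι : Type*} (I : Finset ι) (x : ι → X) (ε : ℝ) (hε : 0 < ε) : ∃ K : ℕ,
    ∀ i ∈ I, ∀ E ∈ schreier, (∀ s ∈ E, K ≤ s) → ∑ s ∈ E, |co e (x i) s| ≤ ε := by
  choose K hK using fun i => exists_tail_le hX (x i) ε hε
  refine ⟨I.sup K, fun i hi E hE hE' => hK i E hE fun s hs => ?_⟩
  exact le_trans (Finset.le_sup (f := K) hi) (hE' s hs)

end Space

section Group

variable {X : Type*} [NormedAddCommGroup X] [NormedSpace ℝ X] {e : ℕ → X}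
  (hX : IsCombSpace schreier e) {G : Type*} [Group G] (A : G →* (X →L[ℝ] X)) (C : ℝ)
  (hC : 1 ≤ C) (hA : ∀ g x, ‖A g x‖ ≤ C * ‖x‖) (γ : ℕ → G)
  (hnull : ∀ x k, Tendsto (fun n => co e (A (γ n) x) k) atTop (𝓝 0))

include hX hC hA hnull

/-- Module TSTEP: one level of the tower. `c₁` is any constant as in B4, `K0`, `τ` as in B5. -/
theorem tower_step (c₁ : ℝ)
    (hcol : ∀ {L : Type} [Fintype L] [Nonempty L] (T S : L → X →L[ℝ] X),
      (∀ l x, ‖T l x‖ ≤ C * ‖x‖) → (∀ l x, ‖S l x‖ ≤ C * ‖x‖) → (∀ l x, T l (S l x) = x) →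
      ∀ K0 : ℕ, ∃ i ≥ K0, ∃ W : Finset L, c₁ * Fintype.card L ≤ (W.card : ℝ) ∧
        ∀ l ∈ W, ∃ m, 1 / (4 * C) ≤ |co e (T l (e i)) m|)
    (r M : ℕ) (hr : 1 ≤ r) (hM : 1 ≤ M) (K0 : ℕ) (τ : ℝ) (hτ : 0 < τ)
    (htail : ∀ y : X, ‖y‖ ≤ C → ∑ s ∈ Finset.range K0, |co e y s| ≤ τ →
      Sm e (fun n => A (γ n)) (1 / (4 * M)) y)
    {Ω : Type} [Fintype Ω] [Nonempty Ω] (l : Ω → Fin M) (p : Ω → G) (Y : Finset X)
    (hY : ∀ y ∈ Y, Sm e (fun n => A (γ n)) (1 / (4 * M)) y ∧ ∃ h i, y = A h (e i)) (kp : ℕ)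
    (Λ' : ℝ) :
    ∃ (g : Fin M → G) (F : Finset ℕ) (K : ℕ),
      (∀ y ∈ Y, ∀ θ : Fin M → ℝ, IsSign θ → ‖∑ a, θ a • A (g a) y‖ ≤ C ^ 2 + 1) ∧
      (∀ y ∈ Y, ∀ a, Sm e (fun n => A (γ n)) (1 / (4 * M)) (A (g a) y)) ∧
      (∀ i ∈ F, Sm e (fun n => A (γ n)) (1 / (4 * M)) (e i)) ∧
      F.Nonempty ∧ Λ' ≤ (F.card : ℝ) ∧
      LevelProps A e C c₁ r M (fun w => (g (l w) * p w)⁻¹) F kp K := by
  have hC0 : 0 < C := by linarith
  obtain ⟨n, hn⟩ := selection_seq hX C hC (fun n => A (γ n)) (fun n x => hA (γ n) x) hnull M hM Y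
    (fun y hy => (hY y hy).1) K0 τ hτ
  have hAmul : ∀ (g h : G) (x : X), A (g * h) x = A g (A h x) := by
    intro g h x
    rw [map_mul]
    rfl
  have hAe : ∀ (g : G) (i : ℕ), ‖A g (e i)‖ ≤ C := by
    intro g i
    have h1 := hA g (e i)
    have h2 := norm_e_le hX i
    nlinarith
  have hYn : ∀ y ∈ Y, ∀ g : G, ‖A g y‖ ≤ C := by
    intro y hy g
    obtain ⟨-, h, i, rfl⟩ := hY y hy
    rw [← hAmul]
    exact hAe _ _
  have hY1 : ∀ y ∈ Y, ‖y‖ ≤ C := by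
    intro y hy
    obtain ⟨-, h, i, rfl⟩ := hY y hy
    exact hAe _ _
  set g : Fin M → G := fun a => γ (n a) with hg
  set q : Ω → G := fun w => (g (l w) * p w)⁻¹ with hq
  obtain ⟨R, S, hRS⟩ := ts_rows hX C hC M hM (fun w => A (q w)) (fun w x => hA (q w) x)
  set J : Set ℕ := {i | K0 ≤ i ∧ ∃ W : Finset Ω, c₁ * Fintype.card Ω ≤ (W.card : ℝ) ∧
    ∀ w ∈ W, ∃ m, 1 / (4 * C) ≤ |co e (A (q w) (e i)) m|} with hJ
  have hJinf : J.Infinite := by
    rw [Set.infinite_iff_exists_gt]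
    intro b
    obtain ⟨i, hi, W, hW, hW'⟩ := hcol (fun w => A (q w)) (fun w => A (q w)⁻¹)
      (fun w x => hA _ x) (fun w x => hA _ x)
      (fun w x => by rw [← hAmul, mul_inv_cancel, map_one]; rfl) (max K0 (b + 1))
    exact ⟨i, ⟨le_trans (le_max_left _ _) hi, W, hW, hW'⟩,
      lt_of_lt_of_le (Nat.lt_succ_self b) (le_trans (le_max_right _ _) hi)⟩
  obtain ⟨N, hN1, hNΛ⟩ : ∃ N : ℕ, 1 ≤ N ∧ Λ' ≤ (N : ℝ) :=
    ⟨⌈Λ'⌉₊ + 1, by omega, by
      have := Nat.le_ceil Λ'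
      push_cast
      linarith⟩
  have hρ : (0 : ℝ) < 1 / (8 * C) := by positivity
  have hρ1 : 1 / (8 * C) < 1 := by
    rw [div_lt_one (by positivity)]
    linarith
  have hρη : 1 / (8 * C) < 1 / (4 * C) := by
    apply one_div_lt_one_div_of_lt <;> linarith
  have hρN : 1 / (8 * C) / N ≤ 1 / (8 * C) :=
    div_le_self hρ.le (by exact_mod_cast hN1)
  obtain ⟨F, hFc, hFJ, hFu, hFs, hFsum⟩ := sparse hX C hC (fun w => A (q w))
    (fun w x => hA _ x) J hJinf N (S + N + r + kp + K0) hN1 (1 / (8 * C)) hρ hρ1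
  have hr' : (0 : ℝ) < 1 / r := by
    have : (0 : ℝ) < r := by exact_mod_cast hr
    positivity
  obtain ⟨K1, hK1⟩ := ts_tails hX (Finset.univ ×ˢ F) (fun wi : Ω × ℕ => A (q wi.1) (e wi.2))
    (min (1 / (r : ℝ)) (1 / (8 * C))) (lt_min hr' hρ)
  have hK1' : ∀ w, ∀ i ∈ F, ∀ E ∈ schreier, (∀ s ∈ E, K1 ≤ s) →
      ∑ s ∈ E, |co e (A (q w) (e i)) s| ≤ min (1 / (r : ℝ)) (1 / (8 * C)) := fun w i hi =>
    hK1 (w, i) (Finset.mem_product.2 ⟨Finset.mem_univ _, hi⟩)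
  have hpos : ∀ w, ∀ i ∈ F, ∀ s, 1 / (4 * C) ≤ |co e (A (q w) (e i)) s| →
      S + N + r + kp + K0 ≤ s := by
    intro w i hi s hs
    by_contra hlt
    rw [not_le] at hlt
    have := hFs w i hi s hlt
    linarith
  refine ⟨g, F, K1, ?_, ?_, ?_, ?_, ?_, ?_⟩
  · intro y hy θ hθ
    have h1 := (hn y hy).1 θ (fun a => by
      rcases hθ a with h | h <;> rw [h] <;> norm_num)
    refine h1.trans ?_
    have := hY1 y hy
    nlinarith
  · intro y hy a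
    exact htail _ (hYn y hy _) ((hn y hy).2 a)
  · intro i hi
    refine htail _ ((norm_e_le hX i).trans hC) ?_
    refine le_trans (le_of_eq ?_) hτ.le
    refine Finset.sum_eq_zero fun s hs => ?_
    rw [co_basis hX, if_neg, abs_zero]
    rw [Finset.mem_range] at hs
    have := (hFJ i hi).1.1
    omega
  · rw [← Finset.card_pos, hFc]
    exact hN1
  · rw [hFc]
    exact hNΛ
  · refine ⟨hFsum, ?_, ?_, ?_, ?_, ?_⟩
    · intro w i hi E hE hE'
      exact (hK1' w i hi E hE hE').trans (min_le_left _ _)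
    · intro i hi
      exact (hFJ i hi).1.2
    · intro w i hi s hs
      have h1 := hpos w i hi s hs
      refine ⟨by rw [hFc]; omega, by omega, by omega, ?_⟩
      by_contra hlt
      rw [not_lt] at hlt
      have h2 := (hK1' w i hi {s} (schreier_regular.singleton s) (fun t ht => by
        rw [Finset.mem_singleton] at ht; omega)).trans (min_le_right _ _)
      rw [Finset.sum_singleton] at h2
      linarith
    · intro w s i hi i' hi' h h'
      exact hFu w s i hi i' hi' (by linarith) (by linarith)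
    · exact ⟨R, fun w i hi s hs => hRS w s (by have := hpos w i hi s hs; omega)⟩

end Group

end Pool.Agent.Comb7f333f.WPart
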