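import Pool.Agent.Lib.MP_7f333f_an.W.B4
import Pool.Agent.Lib.MP_7f333f_an.W.B5d
import Pool.Agent.Lib.MP_7f333f_an.W.TStep

set_option autoImplicit false
set_option linter.unusedSectionVars false

/-!
Existence of the tower.
-/

namespace Pool.Agent.Comb7f333f.WPart

open Filter Topology

theorem tw_pre_congr {r M : ℕ} {G : Type*} [Group G] {g g' : ℕ → Fin M → G}
    (w : Fin r → Fin M) (j : ℕ) (h : ∀ i < j, g i = g' i) : pre g w j = pre g' w j := by
  induction j with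
  | zero => rfl
  | succ j ih =>
    rw [pre, pre, ih fun i hi => h i (by omega), stp, stp, h j (by omega)]

theorem tw_kap_congr {K K' : ℕ → ℕ} (j : ℕ) (h : ∀ i < j, K i = K' i) : kap K j = kap K' j := by
  rw [kap, kap]
  congr 1
  exact Finset.sum_congr rfl fun i hi => h i (Finset.mem_range.mp hi)

section Group

variable {X : Type*} [NormedAddCommGroup X] [NormedSpace ℝ X] {e : ℕ → X}
  {G : Type*} [Group G] (A : G →* (X →L[ℝ] X)) (C : ℝ) (γ : ℕ → G)

/-- The invariant of the construction. -/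
structure TwInv (e : ℕ → X) (c₁ Λ : ℝ) (r M n : ℕ) (g : ℕ → Fin M → G) (F : ℕ → Finset ℕ)
    (K : ℕ → ℕ) : Prop where
  F_ne : ∀ j < n, (F j).Nonempty
  card_F : ∀ j < n, Λ * 2 ^ r * kap K j ≤ ((F j).card : ℝ)
  lev : ∀ j < n, LevelProps A e C c₁ r M (fun w : Fin r → Fin M => (pre g w (j + 1))⁻¹) (F j)
    (kap K j) (K j)
  signs : ∀ j < n, ∀ w : Fin r → Fin M, ∀ j' < j, ∀ i' ∈ F j', ∀ θ : Fin M → ℝ, IsSign θ →
    ‖∑ a, θ a • A (g j a) (A (pre g w j * (pre g w (j' + 1))⁻¹) (e i'))‖ ≤ C ^ 2 + 1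
  sm : ∀ w : Fin r → Fin M, ∀ j' < n, ∀ i' ∈ F j', Sm e (fun n => A (γ n)) (1 / (4 * M))
    (A (pre g w n * (pre g w (j' + 1))⁻¹) (e i'))

variable (hX : IsCombSpace schreier e) (hC : 1 ≤ C) (hA : ∀ g x, ‖A g x‖ ≤ C * ‖x‖)
  (hnull : ∀ x k, Tendsto (fun n => co e (A (γ n) x) k) atTop (𝓝 0))

include hX hC hA hnull

theorem tw_step (c₁ Λ : ℝ)
    (hcol : ∀ {L : Type} [Fintype L] [Nonempty L] (T S : L → X →L[ℝ] X),
      (∀ l x, ‖T l x‖ ≤ C * ‖x‖) → (∀ l x, ‖S l x‖ ≤ C * ‖x‖) → (∀ l x, T l (S l x) = x) →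
      ∀ K0 : ℕ, ∃ i ≥ K0, ∃ W : Finset L, c₁ * Fintype.card L ≤ (W.card : ℝ) ∧
        ∀ l ∈ W, ∃ m, 1 / (4 * C) ≤ |co e (T l (e i)) m|)
    (r M : ℕ) (hr : 1 ≤ r) (hM : 1 ≤ M) (K0 : ℕ) (τ : ℝ) (hτ : 0 < τ)
    (htail : ∀ y : X, ‖y‖ ≤ C → ∑ s ∈ Finset.range K0, |co e y s| ≤ τ →
      Sm e (fun n => A (γ n)) (1 / (4 * M)) y) (n : ℕ) (hn : n < r) (g : ℕ → Fin M → G)
    (F : ℕ → Finset ℕ) (K : ℕ → ℕ) (hI : TwInv A C γ e c₁ Λ r M n g F K) :
    ∃ (g' : ℕ → Fin M → G) (F' : ℕ → Finset ℕ) (K' : ℕ → ℕ),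
      TwInv A C γ e c₁ Λ r M (n + 1) g' F' K' := by
  classical
  have : Nonempty (Fin M) := ⟨⟨0, hM⟩⟩
  set Y : Finset X := (Finset.univ : Finset (Fin r → Fin M)).biUnion fun w =>
    (Finset.range n).biUnion fun j' => (F j').image fun i' =>
      A (pre g w n * (pre g w (j' + 1))⁻¹) (e i') with hYdef
  have hmemY : ∀ w : Fin r → Fin M, ∀ j' < n, ∀ i' ∈ F j',
      A (pre g w n * (pre g w (j' + 1))⁻¹) (e i') ∈ Y := by
    intro w j' hj' i' hi'
    rw [hYdef, Finset.mem_biUnion]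
    refine ⟨w, Finset.mem_univ _, ?_⟩
    rw [Finset.mem_biUnion]
    exact ⟨j', Finset.mem_range.mpr hj', Finset.mem_image_of_mem _ hi'⟩
  have hY : ∀ y ∈ Y, Sm e (fun n => A (γ n)) (1 / (4 * M)) y ∧ ∃ h i, y = A h (e i) := by
    intro y hy
    rw [hYdef, Finset.mem_biUnion] at hy
    obtain ⟨w, -, hy⟩ := hy
    rw [Finset.mem_biUnion] at hy
    obtain ⟨j', hj', hy⟩ := hy
    obtain ⟨i', hi', rfl⟩ := Finset.mem_image.mp hy
    exact ⟨hI.sm w j' (Finset.mem_range.mp hj') i' hi', _, _, rfl⟩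
  obtain ⟨gn, Fn, Kn, h1, h2, h3, h4, h5, h6⟩ := tower_step hX A C hC hA γ hnull c₁ hcol r M hr hM
    K0 τ hτ htail (Ω := Fin r → Fin M) (fun w => w ⟨n, hn⟩) (fun w => pre g w n) Y hY (kap K n)
    (Λ * 2 ^ r * kap K n)
  set g' : ℕ → Fin M → G := Function.update g n gn with hg'
  set F' : ℕ → Finset ℕ := Function.update F n Fn with hF'
  set K' : ℕ → ℕ := Function.update K n Kn with hK'
  have hgn : g' n = gn := Function.update_self _ _ _
  have hFn : F' n = Fn := Function.update_self _ _ _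
  have hKn : K' n = Kn := Function.update_self _ _ _
  have hgj : ∀ j, j < n → g' j = g j := fun j hj => Function.update_of_ne (by omega) _ _
  have hFj : ∀ j, j < n → F' j = F j := fun j hj => Function.update_of_ne (by omega) _ _
  have hKj : ∀ j, j < n → K' j = K j := fun j hj => Function.update_of_ne (by omega) _ _
  have hpre : ∀ (w : Fin r → Fin M) (j : ℕ), j ≤ n → pre g' w j = pre g w j := fun w j hj =>
    tw_pre_congr w j fun i hi => hgj i (by omega)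
  have hpren : ∀ w : Fin r → Fin M, pre g' w (n + 1) = gn (w ⟨n, hn⟩) * pre g w n := by
    intro w
    rw [pre, hpre w n le_rfl, stp, dif_pos hn, hgn]
  have hkap : ∀ j, j ≤ n → kap K' j = kap K j := fun j hj =>
    tw_kap_congr j fun i hi => hKj i (by omega)
  refine ⟨g', F', K', ?_, ?_, ?_, ?_, ?_⟩
  · intro j hj
    rcases Nat.lt_succ_iff_lt_or_eq.mp hj with hj | rfl
    · rw [hFj j hj]
      exact hI.F_ne j hj
    · rw [hFn]
      exact h4
  · intro j hj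
    rcases Nat.lt_succ_iff_lt_or_eq.mp hj with hj | rfl
    · rw [hFj j hj, hkap j hj.le]
      exact hI.card_F j hj
    · rw [hFn, hkap j le_rfl]
      exact h5
  · intro j hj
    rcases Nat.lt_succ_iff_lt_or_eq.mp hj with hj | rfl
    · have h7 : (fun w : Fin r → Fin M => (pre g' w (j + 1))⁻¹) =
          fun w : Fin r → Fin M => (pre g w (j + 1))⁻¹ :=
        funext fun w => by rw [hpre w (j + 1) hj]
      rw [h7, hFj j hj, hkap j hj.le, hKj j hj]
      exact hI.lev j hj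
    · have h7 : (fun w : Fin r → Fin M => (pre g' w (j + 1))⁻¹) =
          fun w : Fin r → Fin M => (gn (w ⟨j, hn⟩) * pre g w j)⁻¹ :=
        funext fun w => by rw [hpren w]
      rw [h7, hFn, hkap j le_rfl, hKn]
      exact h6
  · intro j hj w j' hj' i' hi' θ hθ
    rcases Nat.lt_succ_iff_lt_or_eq.mp hj with hj | rfl
    · rw [hFj j' (by omega)] at hi'
      rw [hpre w j hj.le, hpre w (j' + 1) (by omega), hgj j hj]
      exact hI.signs j hj w j' hj' i' hi' θ hθ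
    · rw [hFj j' (by omega)] at hi'
      rw [hpre w j le_rfl, hpre w (j' + 1) (by omega), hgn]
      exact h1 _ (hmemY w j' hj' i' hi') θ hθ
  · intro w j' hj' i' hi'
    rw [hpren w]
    rcases Nat.lt_succ_iff_lt_or_eq.mp hj' with hj | rfl
    · rw [hFj j' hj] at hi'
      rw [hpre w (j' + 1) hj]
      have h7 := h2 _ (hmemY w j' hj i' hi') (w ⟨n, hn⟩)
      have h8 : A (gn (w ⟨n, hn⟩)) (A (pre g w n * (pre g w (j' + 1))⁻¹) (e i')) =
          A (gn (w ⟨n, hn⟩) * pre g w n * (pre g w (j' + 1))⁻¹) (e i') := by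
        rw [mul_assoc, map_mul A (gn (w ⟨n, hn⟩))]
        rfl
      rwa [h8] at h7
    · rw [hFn] at hi'
      rw [hpren w, mul_inv_cancel, map_one]
      exact h3 i' hi'

end Group

section Group'

variable {X : Type*} [NormedAddCommGroup X] [NormedSpace ℝ X] {e : ℕ → X}
  (hX : IsCombSpace schreier e) {G : Type*} [Group G] (A : G →* (X →L[ℝ] X)) (C : ℝ)
  (hC : 1 ≤ C) (hA : ∀ g x, ‖A g x‖ ≤ C * ‖x‖) (γ : ℕ → G)
  (hnull : ∀ x k, Tendsto (fun n => co e (A (γ n) x) k) atTop (𝓝 0))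

include hX hC hA hnull

/-- All the levels of the tower. -/
theorem exists_tower : ∃ c₁ : ℝ, 0 < c₁ ∧ c₁ ≤ 1 ∧ ∀ (r M : ℕ) (Λ : ℝ), 1 ≤ r → 1 ≤ M →
    Nonempty (Tower A e C c₁ Λ r M) := by
  obtain ⟨c₁, hc₁, hc₁', hcol⟩ := common_columns hX C hC
  refine ⟨c₁, hc₁, hc₁', fun r M Λ hr hM => ?_⟩
  have hM' : (0 : ℝ) < M := by exact_mod_cast hM
  obtain ⟨K0, τ, hτ, htail⟩ := exists_tails hX C hC (fun n => A (γ n)) (fun n => hA (γ n)) hnull
    (1 / (4 * M)) (by positivity)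
  have hrec : ∀ n ≤ r, ∃ (g : ℕ → Fin M → G) (F : ℕ → Finset ℕ) (K : ℕ → ℕ),
      TwInv A C γ e c₁ Λ r M n g F K := by
    intro n
    induction n with
    | zero =>
      intro _
      exact ⟨fun _ _ => 1, fun _ => ∅, fun _ => 0, fun j hj => absurd hj (Nat.not_lt_zero j),
        fun j hj => absurd hj (Nat.not_lt_zero j), fun j hj => absurd hj (Nat.not_lt_zero j),
        fun j hj => absurd hj (Nat.not_lt_zero j), fun w j hj => absurd hj (Nat.not_lt_zero j)⟩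
    | succ n ih =>
      intro hn
      obtain ⟨g, F, K, hI⟩ := ih (by omega)
      exact tw_step A C γ hX hC hA hnull c₁ Λ hcol r M hr hM K0 τ hτ htail n (by omega) g F K hI
  obtain ⟨g, F, K, hI⟩ := hrec r le_rfl
  exact ⟨⟨g, F, K, hI.F_ne, hI.card_F, hI.lev, hI.signs⟩⟩

end Group'

end Pool.Agent.Comb7f333f.WPart
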